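import Pool.Agent.OSG.Ebd

/-!
# OSG/Bad: the number of the groups with a given number of points outside of the matching
-/

namespace Pool.Agent.OSG

open Equiv

variable {n : ℕ}

/-- bound for the number of the groups `Q` -/
def bq (W u : ℕ) : ℕ := 4 * (W - u + 1) * 2 ^ ((W - u) ^ 2 / 4)

/-- bound for the number of the groups `N` -/
def bn (v r : ℕ) : ℕ := 4 * (v + 1) * 3 ^ (v ^ 2 / 4) * 2 ^ r * 3 ^ v

theorem cnt_fixed (m ζ : Perm (Fin n)) (ρ : Fin n → Fin n) :
    {H : Subgroup (Perm (Fin n)) | ∃ Q N, Enc H Q N m ζ ∧ RhoOk Q m ζ ρ}.ncard ≤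
      bq (WW m).card (uu m ζ ρ) * bn (uu m ζ ρ + (IA m ζ).card) (rr m ζ ρ) := by
  classical
  set QS : Finset (Subgroup (Perm (Fin n))) :=
    (Set.toFinite {Q : Subgroup (Perm (Fin n)) | (∃ H N, Enc H Q N m ζ) ∧ RhoOk Q m ζ ρ}).toFinset with hQS
  set NS : Subgroup (Perm (Fin n)) → Finset (Subgroup (Perm (Fin n))) := fun Q =>
    (Set.toFinite {N : Subgroup (Perm (Fin n)) | ∃ H, Enc H Q N m ζ}).toFinset with hNS
  have h1 : {H : Subgroup (Perm (Fin n)) | ∃ Q N, Enc H Q N m ζ ∧ RhoOk Q m ζ ρ} ⊆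
      ((QS.biUnion fun Q => (NS Q).image (fun N => Q ⊔ N) : Finset (Subgroup (Perm (Fin n)))) :
        Set (Subgroup (Perm (Fin n)))) := by
    rintro H ⟨Q, N, h, hr⟩
    rw [Finset.mem_coe, Finset.mem_biUnion]
    refine ⟨Q, ?_, ?_⟩
    · rw [hQS, Set.Finite.mem_toFinset]
      exact ⟨⟨H, N, h⟩, hr⟩
    · rw [Finset.mem_image]
      refine ⟨N, ?_, h.sup.symm⟩
      simp only [hNS, Set.Finite.mem_toFinset]
      exact ⟨H, h⟩
  refine le_trans (Set.ncard_le_ncard h1 (Finset.finite_toSet _)) ?_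
  rw [Set.ncard_coe_finset]
  refine le_trans (Finset.card_biUnion_le_card_mul QS _ (bn (uu m ζ ρ + (IA m ζ).card) (rr m ζ ρ)) ?_) ?_
  · intro Q hQ
    rw [hQS, Set.Finite.mem_toFinset] at hQ
    refine le_trans Finset.card_image_le ?_
    have := fib Q m ζ ρ hQ.2
    rw [Set.ncard_eq_toFinset_card _ (Set.toFinite _)] at this
    exact this
  · refine Nat.mul_le_mul_right _ ?_
    have := ebd m ζ ρ
    rw [Set.ncard_eq_toFinset_card _ (Set.toFinite _)] at this
    exact this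

theorem zeta_count (m : Perm (Fin n)) :
    {ζ : Perm (Fin n) | ∃ H Q N, Enc H Q N m ζ}.ncard ≤ n ^ (2 * fixc m) := by
  classical
  have h1 : n ^ (2 * fixc m) = Nat.card ({p : Fin n // p ∈ Finset.univ.filter (fun x => m x = x)} → Fin n × Fin n) := by
    rw [Nat.card_eq_fintype_card, Fintype.card_fun, Fintype.card_prod, Fintype.card_fin, Fintype.card_coe, pow_mul,
      pow_two]
    rfl
  rw [h1, ← Nat.card_coe_set_eq]
  refine Nat.card_le_card_of_injective (fun ζ p => (ζ.1 p.1, ζ.1 (ζ.1 p.1))) ?_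
  rintro ⟨ζ, H, Q, N, h⟩ ⟨ζ', H', Q', N', h'⟩ he
  have he1 : ∀ p, m p = p → ζ p = ζ' p ∧ ζ (ζ p) = ζ' (ζ' p) := by
    intro p hp
    have := congrFun he ⟨p, by simp [hp]⟩
    simpa using this
  have key : ∀ (ζ ζ' : Perm (Fin n)), (∃ H Q N, Enc H Q N m ζ) → (∃ H Q N, Enc H Q N m ζ') →
      (∀ p, m p = p → ζ p = ζ' p ∧ ζ (ζ p) = ζ' (ζ' p)) → ∀ x, ζ x ≠ x → ζ x = ζ' x := by
    rintro ζ ζ' ⟨H, Q, N, h⟩ ⟨H', Q', N', h'⟩ he x hx
    have hz := h.zzz
    have hz' := h'.zzz
    rcases h.fix x hx with h1 | h1 | h1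
    · exact (he x h1).1
    · obtain ⟨h2, h3⟩ := he _ h1
      -- p = ζ x, ζ² p = x
      rw [hz] at h3
      have h4 : ζ' x = ζ' (ζ' (ζ' (ζ x))) := by rw [← h3]
      rw [hz'] at h4
      exact h4.symm
    · obtain ⟨h2, h3⟩ := he _ h1
      -- p = ζ ζ x, ζ p = x, ζ ζ p = ζ x
      rw [hz] at h2 h3
      have h4 : ζ' x = ζ' (ζ' (ζ (ζ x))) := by rw [← h2]
      rw [h4, ← h3]
  refine Subtype.ext (Equiv.ext fun x => ?_)
  by_cases h1 : ζ x = x
  · by_cases h2 : ζ' x = x
    · show ζ x = ζ' x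
      rw [h1, h2]
    · exact (key ζ' ζ ⟨_, _, _, h'⟩ ⟨_, _, _, h⟩ (fun p hp => ⟨(he1 p hp).1.symm, (he1 p hp).2.symm⟩) x h2).symm
  · exact key ζ ζ' ⟨_, _, _, h⟩ ⟨_, _, _, h'⟩ he1 x h1

theorem rho_count (m ζ : Perm (Fin n)) :
    {ρ : Fin n → Fin n | ∃ Q, RhoOk Q m ζ ρ}.ncard ≤ n ^ (IS m ζ).card := by
  classical
  have h1 : n ^ (IS m ζ).card = Nat.card (↥(IS m ζ) → Fin n) := by
    rw [Nat.card_eq_fintype_card, Fintype.card_fun, Fintype.card_fin, Fintype.card_coe]
  rw [h1, ← Nat.card_coe_set_eq]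
  refine Nat.card_le_card_of_injective (fun ρ p => ρ.1 p.1) ?_
  rintro ⟨ρ, Q, h⟩ ⟨ρ', Q', h'⟩ he
  refine Subtype.ext (funext fun x => ?_)
  by_cases hx : x ∈ IS m ζ
  · exact congrFun he ⟨x, hx⟩
  · show ρ x = ρ' x
    rw [h.out x hx, h'.out x hx]

theorem bad_f (f B : ℕ) (hn : 0 < n) (hB : ∀ (W u a r : ℕ), 2 * W + f = n → u ≤ W → u + r + 3 * a ≤ f →
    bq W u * bn (u + a) r ≤ B) :
    {H : Subgroup (Perm (Fin n)) | ∃ Q N m ζ, Enc H Q N m ζ ∧ fixc m = f}.ncard ≤
      (Inv n f).card * (n ^ (2 * f) * (n ^ f * B)) := by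
  classical
  set ZS : Perm (Fin n) → Finset (Perm (Fin n)) := fun m =>
    (Set.toFinite {ζ : Perm (Fin n) | ∃ H Q N, Enc H Q N m ζ}).toFinset with hZS
  set RS : Perm (Fin n) → Perm (Fin n) → Finset (Fin n → Fin n) := fun m ζ =>
    (Set.toFinite {ρ : Fin n → Fin n | ∃ Q, RhoOk Q m ζ ρ}).toFinset with hRS
  set HS : Perm (Fin n) → Perm (Fin n) → (Fin n → Fin n) → Finset (Subgroup (Perm (Fin n))) := fun m ζ ρ =>
    (Set.toFinite {H : Subgroup (Perm (Fin n)) | ∃ Q N, Enc H Q N m ζ ∧ RhoOk Q m ζ ρ}).toFinset with hHS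
  have h1 : {H : Subgroup (Perm (Fin n)) | ∃ Q N m ζ, Enc H Q N m ζ ∧ fixc m = f} ⊆
      (((Inv n f).biUnion fun m => (ZS m).biUnion fun ζ => (RS m ζ).biUnion fun ρ => HS m ζ ρ :
        Finset (Subgroup (Perm (Fin n)))) : Set (Subgroup (Perm (Fin n)))) := by
    rintro H ⟨Q, N, m, ζ, h, hf⟩
    obtain ⟨ρ, hρ⟩ := exists_rho Q m ζ
    simp only [Finset.mem_coe, Finset.mem_biUnion, hZS, hRS, hHS, Set.Finite.mem_toFinset, Set.mem_ofPred_eq]
    refine ⟨m, ?_, ζ, ⟨H, Q, N, h⟩, ρ, ⟨Q, hρ⟩, Q, N, h, hρ⟩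
    unfold Inv
    rw [Finset.mem_filter]
    exact ⟨Finset.mem_univ _, h.mm, hf⟩
  refine le_trans (Set.ncard_le_ncard h1 (Finset.finite_toSet _)) ?_
  rw [Set.ncard_coe_finset]
  refine Finset.card_biUnion_le_card_mul _ _ _ fun m hm => ?_
  unfold Inv at hm
  rw [Finset.mem_filter] at hm
  obtain ⟨-, hmm, hf⟩ := hm
  refine le_trans (Finset.card_biUnion_le_card_mul _ _ (n ^ f * B) fun ζ hζ => ?_) (Nat.mul_le_mul_right _ ?_)
  · simp only [hZS, Set.Finite.mem_toFinset, Set.mem_ofPred_eq] at hζ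
    obtain ⟨H0, Q0, N0, h0⟩ := hζ
    have hfix := fix_ge h0
    have hISW := IS_le h0
    refine le_trans (Finset.card_biUnion_le_card_mul _ _ B fun ρ hρ => ?_) (Nat.mul_le_mul_right _ ?_)
    · have h2 := cnt_fixed m ζ ρ
      rw [Set.ncard_eq_toFinset_card _ (Set.toFinite _)] at h2
      refine le_trans h2 ?_
      have h3 : uu m ζ ρ + rr m ζ ρ = (IS m ζ).card := by
        unfold uu rr
        rw [add_comm]
        exact Finset.card_filter_add_card_filter_not _
      refine hB _ _ _ _ ?_ ?_ ?_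
      · rw [← hf]; exact card_WW hmm
      · omega
      · omega
    · have h2 := rho_count m ζ
      rw [Set.ncard_eq_toFinset_card _ (Set.toFinite _)] at h2
      refine le_trans h2 (Nat.pow_le_pow_right hn ?_)
      omega
  · have h2 := zeta_count m
    rw [Set.ncard_eq_toFinset_card _ (Set.toFinite _), hf] at h2
    exact h2

theorem mem_Inv {m : Perm (Fin n)} {f : ℕ} : m ∈ Inv n f ↔ m * m = 1 ∧ fixc m = f := by
  unfold Inv
  rw [Finset.mem_filter]
  simp

theorem inv_step (f : ℕ) : (Inv n (f + 2)).card ≤ n * (Inv n f).card := by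
  classical
  have h1 : ∀ m : ↥(Inv n (f + 2)), ∃ a b, a ≠ b ∧ m.1 a = a ∧ m.1 b = b := by
    intro m
    obtain ⟨-, h2⟩ := mem_Inv.1 m.2
    have h3 : 1 < (Finset.univ.filter (fun x => m.1 x = x)).card := by
      unfold fixc at h2
      omega
    obtain ⟨a, ha, b, hb, hab⟩ := Finset.one_lt_card.1 h3
    exact ⟨a, b, hab, (Finset.mem_filter.1 ha).2, (Finset.mem_filter.1 hb).2⟩
  choose a b hab ha hb using h1
  have h2 : ∀ m : ↥(Inv n (f + 2)), m.1 * swap (a m) (b m) ∈ Inv n f := by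
    intro m
    obtain ⟨hm1, hm2⟩ := mem_Inv.1 m.2
    have hmm := invol hm1
    rw [mem_Inv]
    have hval : ∀ x, x ≠ a m → x ≠ b m → (m.1 * swap (a m) (b m)) x = m.1 x := by
      intro x h1 h2
      rw [Perm.mul_apply, swap_apply_of_ne_of_ne h1 h2]
    have hva : (m.1 * swap (a m) (b m)) (a m) = b m := by
      rw [Perm.mul_apply, swap_apply_left, hb]
    have hvb : (m.1 * swap (a m) (b m)) (b m) = a m := by
      rw [Perm.mul_apply, swap_apply_right, ha]
    constructor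
    · refine Equiv.ext fun x => ?_
      rw [Perm.mul_apply, Perm.one_apply]
      by_cases h1 : x = a m
      · rw [h1, hva, hvb]
      · by_cases h2 : x = b m
        · rw [h2, hvb, hva]
        · rw [hval x h1 h2, hval, hmm]
          · intro h3
            have : m.1 x = m.1 (a m) := by rw [h3, ha]
            exact h1 (m.1.injective this)
          · intro h3
            have : m.1 x = m.1 (b m) := by rw [h3, hb]
            exact h2 (m.1.injective this)
    · unfold fixc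
      have h3 : Finset.univ.filter (fun x => (m.1 * swap (a m) (b m)) x = x) =
          ((Finset.univ.filter (fun x => m.1 x = x)).erase (a m)).erase (b m) := by
        ext x
        simp only [Finset.mem_filter, Finset.mem_univ, true_and, Finset.mem_erase]
        by_cases h1 : x = a m
        · rw [h1, hva]
          constructor
          · intro h; exact absurd h.symm (hab m)
          · rintro ⟨-, h, -⟩; exact absurd rfl h
        · by_cases h2 : x = b m
          · rw [h2, hvb]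
            constructor
            · intro h; exact absurd h (hab m)
            · rintro ⟨h, -, -⟩; exact absurd rfl h
          · rw [hval x h1 h2]
            tauto
      rw [h3, Finset.card_erase_of_mem, Finset.card_erase_of_mem]
      · unfold fixc at hm2
        rw [hm2]
        rfl
      · simp [ha]
      · rw [Finset.mem_erase]
        exact ⟨(hab m).symm, by simp [hb]⟩
  have h3 : n * (Inv n f).card = Nat.card (Fin n × ↥(Inv n f)) := by
    rw [Nat.card_eq_fintype_card, Fintype.card_prod, Fintype.card_fin, Fintype.card_coe]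
  have h4 : (Inv n (f + 2)).card = Nat.card ↥(Inv n (f + 2)) := by
    rw [Nat.card_eq_fintype_card, Fintype.card_coe]
  rw [h3, h4]
  refine Nat.card_le_card_of_injective (fun m => (a m, ⟨_, h2 m⟩)) ?_
  intro m m' he
  have e1 : a m = a m' := congrArg Prod.fst he
  have e2 : m.1 * swap (a m) (b m) = m'.1 * swap (a m') (b m') := congrArg (fun p => (p.2 : Perm (Fin n))) he
  have e3 : b m = b m' := by
    have := congrArg (fun g : Perm (Fin n) => g (a m)) e2
    simp only [Perm.mul_apply, swap_apply_left, hb] at this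
    rw [this, e1, swap_apply_left, hb]
  rw [e1, e3] at e2
  exact Subtype.ext (mul_right_cancel e2)

theorem inv_le (f0 j : ℕ) : (Inv n (f0 + 2 * j)).card ≤ n ^ j * (Inv n f0).card := by
  induction j with
  | zero => simp
  | succ j ih =>
    have h1 := inv_step (n := n) (f0 + 2 * j)
    rw [show f0 + 2 * (j + 1) = f0 + 2 * j + 2 by ring]
    refine h1.trans ?_
    rw [pow_succ']
    calc n * (Inv n (f0 + 2 * j)).card ≤ n * (n ^ j * (Inv n f0).card) := Nat.mul_le_mul_left _ ih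
      _ = n * n ^ j * (Inv n f0).card := by ring

/-- the groups with at least two points outside of the matching are few -/
theorem bad_all (T : ℕ) (hn : 0 < n) (hB : ∀ (f W u a r : ℕ), 2 ≤ f → 2 * W + f = n → u ≤ W → u + r + 3 * a ≤ f →
    n ^ (4 * f) * (bq W u * bn (u + a) r) ≤ T) :
    {H : Subgroup (Perm (Fin n)) | ∃ Q N m ζ, Enc H Q N m ζ ∧ 2 ≤ fixc m}.ncard ≤
      n * ((Inv n (n % 2)).card * T) := by
  classical
  set HS : ℕ → Finset (Subgroup (Perm (Fin n))) := fun f =>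
    (Set.toFinite {H : Subgroup (Perm (Fin n)) | ∃ Q N m ζ, Enc H Q N m ζ ∧ fixc m = f}).toFinset with hHS
  have h1 : {H : Subgroup (Perm (Fin n)) | ∃ Q N m ζ, Enc H Q N m ζ ∧ 2 ≤ fixc m} ⊆
      (((Finset.Icc 2 n).biUnion HS : Finset (Subgroup (Perm (Fin n)))) : Set (Subgroup (Perm (Fin n)))) := by
    rintro H ⟨Q, N, m, ζ, h, hf⟩
    simp only [Finset.mem_coe, Finset.mem_biUnion, hHS, Set.Finite.mem_toFinset, Set.mem_ofPred_eq]
    refine ⟨fixc m, Finset.mem_Icc.2 ⟨hf, ?_⟩, Q, N, m, ζ, h, rfl⟩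
    unfold fixc
    exact (Finset.card_le_univ _).trans (by simp)
  refine le_trans (Set.ncard_le_ncard h1 (Finset.finite_toSet _)) ?_
  rw [Set.ncard_coe_finset]
  refine le_trans (Finset.card_biUnion_le_card_mul _ _ ((Inv n (n % 2)).card * T) fun f hf => ?_)
    (Nat.mul_le_mul_right _ ?_)
  · obtain ⟨hf2, hfn⟩ := Finset.mem_Icc.1 hf
    have h0 : (HS f).card = {H : Subgroup (Perm (Fin n)) | ∃ Q N m ζ, Enc H Q N m ζ ∧ fixc m = f}.ncard := by
      rw [Set.ncard_eq_toFinset_card _ (Set.toFinite _)]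
    rw [h0]
    by_cases hpar : f % 2 = n % 2
    · obtain ⟨j, hj⟩ : ∃ j, f = n % 2 + 2 * j := ⟨f / 2, by omega⟩
      have hpos : 0 < n ^ (4 * f) := Nat.pow_pos hn
      have h2 := bad_f (n := n) f (T / n ^ (4 * f)) hn (fun W u a r e1 e2 e3 => by
        rw [Nat.le_div_iff_mul_le hpos, mul_comm]
        exact hB f W u a r hf2 e1 e2 e3)
      refine h2.trans ?_
      have h3 : (Inv n f).card ≤ n ^ f * (Inv n (n % 2)).card := by
        have := inv_le (n := n) (n % 2) j
        rw [← hj] at this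
        refine this.trans (Nat.mul_le_mul_right _ (Nat.pow_le_pow_right hn (by omega)))
      calc (Inv n f).card * (n ^ (2 * f) * (n ^ f * (T / n ^ (4 * f))))
          ≤ (n ^ f * (Inv n (n % 2)).card) * (n ^ (2 * f) * (n ^ f * (T / n ^ (4 * f)))) := Nat.mul_le_mul_right _ h3
        _ = (Inv n (n % 2)).card * (n ^ (4 * f) * (T / n ^ (4 * f))) := by
            rw [show 4 * f = f + 2 * f + f by ring, pow_add, pow_add]
            ring
        _ ≤ (Inv n (n % 2)).card * T := Nat.mul_le_mul_left _ (Nat.mul_div_le _ _)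
    · have : {H : Subgroup (Perm (Fin n)) | ∃ Q N m ζ, Enc H Q N m ζ ∧ fixc m = f} = ∅ := by
        rw [Set.eq_empty_iff_forall_notMem]
        rintro H ⟨Q, N, m, ζ, h, hf⟩
        have := card_WW h.mm
        rw [hf] at this
        omega
      rw [this, Set.ncard_empty]
      exact Nat.zero_le _
  · rw [Nat.card_Icc]
    omega

end Pool.Agent.OSG
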