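import Pool.Agent.OSG.Ebd

/-!
# OSG/Cyc: for odd `n` there are more groups with an orbit of length three
-/

namespace Pool.Agent.OSG

open Equiv

variable {n : ℕ}

theorem mem_Inv1 {m : Perm (Fin n)} {f : ℕ} : m ∈ Inv n f ↔ m * m = 1 ∧ fixc m = f := by
  unfold Inv
  rw [Finset.mem_filter]
  simp

theorem two_unique {Q : Subgroup (Perm (Fin n))} {m m' : Perm (Fin n)} (h : Two Q m) (h' : Two Q m') : m = m' := by
  refine Equiv.ext fun x => ?_
  by_cases hx : m x = x
  · obtain ⟨q, hq, hq2⟩ := h'.2 x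
    rcases h.1 q hq x with h1 | h1
    · rw [hx, ← hq2, h1]
    · rw [← hq2, h1]
  · obtain ⟨q, hq, hq2⟩ := h.2 x
    rcases h'.1 q hq x with h1 | h1
    · rw [hq2] at h1; exact absurd h1 hx
    · rw [← hq2, h1]

/-- the cycle `(p, m y, y)` -/
def cy (m : Perm (Fin n)) (p y : Fin n) : Perm (Fin n) := swap p y * swap p (m y)

section

variable {m : Perm (Fin n)} {p y : Fin n}

theorem cy_p (_ : p ≠ y) (hy : m y ≠ y) (hp : p ≠ m y) : cy m p y p = m y := by
  unfold cy
  rw [Perm.mul_apply, swap_apply_left, swap_apply_of_ne_of_ne hp.symm hy]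

theorem cy_my : cy m p y (m y) = y := by
  unfold cy
  rw [Perm.mul_apply, swap_apply_right, swap_apply_left]

theorem cy_y (hpy : p ≠ y) (hy : m y ≠ y) : cy m p y y = p := by
  unfold cy
  rw [Perm.mul_apply, swap_apply_of_ne_of_ne hpy.symm hy.symm, swap_apply_right]

theorem cy_out {x : Fin n} (h1 : x ≠ p) (h2 : x ≠ y) (h3 : x ≠ m y) : cy m p y x = x := by
  unfold cy
  rw [Perm.mul_apply, swap_apply_of_ne_of_ne h1 h3, swap_apply_of_ne_of_ne h1 h2]

/-- the group -/
def HH (Q : Subgroup (Perm (Fin n))) (m : Perm (Fin n)) (p y : Fin n) : Subgroup (Perm (Fin n)) :=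
  Q ⊔ Subgroup.zpowers (cy m p y)

/-- the data -/
structure Dat (Q : Subgroup (Perm (Fin n))) (m : Perm (Fin n)) (p y : Fin n) : Prop where
  two : Two Q m
  mm : m * m = 1
  mp : m p = p
  lt : y < m y

variable {Q : Subgroup (Perm (Fin n))}

theorem Dat.py (h : Dat Q m p y) : p ≠ y := by
  rintro rfl
  have := h.lt
  rw [h.mp] at this
  exact lt_irrefl _ this

theorem Dat.my (h : Dat Q m p y) : m y ≠ y := h.lt.ne'

theorem Dat.pm (h : Dat Q m p y) : p ≠ m y := by
  intro e
  have h1 := invol h.mm y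
  rw [← e, h.mp] at h1
  exact h.py h1

theorem Dat.qp (h : Dat Q m p y) {q : Perm (Fin n)} (hq : q ∈ Q) : q p = p := by
  rcases h.two.1 q hq p with h1 | h1
  · exact h1
  · rw [h1, h.mp]

theorem Dat.conj (h : Dat Q m p y) {q : Perm (Fin n)} (hq : q ∈ Q) :
    q * cy m p y * q⁻¹ ∈ Subgroup.zpowers (cy m p y) := by
  have e1 : q * cy m p y * q⁻¹ = swap (q p) (q y) * swap (q p) (q (m y)) := by
    rw [swap_apply_apply, swap_apply_apply]
    unfold cy
    group
  rw [e1, h.qp hq]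
  rcases h.two.1 q hq y with h1 | h1
  · have h2 := (flip_iff h.mm (h.two.1 q hq) y).2 h1
    rw [h1, h2]
    exact Subgroup.mem_zpowers _
  · have h2 : q (m y) = y := by
      rcases h.two.1 q hq (m y) with h3 | h3
      · have := (flip_iff h.mm (h.two.1 q hq) y).1 h3
        rw [this] at h1
        exact absurd h1.symm h.my
      · rw [h3, invol h.mm]
    rw [h1, h2]
    have e2 : swap p (m y) * swap p y = (cy m p y)⁻¹ := by
      unfold cy
      rw [mul_inv_rev, swap_inv, swap_inv]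
    rw [e2]
    exact Subgroup.inv_mem _ (Subgroup.mem_zpowers _)

theorem Dat.norm (h : Dat Q m p y) : Q ≤ Subgroup.normalizer (Subgroup.zpowers (cy m p y)) := by
  have key : ∀ q ∈ Q, ∀ w ∈ Subgroup.zpowers (cy m p y), q * w * q⁻¹ ∈ Subgroup.zpowers (cy m p y) := by
    rintro q hq w ⟨i, rfl⟩
    have e1 : q * cy m p y ^ i * q⁻¹ = (q * cy m p y * q⁻¹) ^ i := by rw [conj_zpow]
    show q * cy m p y ^ i * q⁻¹ ∈ _
    rw [e1]
    exact Subgroup.zpow_mem _ (h.conj hq) i
  intro q hq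
  rw [Subgroup.mem_normalizer_iff]
  intro w
  constructor
  · exact fun hw => key q hq w hw
  · intro hw
    have := key q⁻¹ (Q.inv_mem hq) _ hw
    have e : q⁻¹ * (q * w * q⁻¹) * q⁻¹⁻¹ = w := by group
    rwa [e] at this

theorem Dat.mem (h : Dat Q m p y) {g : Perm (Fin n)} (hg : g ∈ HH Q m p y) :
    ∃ q ∈ Q, ∃ w ∈ Subgroup.zpowers (cy m p y), g = q * w := by
  have h1 := Subgroup.coe_mul_of_left_le_normalizer_right Q (Subgroup.zpowers (cy m p y)) h.norm
  have h2 : g ∈ ((Q ⊔ Subgroup.zpowers (cy m p y) : Subgroup (Perm (Fin n))) : Set (Perm (Fin n))) := hg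
  rw [h1] at h2
  obtain ⟨q, hq, w, hw, rfl⟩ := Set.mem_mul.1 h2
  exact ⟨q, hq, w, hw, rfl⟩

theorem Dat.zp_out (_ : Dat Q m p y) {w : Perm (Fin n)} (hw : w ∈ Subgroup.zpowers (cy m p y)) {x : Fin n}
    (h1 : x ≠ p) (h2 : x ≠ y) (h3 : x ≠ m y) : w x = x := by
  obtain ⟨i, rfl⟩ := hw
  have hfix : Function.IsFixedPt (cy m p y) x := cy_out h1 h2 h3
  exact (hfix.perm_zpow i)

theorem Dat.zp_in (h : Dat Q m p y) {w : Perm (Fin n)} (hw : w ∈ Subgroup.zpowers (cy m p y)) {x : Fin n}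
    (hx : x = p ∨ x = y ∨ x = m y) : w x = p ∨ w x = y ∨ w x = m y := by
  by_contra hc
  push Not at hc
  have h1 := h.zp_out (Subgroup.inv_mem _ hw) hc.1 hc.2.1 hc.2.2
  have h2 : w⁻¹ (w x) = x := w.symm_apply_apply x
  rw [h2] at h1
  rw [← h1] at hc
  tauto

theorem Dat.h_in (h : Dat Q m p y) {g : Perm (Fin n)} (hg : g ∈ HH Q m p y) {x : Fin n}
    (hx : x = p ∨ x = y ∨ x = m y) : g x = p ∨ g x = y ∨ g x = m y := by
  obtain ⟨q, hq, w, hw, rfl⟩ := h.mem hg
  rw [Perm.mul_apply]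
  rcases h.zp_in hw hx with h1 | h1 | h1 <;> rw [h1]
  · left; exact h.qp hq
  · right; exact h.two.1 q hq y
  · right
    rcases h.two.1 q hq (m y) with h2 | h2
    · exact Or.inr h2
    · rw [invol h.mm] at h2; exact Or.inl h2

theorem Dat.h_out (h : Dat Q m p y) {g : Perm (Fin n)} (hg : g ∈ HH Q m p y) {x : Fin n}
    (h1 : x ≠ p) (h2 : x ≠ y) (h3 : x ≠ m y) : g x = x ∨ g x = m x := by
  obtain ⟨q, hq, w, hw, rfl⟩ := h.mem hg
  rw [Perm.mul_apply, h.zp_out hw h1 h2 h3]
  exact h.two.1 q hq x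

theorem Dat.stab (h : Dat Q m p y) {g : Perm (Fin n)} (hg : g ∈ HH Q m p y) (hgp : g p = p) : g ∈ Q := by
  obtain ⟨q, hq, w, hw, rfl⟩ := h.mem hg
  rw [Perm.mul_apply] at hgp
  have h1 : w p = p := by
    have : q (w p) = q p := by rw [hgp, h.qp hq]
    exact q.injective this
  have h2 : w = 1 := by
    have hcomm : ∀ x, w (cy m p y x) = cy m p y (w x) := by
      intro x
      obtain ⟨i, hi⟩ := hw
      have : w * cy m p y = cy m p y * w := by
        rw [← hi]
        exact (Commute.zpow_self (cy m p y) i).eq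
      exact congrArg (fun g : Perm (Fin n) => g x) this
    have e1 : w (m y) = m y := by
      have := hcomm p
      rwa [h1, cy_p h.py h.my h.pm] at this
    have e2 : w y = y := by
      have := hcomm (m y)
      rwa [e1, cy_my] at this
    refine Equiv.ext fun x => ?_
    rw [Perm.one_apply]
    by_cases x1 : x = p
    · rw [x1, h1]
    · by_cases x2 : x = y
      · rw [x2, e2]
      · by_cases x3 : x = m y
        · rw [x3, e1]
        · exact h.zp_out hw x1 x2 x3
  rw [h2, mul_one]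
  exact hq

theorem Dat.cyH (Q : Subgroup (Perm (Fin n))) (m : Perm (Fin n)) (p y : Fin n) : cy m p y ∈ HH Q m p y :=
  (le_sup_right : Subgroup.zpowers (cy m p y) ≤ Q ⊔ Subgroup.zpowers (cy m p y)) (Subgroup.mem_zpowers _)

theorem Dat.short (h : Dat Q m p y) : Short (HH Q m p y) := by
  classical
  intro x
  by_cases hx : x = p ∨ x = y ∨ x = m y
  · have h1 : MulAction.orbit (HH Q m p y) x ⊆ (({p, y, m y} : Finset (Fin n)) : Set (Fin n)) := by
      rintro _ ⟨g, rfl⟩
      have := h.h_in g.2 hx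
      simp only [Finset.coe_insert, Finset.coe_singleton, Set.mem_insert_iff, Set.mem_singleton_iff]
      exact this
    refine (Set.ncard_le_ncard h1 (Finset.finite_toSet _)).trans ?_
    rw [Set.ncard_coe_finset]
    exact Finset.card_le_three
  · push Not at hx
    have h1 : MulAction.orbit (HH Q m p y) x ⊆ (({x, m x} : Finset (Fin n)) : Set (Fin n)) := by
      rintro _ ⟨g, rfl⟩
      have := h.h_out g.2 hx.1 hx.2.1 hx.2.2
      simp only [Finset.coe_insert, Finset.coe_singleton, Set.mem_insert_iff, Set.mem_singleton_iff]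
      exact this
    refine (Set.ncard_le_ncard h1 (Finset.finite_toSet _)).trans ?_
    rw [Set.ncard_coe_finset]
    exact Finset.card_le_two.trans (by norm_num)

theorem Dat.card3 (h : Dat Q m p y) : 3 ∣ Nat.card (HH Q m p y) := by
  have h1 : orderOf (cy m p y) = 3 := by
    have : Fact (Nat.Prime 3) := ⟨Nat.prime_three⟩
    refine orderOf_eq_prime ?_ ?_
    · refine Equiv.ext fun x => ?_
      rw [pow_succ, pow_two, Perm.mul_apply, Perm.mul_apply, Perm.one_apply]
      by_cases x1 : x = p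
      · rw [x1, cy_p h.py h.my h.pm, cy_my, cy_y h.py h.my]
      · by_cases x2 : x = y
        · rw [x2, cy_y h.py h.my, cy_p h.py h.my h.pm, cy_my]
        · by_cases x3 : x = m y
          · rw [x3, cy_my, cy_y h.py h.my, cy_p h.py h.my h.pm]
          · rw [cy_out x1 x2 x3, cy_out x1 x2 x3, cy_out x1 x2 x3]
    · intro e
      have := congrArg (fun g : Perm (Fin n) => g y) e
      simp only [Perm.one_apply] at this
      rw [cy_y h.py h.my] at this
      exact h.py this
  have h2 : Nat.card (Subgroup.zpowers (cy m p y)) = 3 := by rw [Nat.card_zpowers, h1]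
  rw [← h2]
  exact Subgroup.card_dvd_of_le le_sup_right

end

theorem cyc (a : ℕ) : (n / 2) * {Q : Subgroup (Perm (Fin n)) | (∃ m ∈ Inv n 1, Two Q m) ∧ 2 ^ a ∣ Nat.card Q}.ncard ≤
    3 * {H : Subgroup (Perm (Fin n)) | Short H ∧ 3 * 2 ^ a ∣ Nat.card H}.ncard := by
  classical
  set G : Finset (Subgroup (Perm (Fin n))) := (Set.toFinite {Q : Subgroup (Perm (Fin n)) |
    (∃ m ∈ Inv n 1, Two Q m) ∧ 2 ^ a ∣ Nat.card Q}).toFinset with hG
  have hm0 : ∀ Q : Subgroup (Perm (Fin n)), ∃ m, Q ∈ G → m ∈ Inv n 1 ∧ Two Q m := by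
    intro Q
    by_cases hQ : Q ∈ G
    · rw [hG, Set.Finite.mem_toFinset] at hQ
      obtain ⟨⟨m, hm, h⟩, -⟩ := hQ
      exact ⟨m, fun _ => ⟨hm, h⟩⟩
    · exact ⟨1, fun h => absurd h hQ⟩
  choose mf hmf using hm0
  rcases Nat.eq_zero_or_pos n with h0 | hn
  · subst h0
    simp
  have hp0 : ∀ Q : Subgroup (Perm (Fin n)), ∃ p, Q ∈ G → mf Q p = p := by
    intro Q
    by_cases hQ : Q ∈ G
    · have h1 := (mem_Inv1.1 (hmf Q hQ).1).2
      unfold fixc at h1
      obtain ⟨p, hp⟩ := Finset.card_eq_one.1 h1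
      have : p ∈ Finset.univ.filter (fun x => mf Q x = x) := by rw [hp]; simp
      exact ⟨p, fun _ => (Finset.mem_filter.1 this).2⟩
    · exact ⟨⟨0, hn⟩, fun h => absurd h hQ⟩
  choose pf hpf using hp0
  set P : Finset (Σ _ : Subgroup (Perm (Fin n)), Fin n) := G.sigma (fun Q => WW (mf Q)) with hP
  have hD : ∀ t ∈ P, Dat t.1 (mf t.1) (pf t.1) t.2 := by
    intro t ht
    rw [hP, Finset.mem_sigma] at ht
    obtain ⟨h1, h2⟩ := ht
    exact ⟨(hmf _ h1).2, (mem_Inv1.1 (hmf _ h1).1).1, hpf _ h1, mem_WW.1 h2⟩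
  have hPcard : P.card = (n / 2) * G.card := by
    rw [hP, Finset.card_sigma, Finset.sum_congr rfl (g := fun _ => n / 2), Finset.sum_const, smul_eq_mul, mul_comm]
    intro Q hQ
    have h1 := mem_Inv1.1 (hmf Q hQ).1
    have h2 := card_WW h1.1
    omega
  have hS : ({H : Subgroup (Perm (Fin n)) | Short H ∧ 3 * 2 ^ a ∣ Nat.card H}).ncard =
      (Set.toFinite {H : Subgroup (Perm (Fin n)) | Short H ∧ 3 * 2 ^ a ∣ Nat.card H}).toFinset.card := by
    rw [Set.ncard_eq_toFinset_card _ (Set.toFinite _)]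
  rw [Set.ncard_eq_toFinset_card _ (Set.toFinite _), ← hPcard, hS]
  refine Finset.card_le_mul_card_image_of_maps_to (f := fun t => HH t.1 (mf t.1) (pf t.1) t.2) (fun t ht => ?_) 3 ?_
  · rw [Set.Finite.mem_toFinset]
    refine ⟨(hD t ht).short, ?_⟩
    refine Nat.Coprime.mul_dvd_of_dvd_of_dvd ?_ (hD t ht).card3 ?_
    · exact Nat.Coprime.pow_right a (by norm_num)
    · rw [hP, Finset.mem_sigma] at ht
      have h1 := ht.1
      rw [hG, Set.Finite.mem_toFinset] at h1
      exact h1.2.trans (Subgroup.card_dvd_of_le le_sup_left)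
  · intro H hH
    rcases Finset.eq_empty_or_nonempty (P.filter (fun t => HH t.1 (mf t.1) (pf t.1) t.2 = H)) with he | ⟨t1, ht1⟩
    · rw [he]; simp
    obtain ⟨ht1P, ht1H⟩ := Finset.mem_filter.1 ht1
    have hD1 := hD t1 ht1P
    refine le_trans (Finset.card_le_card_of_injOn (t := {pf t1.1, t1.2, mf t1.1 t1.2}) (fun t => pf t.1) ?_ ?_)
      Finset.card_le_three
    · intro t ht
      obtain ⟨htP, htH⟩ := Finset.mem_filter.1 (Finset.mem_coe.1 ht)
      have hDt := hD t htP
      show pf t.1 ∈ (({pf t1.1, t1.2, mf t1.1 t1.2} : Finset (Fin n)) : Set (Fin n))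
      by_contra hc
      simp only [Finset.coe_insert, Finset.coe_singleton, Set.mem_insert_iff, Set.mem_singleton_iff, not_or] at hc
      have hc1 : cy (mf t.1) (pf t.1) t.2 ∈ HH t1.1 (mf t1.1) (pf t1.1) t1.2 := by
        rw [ht1H, ← htH]
        exact Dat.cyH _ _ _ _
      have h1 := hD1.h_out hc1 hc.1 hc.2.1 hc.2.2
      have h2 := hD1.h_out (Subgroup.mul_mem _ hc1 hc1) hc.1 hc.2.1 hc.2.2
      rw [Perm.mul_apply, cy_p hDt.py hDt.my hDt.pm, cy_my] at h2
      rw [cy_p hDt.py hDt.my hDt.pm] at h1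
      rcases h1 with h1 | h1
      · exact hDt.pm h1.symm
      · rcases h2 with h2 | h2
        · exact hDt.py h2.symm
        · rw [← h2] at h1
          exact hDt.my h1
    · intro t ht t' ht' hpp
      obtain ⟨htP, htH⟩ := Finset.mem_filter.1 (Finset.mem_coe.1 ht)
      obtain ⟨htP', htH'⟩ := Finset.mem_filter.1 (Finset.mem_coe.1 ht')
      have hDt := hD t htP
      have hDt' := hD t' htP'
      have hpp' : pf t.1 = pf t'.1 := hpp
      have hQ : t.1 = t'.1 := by
        apply le_antisymm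
        · intro q hq
          have h1 : q ∈ HH t'.1 (mf t'.1) (pf t'.1) t'.2 := by
            rw [htH', ← htH]
            exact (le_sup_left : t.1 ≤ _) hq
          exact hDt'.stab h1 (by rw [← hpp']; exact hDt.qp hq)
        · intro q hq
          have h1 : q ∈ HH t.1 (mf t.1) (pf t.1) t.2 := by
            rw [htH, ← htH']
            exact (le_sup_left : t'.1 ≤ _) hq
          exact hDt.stab h1 (by rw [hpp']; exact hDt'.qp hq)
      obtain ⟨Q, y⟩ := t
      obtain ⟨Q', y'⟩ := t'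
      simp only at hQ
      subst hQ
      congr 1
      have hc1 : cy (mf Q) (pf Q) y' ∈ HH Q (mf Q) (pf Q) y := by
        have h3 : HH Q (mf Q) (pf Q) y = HH Q (mf Q) (pf Q) y' := by
          have := htH.trans htH'.symm
          exact this
        rw [h3]
        exact Dat.cyH _ _ _ _
      have h2 := hDt.h_in (Subgroup.mul_mem _ hc1 hc1) (Or.inl rfl)
      have h3 : (cy (mf Q) (pf Q) y' * cy (mf Q) (pf Q) y') (pf Q) = y' := by
        rw [Perm.mul_apply, cy_p hDt'.py hDt'.my hDt'.pm, cy_my]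
      rw [h3] at h2
      rcases h2 with h2 | h2 | h2
      · exact absurd h2.symm hDt'.py
      · exact h2.symm
      · exfalso
        have h4 := hDt'.lt
        have h5 := hDt.lt
        simp only at h4 h5 h2
        rw [h2, invol hDt.mm] at h4
        exact lt_asymm h4 h5

end Pool.Agent.OSG
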