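import Mathlib

/-!
# OSG: subgroups of `S_n` with all orbits of length at most three. Definitions.
-/

namespace Pool.Agent.OSG

open Equiv

/-- all orbits have at most three points -/
def Short {n : ℕ} (H : Subgroup (Perm (Fin n))) : Prop :=
  ∀ x : Fin n, (MulAction.orbit H x).ncard ≤ 3

/-- the proportion of the subgroups of `S_n` with all orbits of length at most three whose order is a
multiple of `m` -/
noncomputable def dens (n m : ℕ) : ℝ :=
  ({H : Subgroup (Perm (Fin n)) | Short H ∧ m ∣ Nat.card H}.ncard : ℝ) /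
    ({H : Subgroup (Perm (Fin n)) | Short H}.ncard : ℝ)

/-- the orbits of `Q` are the sets `{x, m x}` -/
def Two {n : ℕ} (Q : Subgroup (Perm (Fin n))) (m : Perm (Fin n)) : Prop :=
  (∀ q ∈ Q, ∀ x, q x = x ∨ q x = m x) ∧ ∀ x, ∃ q ∈ Q, q x = m x

/-- number of fixed points -/
def fixc {n : ℕ} (m : Perm (Fin n)) : ℕ := (Finset.univ.filter (fun x => m x = x)).card

/-- involutions with `f` fixed points -/
def Inv (n f : ℕ) : Finset (Perm (Fin n)) := Finset.univ.filter (fun m => m * m = 1 ∧ fixc m = f)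

/-- the structure of a group with short orbits: `H = Q N`, `N` is a normal elementary abelian `3`-group, `Q` is a Sylow
`2`-subgroup, `m` is the matching of `Q`, `ζ` is a product of `3`-cycles, one on each orbit of length three -/
structure Enc {n : ℕ} (H Q N : Subgroup (Perm (Fin n))) (m ζ : Perm (Fin n)) : Prop where
  sup : H = Q ⊔ N
  mm : m * m = 1
  two : Two Q m
  zzz : ∀ x, ζ (ζ (ζ x)) = x
  comm : ∀ w ∈ N, ∀ x, w (ζ x) = ζ (w x)
  val : ∀ w ∈ N, ∀ x, w x = x ∨ w x = ζ x ∨ w x = ζ (ζ x)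
  conj : ∀ q ∈ Q, ∀ w ∈ N, q * w * q⁻¹ ∈ N
  fix : ∀ x, ζ x ≠ x → m x = x ∨ m (ζ x) = ζ x ∨ m (ζ (ζ x)) = ζ (ζ x)
  act : ∀ p, m p = p → ∀ q ∈ Q, (q (ζ p) = ζ p ∧ q (ζ (ζ p)) = ζ (ζ p)) ∨
    (q (ζ p) = ζ (ζ p) ∧ q (ζ (ζ p)) = ζ p)
  card : Nat.card H = Nat.card Q * Nat.card N

/-- representatives of the `3`-cycles of `ζ` -/
def II {n : ℕ} (m ζ : Perm (Fin n)) : Finset (Fin n) :=
  Finset.univ.filter (fun p => m p = p ∧ ζ p ≠ p ∧ (m (ζ p) = ζ p → p < ζ p ∧ p < ζ (ζ p)))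

/-- the cycles on which `Q` acts trivially -/
def IA {n : ℕ} (m ζ : Perm (Fin n)) : Finset (Fin n) := (II m ζ).filter (fun p => m (ζ p) = ζ p)

/-- the cycles on which `Q` acts by transpositions -/
def IS {n : ℕ} (m ζ : Perm (Fin n)) : Finset (Fin n) := (II m ζ).filter (fun p => m (ζ p) ≠ ζ p)

/-- the same character of `Q` -/
def Same {n : ℕ} (Q : Subgroup (Perm (Fin n))) (ζ : Perm (Fin n)) (p p' : Fin n) : Prop :=
  ∀ q ∈ Q, (q (ζ p) = ζ p ↔ q (ζ p') = ζ p')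

/-- `ρ` chooses a representative for every character of `Q` on the cycles of `IS` -/
structure RhoOk {n : ℕ} (Q : Subgroup (Perm (Fin n))) (m ζ : Perm (Fin n)) (ρ : Fin n → Fin n) : Prop where
  out : ∀ p, p ∉ IS m ζ → ρ p = p
  mem : ∀ p ∈ IS m ζ, ρ p ∈ IS m ζ
  idem : ∀ p, ρ (ρ p) = ρ p
  same : ∀ p ∈ IS m ζ, Same Q ζ p (ρ p)
  inj : ∀ p ∈ IS m ζ, ∀ p' ∈ IS m ζ, ρ p = p → ρ p' = p' → Same Q ζ p p' → p = p'

/-- number of redundant cycles -/
def uu {n : ℕ} (m ζ : Perm (Fin n)) (ρ : Fin n → Fin n) : ℕ := ((IS m ζ).filter (fun p => ρ p ≠ p)).card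

/-- number of representatives -/
def rr {n : ℕ} (m ζ : Perm (Fin n)) (ρ : Fin n → Fin n) : ℕ := ((IS m ζ).filter (fun p => ρ p = p)).card

end Pool.Agent.OSG
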