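import Pool.Agent.OSG.Fib

/-!
# OSG/Ebd: the number of the possible Sylow `2`-subgroups
-/

namespace Pool.Agent.OSG

open Equiv

variable {n : ℕ}

/-- representatives of the pairs `{x, m x}` -/
def WW (m : Perm (Fin n)) : Finset (Fin n) := Finset.univ.filter (fun x => x < m x)

theorem mem_WW {m : Perm (Fin n)} {x : Fin n} : x ∈ WW m ↔ x < m x := by simp [WW]

theorem invol {m : Perm (Fin n)} (hm : m * m = 1) (x : Fin n) : m (m x) = x := by
  have := congrArg (fun g : Perm (Fin n) => g x) hm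
  simpa using this

theorem card_WW {m : Perm (Fin n)} (hm : m * m = 1) : 2 * (WW m).card + fixc m = n := by
  classical
  have h1 : (Finset.univ.filter (fun x => m x < x)).card = (WW m).card := by
    rw [← Finset.card_map m.toEmbedding (s := WW m)]
    congr 1
    ext x
    simp only [Finset.mem_filter, Finset.mem_univ, true_and, Finset.mem_map, WW, Equiv.coe_toEmbedding]
    constructor
    · intro h
      exact ⟨m x, by rw [invol hm]; exact h, invol hm x⟩
    · rintro ⟨y, hy, rfl⟩
      rw [invol hm]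
      exact hy
  have h2 : (Finset.univ : Finset (Fin n)) = WW m ∪ (Finset.univ.filter (fun x => m x < x) ∪
      Finset.univ.filter (fun x => m x = x)) := by
    ext x
    simp only [WW, Finset.mem_univ, Finset.mem_union, Finset.mem_filter, true_and, true_iff]
    rcases lt_trichotomy x (m x) with h | h | h
    · exact Or.inl h
    · exact Or.inr (Or.inr h.symm)
    · exact Or.inr (Or.inl h)
  have h3 : Disjoint (WW m) (Finset.univ.filter (fun x => m x < x) ∪ Finset.univ.filter (fun x => m x = x)) := by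
    rw [Finset.disjoint_left]
    intro x hx hx2
    simp only [WW, Finset.mem_union, Finset.mem_filter, Finset.mem_univ, true_and] at hx hx2
    rcases hx2 with h | h
    · exact lt_asymm hx h
    · rw [h] at hx
      exact lt_irrefl _ hx
  have h4 : Disjoint (Finset.univ.filter (fun x => m x < x)) (Finset.univ.filter (fun x => m x = x)) := by
    rw [Finset.disjoint_left]
    intro x hx hx2
    simp only [Finset.mem_filter, Finset.mem_univ, true_and] at hx hx2
    rw [hx2] at hx
    exact lt_irrefl _ hx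
  have h5 := congrArg Finset.card h2
  rw [Finset.card_union_of_disjoint h3, Finset.card_union_of_disjoint h4, h1, Finset.card_univ, Fintype.card_fin] at h5
  unfold fixc
  omega

/-- `q` moves `z` if and only if it moves `m z` -/
theorem flip_iff {m q : Perm (Fin n)} (hm : m * m = 1) (hq : ∀ x, q x = x ∨ q x = m x) (z : Fin n) :
    q (m z) = m z ↔ q z = z := by
  have hmm := invol hm
  constructor
  · intro h
    rcases hq z with h1 | h1
    · exact h1
    · have h2 : q z = q (m z) := by rw [h1, h]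
      have h3 := q.injective h2
      rw [← h3] at h
      exact h
  · intro h
    rcases hq (m z) with h1 | h1
    · exact h1
    · rw [hmm] at h1
      have h2 : q (m z) = q z := by rw [h1, h]
      have h3 := q.injective h2
      rw [h3]
      exact h

theorem flip_mul {m q q' : Perm (Fin n)} (hm : m * m = 1) (hq : ∀ x, q x = x ∨ q x = m x)
    (hq' : ∀ x, q' x = x ∨ q' x = m x) {z : Fin n} (hz : m z ≠ z) :
    q (q' z) = z ↔ (q z = z ↔ q' z = z) := by
  have hmm := invol hm
  have hf := flip_iff hm hq z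
  rcases hq' z with h1 | h1
  · rw [h1]
    tauto
  · rw [h1]
    rcases hq (m z) with h2 | h2
    · have h3 := hf.1 h2
      rw [h2]
      constructor
      · intro h; exact absurd h hz
      · intro h; exact h.1 h3
    · rw [hmm] at h2
      have h4 : q z ≠ z := by
        intro h
        have := hf.2 h
        rw [h2] at this
        exact hz this.symm
      rw [h2]
      simp only [true_iff]
      constructor
      · intro h; exact absurd h h4
      · intro h; exact absurd h hz

/-- the group of all flips with the character condition -/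
def EE (m ζ : Perm (Fin n)) (ρ : Fin n → Fin n) (hm : m * m = 1) (hρ : ∀ p ∈ IS m ζ, ρ p ∈ IS m ζ) :
    Subgroup (Perm (Fin n)) where
  carrier := {q | (∀ x, q x = x ∨ q x = m x) ∧ ∀ p ∈ IS m ζ, (q (ζ p) = ζ p ↔ q (ζ (ρ p)) = ζ (ρ p))}
  one_mem' := ⟨fun x => Or.inl rfl, fun p _ => by simp⟩
  mul_mem' := by
    rintro q q' ⟨h1, h2⟩ ⟨h1', h2'⟩
    have hmm := invol hm
    refine ⟨fun x => ?_, fun p hp => ?_⟩
    · rw [Perm.mul_apply]
      rcases h1' x with h | h
      · rw [h]; exact h1 x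
      · rw [h]
        rcases h1 (m x) with h3 | h3
        · exact Or.inr h3
        · rw [hmm] at h3; exact Or.inl h3
    · rw [Perm.mul_apply, Perm.mul_apply]
      rw [flip_mul hm h1 h1' (Finset.mem_filter.1 hp).2, flip_mul hm h1 h1' (Finset.mem_filter.1 (hρ p hp)).2,
        h2 p hp, h2' p hp]
  inv_mem' := by
    rintro q ⟨h1, h2⟩
    have hmm := invol hm
    have key : ∀ x, q⁻¹ x = q x := by
      intro x
      rw [Perm.inv_eq_iff_eq]
      rcases h1 x with h | h
      · rw [h, h]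
      · rw [h]
        rcases h1 (m x) with h3 | h3
        · have := (flip_iff hm h1 x).1 h3
          rw [h] at this
          rw [h3, this]
        · rw [h3, hmm]
    refine ⟨fun x => ?_, fun p hp => ?_⟩
    · rw [key]; exact h1 x
    · rw [key, key]; exact h2 p hp

theorem EE_card {m ζ : Perm (Fin n)} {ρ : Fin n → Fin n} (hm : m * m = 1) (hρ : ∀ p ∈ IS m ζ, ρ p ∈ IS m ζ)
    (hid : ∀ p, ρ (ρ p) = ρ p) (hI : ∀ p ∈ IS m ζ, m (ζ p) = ζ (ζ p)) :
    Nat.card (EE m ζ ρ hm hρ) ≤ 2 ^ ((WW m).card - uu m ζ ρ) := by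
  classical
  have hmm := invol hm
  set φ : Fin n → Fin n := fun p => if ζ p < ζ (ζ p) then ζ p else ζ (ζ p) with hφ
  have hφ1 : ∀ p, φ p = ζ p ∨ φ p = ζ (ζ p) := by
    intro p
    simp only [hφ]
    split_ifs <;> simp
  have hISp : ∀ p ∈ IS m ζ, m p = p ∧ ζ p ≠ p ∧ m (ζ p) ≠ ζ p := by
    intro p hp
    have h1 := Finset.mem_filter.1 hp
    exact ⟨(II_spec h1.1).1, (II_spec h1.1).2, h1.2⟩
  have hφinj : ∀ p ∈ IS m ζ, ∀ p' ∈ IS m ζ, φ p = φ p' → p = p' := by
    intro p hp p' hp' he
    obtain ⟨a1, a2, a3⟩ := hISp p hp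
    obtain ⟨b1, b2, b3⟩ := hISp p' hp'
    rcases hφ1 p with h1 | h1 <;> rcases hφ1 p' with h2 | h2 <;> rw [h1, h2] at he
    · exact ζ.injective he
    · have h3 := ζ.injective he
      rw [h3] at a1
      exact absurd a1 b3
    · have h3 := ζ.injective he
      rw [← h3] at b1
      exact absurd b1 a3
    · exact ζ.injective (ζ.injective he)
  have hφW : ∀ p ∈ IS m ζ, φ p ∈ WW m := by
    intro p hp
    rw [mem_WW]
    simp only [hφ]
    split_ifs with h
    · rw [hI p hp]; exact h
    · have h1 : m (ζ (ζ p)) = ζ p := by rw [← hI p hp, hmm]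
      rw [h1]
      rcases lt_trichotomy (ζ p) (ζ (ζ p)) with h2 | h2 | h2
      · exact absurd h2 h
      · exact absurd (ζ.injective h2).symm (hISp p hp).2.1
      · exact h2
  set RR := (IS m ζ).filter (fun p => ρ p ≠ p) with hRR
  set UU := RR.image φ with hUU
  have hUUc : UU.card = uu m ζ ρ := by
    rw [hUU, Finset.card_image_of_injOn]
    · rfl
    · intro p hp p' hp' he
      exact hφinj p (Finset.mem_filter.1 hp).1 p' (Finset.mem_filter.1 hp').1 he
  have hUUW : UU ⊆ WW m := by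
    intro x hx
    obtain ⟨p, hp, rfl⟩ := Finset.mem_image.1 hx
    exact hφW p (Finset.mem_filter.1 hp).1
  have hcard : (WW m \ UU).card = (WW m).card - uu m ζ ρ := by
    rw [Finset.card_sdiff_of_subset hUUW, hUUc]
  rw [← hcard]
  have h2 : 2 ^ (WW m \ UU).card = Nat.card (↥(WW m \ UU) → Bool) := by
    rw [Nat.card_eq_fintype_card, Fintype.card_fun, Fintype.card_bool, Fintype.card_coe]
  rw [h2]
  refine Nat.card_le_card_of_injective (fun q => fun x => decide (q.1 x = (x : Fin n))) ?_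
  rintro ⟨q, hq1, hq2⟩ ⟨q', hq1', hq2'⟩ he
  have he' : ∀ x ∈ WW m \ UU, (q x = x ↔ q' x = x) := by
    intro x hx
    have := congrFun he ⟨x, hx⟩
    simpa using this
  have hfφ : ∀ g : Perm (Fin n), (∀ x, g x = x ∨ g x = m x) → ∀ p ∈ IS m ζ, (g (φ p) = φ p ↔ g (ζ p) = ζ p) := by
    intro g hg p hp
    rcases hφ1 p with h1 | h1
    · rw [h1]
    · rw [h1, ← hI p hp]
      exact flip_iff hm hg _
  have hW : ∀ x ∈ WW m, (q x = x ↔ q' x = x) := by
    intro x hx
    by_cases hxU : x ∈ UU
    · obtain ⟨p, hp, rfl⟩ := Finset.mem_image.1 hxU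
      obtain ⟨hpS, hpr⟩ := Finset.mem_filter.1 hp
      rw [hfφ q hq1 p hpS, hfφ q' hq1' p hpS, hq2 p hpS, hq2' p hpS]
      rw [← hfφ q hq1 (ρ p) (hρ p hpS), ← hfφ q' hq1' (ρ p) (hρ p hpS)]
      apply he'
      rw [Finset.mem_sdiff]
      refine ⟨hφW _ (hρ p hpS), fun h => ?_⟩
      obtain ⟨p', hp', h3⟩ := Finset.mem_image.1 h
      obtain ⟨hpS', hpr'⟩ := Finset.mem_filter.1 hp'
      have h4 := hφinj p' hpS' (ρ p) (hρ p hpS) h3
      rw [h4, hid] at hpr'
      exact hpr' rfl
    · exact he' x (Finset.mem_sdiff.2 ⟨hx, hxU⟩)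
  have hall : ∀ x, (q x = x ↔ q' x = x) := by
    intro x
    rcases lt_trichotomy x (m x) with h | h | h
    · exact hW x (mem_WW.2 h)
    · constructor
      · intro _
        rcases hq1' x with h1 | h1
        · exact h1
        · rw [h1, ← h]
      · intro _
        rcases hq1 x with h1 | h1
        · exact h1
        · rw [h1, ← h]
    · have h1 := hW (m x) (mem_WW.2 (by rw [hmm]; exact h))
      rwa [flip_iff hm hq1, flip_iff hm hq1'] at h1
  refine Subtype.ext (Equiv.ext fun x => ?_)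
  by_cases h : q x = x
  · show q x = q' x
    rw [h, (hall x).1 h]
  · have h' : q' x ≠ x := fun h' => h ((hall x).2 h')
    show q x = q' x
    rw [(hq1 x).resolve_left h, (hq1' x).resolve_left h']

theorem enc_IS {H Q N : Subgroup (Perm (Fin n))} {m ζ : Perm (Fin n)} (h : Enc H Q N m ζ) :
    ∀ p ∈ IS m ζ, m (ζ p) = ζ (ζ p) := by
  intro p hp
  have h1 := Finset.mem_filter.1 hp
  have h2 := II_spec h1.1
  obtain ⟨q, hq, hq2⟩ := h.two.2 (ζ p)
  rcases h.act p h2.1 q hq with ⟨h3, -⟩ | ⟨h3, -⟩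
  · rw [hq2] at h3
    exact absurd h3 h1.2
  · rw [hq2] at h3
    exact h3

theorem enc_IA {H Q N : Subgroup (Perm (Fin n))} {m ζ : Perm (Fin n)} (h : Enc H Q N m ζ) :
    ∀ p ∈ IA m ζ, m p = p ∧ m (ζ p) = ζ p ∧ m (ζ (ζ p)) = ζ (ζ p) := by
  intro p hp
  have h1 := Finset.mem_filter.1 hp
  have h2 := II_spec h1.1
  refine ⟨h2.1, h1.2, ?_⟩
  obtain ⟨q, hq, hq2⟩ := h.two.2 (ζ (ζ p))
  rcases h.act p h2.1 q hq with ⟨h3, h4⟩ | ⟨h3, h4⟩
  · rw [← hq2, h4]
  · exfalso
    rcases h.two.1 q hq (ζ p) with h5 | h5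
    · rw [h3] at h5
      exact h2.2 (ζ.injective h5)
    · rw [h3, h1.2] at h5
      exact h2.2 (ζ.injective h5)

theorem IS_le {H Q N : Subgroup (Perm (Fin n))} {m ζ : Perm (Fin n)} (h : Enc H Q N m ζ) :
    (IS m ζ).card ≤ (WW m).card := by
  classical
  have hmm := invol h.mm
  refine Finset.card_le_card_of_injOn (fun p => if ζ p < ζ (ζ p) then ζ p else ζ (ζ p)) ?_ ?_
  · intro p hp
    have hp' : p ∈ IS m ζ := hp
    show (if ζ p < ζ (ζ p) then ζ p else ζ (ζ p)) ∈ WW m
    rw [mem_WW]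
    split_ifs with h0
    · rw [enc_IS h p hp']; exact h0
    · have h1 : m (ζ (ζ p)) = ζ p := by rw [← enc_IS h p hp', hmm]
      rw [h1]
      rcases lt_trichotomy (ζ p) (ζ (ζ p)) with h2 | h2 | h2
      · exact absurd h2 h0
      · exact absurd (ζ.injective h2).symm (II_spec (Finset.mem_filter.1 hp').1).2
      · exact h2
  · intro p hp p' hp' he
    have hq : p ∈ IS m ζ := hp
    have hq' : p' ∈ IS m ζ := hp'
    have a3 := (Finset.mem_filter.1 hq).2
    have b3 := (Finset.mem_filter.1 hq').2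
    have a1 := (II_spec (Finset.mem_filter.1 hq).1).1
    have b1 := (II_spec (Finset.mem_filter.1 hq').1).1
    have he' : (if ζ p < ζ (ζ p) then ζ p else ζ (ζ p)) = (if ζ p' < ζ (ζ p') then ζ p' else ζ (ζ p')) := he
    split_ifs at he'
    · exact ζ.injective he'
    · have h3 := ζ.injective he'
      rw [h3] at a1
      exact absurd a1 b3
    · have h3 := ζ.injective he'
      rw [← h3] at b1
      exact absurd b1 a3
    · exact ζ.injective (ζ.injective he')

theorem fix_ge {H Q N : Subgroup (Perm (Fin n))} {m ζ : Perm (Fin n)} (h : Enc H Q N m ζ) :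
    (IS m ζ).card + 3 * (IA m ζ).card ≤ fixc m := by
  classical
  have hz := h.zzz
  have hIAc := enc_IA h
  have hmin : ∀ p ∈ IA m ζ, p < ζ p ∧ p < ζ (ζ p) := by
    intro p hp
    have h1 := Finset.mem_filter.1 hp
    have h2 := (Finset.mem_filter.1 h1.1).2
    exact h2.2.2 h1.2
  have c1 : ((IA m ζ).image ζ).card = (IA m ζ).card := Finset.card_image_of_injective _ ζ.injective
  have c2 : ((IA m ζ).image (fun p => ζ (ζ p))).card = (IA m ζ).card :=
    Finset.card_image_of_injective _ (ζ.injective.comp ζ.injective)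
  have d1 : Disjoint ((IA m ζ).image ζ) ((IA m ζ).image (fun p => ζ (ζ p))) := by
    rw [Finset.disjoint_left]
    intro x hx hx2
    obtain ⟨p, hp, rfl⟩ := Finset.mem_image.1 hx
    obtain ⟨p', hp', he⟩ := Finset.mem_image.1 hx2
    have h3 : ζ p' = p := ζ.injective he
    have h4 := (hmin p hp).2
    rw [← h3, hz] at h4
    exact lt_asymm h4 (hmin p' hp').1
  have d2 : Disjoint (IA m ζ) ((IA m ζ).image ζ ∪ (IA m ζ).image (fun p => ζ (ζ p))) := by
    rw [Finset.disjoint_left]
    intro x hx hx2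
    rcases Finset.mem_union.1 hx2 with h1 | h1
    · obtain ⟨p', hp', he⟩ := Finset.mem_image.1 h1
      have h4 := (hmin x hx).2
      rw [← he, hz] at h4
      exact lt_asymm h4 (hmin p' hp').1
    · obtain ⟨p', hp', he⟩ := Finset.mem_image.1 h1
      have h4 := (hmin x hx).1
      rw [← he, hz] at h4
      exact lt_asymm h4 (hmin p' hp').2
  have d3 : Disjoint (IS m ζ) (IA m ζ ∪ ((IA m ζ).image ζ ∪ (IA m ζ).image (fun p => ζ (ζ p)))) := by
    rw [Finset.disjoint_left]
    intro x hx hx2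
    have a3 := (Finset.mem_filter.1 hx).2
    rcases Finset.mem_union.1 hx2 with h1 | h1
    · exact a3 (hIAc x h1).2.1
    · rcases Finset.mem_union.1 h1 with h1 | h1
      · obtain ⟨p', hp', he⟩ := Finset.mem_image.1 h1
        rw [← he] at a3
        exact a3 (hIAc p' hp').2.2
      · obtain ⟨p', hp', he⟩ := Finset.mem_image.1 h1
        rw [← he, hz] at a3
        exact a3 (hIAc p' hp').1
  have hsub : IS m ζ ∪ (IA m ζ ∪ ((IA m ζ).image ζ ∪ (IA m ζ).image (fun p => ζ (ζ p)))) ⊆
      Finset.univ.filter (fun x => m x = x) := by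
    intro x hx
    simp only [Finset.mem_union, Finset.mem_image, Finset.mem_filter, Finset.mem_univ, true_and] at hx ⊢
    rcases hx with hx | hx | ⟨p, hp, rfl⟩ | ⟨p, hp, rfl⟩
    · exact (II_spec (Finset.mem_filter.1 hx).1).1
    · exact (hIAc x hx).1
    · exact (hIAc p hp).2.1
    · exact (hIAc p hp).2.2
  have := Finset.card_le_card hsub
  rw [Finset.card_union_of_disjoint d3, Finset.card_union_of_disjoint d2, Finset.card_union_of_disjoint d1, c1, c2] at this
  unfold fixc
  omega

theorem ebd (m ζ : Perm (Fin n)) (ρ : Fin n → Fin n) :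
    {Q : Subgroup (Perm (Fin n)) | (∃ H N, Enc H Q N m ζ) ∧ RhoOk Q m ζ ρ}.ncard ≤
      4 * ((WW m).card - uu m ζ ρ + 1) * 2 ^ (((WW m).card - uu m ζ ρ) ^ 2 / 4) := by
  classical
  rcases Set.eq_empty_or_nonempty {Q : Subgroup (Perm (Fin n)) | (∃ H N, Enc H Q N m ζ) ∧ RhoOk Q m ζ ρ} with
    hemp | ⟨Q0, ⟨H0, N0, h0⟩, hr0⟩
  · rw [hemp, Set.ncard_empty]
    exact Nat.zero_le _
  have hm := h0.mm
  have hmm := invol hm
  have hE := EE_card hm hr0.mem hr0.idem (enc_IS h0)
  have hsq : ∀ q ∈ EE m ζ ρ hm hr0.mem, ∀ x, q (q x) = x := by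
    rintro q ⟨h1, -⟩ x
    rcases h1 x with h | h
    · rw [h, h]
    · rw [h]
      rcases h1 (m x) with h3 | h3
      · have := (flip_iff hm h1 x).1 h3
        rw [h] at this
        rw [h3, this]
      · rw [h3, hmm]
  have hb := card_subgroup_le 2 (EE m ζ ρ hm hr0.mem) (fun q hq => by
      ext x
      congr 1
      rw [pow_two, Perm.mul_apply, Perm.one_apply, hsq q hq])
    (fun q hq q' hq' => by
      ext x
      congr 1
      rw [Perm.mul_apply, Perm.mul_apply]
      have h12 := hsq _ ((EE m ζ ρ hm hr0.mem).mul_mem hq hq') x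
      rw [Perm.mul_apply, Perm.mul_apply] at h12
      have h3 := congrArg q h12
      rw [hsq q hq] at h3
      have h4 := congrArg q' h3
      rw [hsq q' hq'] at h4
      rw [← h4])
    ((WW m).card - uu m ζ ρ) hE
  refine le_trans (Set.ncard_le_ncard ?_ (Set.toFinite _)) hb
  rintro Q ⟨⟨H, N, h⟩, hr⟩ q hq
  exact ⟨h.two.1 q hq, fun p hp => hr.same p hp q hq⟩

theorem exists_rho (Q : Subgroup (Perm (Fin n))) (m ζ : Perm (Fin n)) : ∃ ρ, RhoOk Q m ζ ρ := by
  classical
  set S : Fin n → Finset (Fin n) := fun p => (IS m ζ).filter (fun p' => Same Q ζ p p') with hS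
  have hne : ∀ p ∈ IS m ζ, (S p).Nonempty := by
    intro p hp
    exact ⟨p, Finset.mem_filter.2 ⟨hp, fun q _ => Iff.rfl⟩⟩
  set ρ : Fin n → Fin n := fun p => if h : p ∈ IS m ζ then (S p).min' (hne p h) else p with hρ
  have hin : ∀ p (h : p ∈ IS m ζ), ρ p = (S p).min' (hne p h) := by
    intro p h
    simp only [hρ]
    rw [dif_pos h]
  have hout : ∀ p, p ∉ IS m ζ → ρ p = p := by
    intro p h
    simp only [hρ]
    rw [dif_neg h]
  have hmem : ∀ p ∈ IS m ζ, ρ p ∈ S p := by
    intro p h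
    rw [hin p h]
    exact Finset.min'_mem _ _
  have hSeq : ∀ p p', Same Q ζ p p' → S p = S p' := by
    intro p p' hs
    simp only [hS]
    ext z
    simp only [Finset.mem_filter]
    constructor
    · rintro ⟨h1, h2⟩
      exact ⟨h1, fun q hq => (hs q hq).symm.trans (h2 q hq)⟩
    · rintro ⟨h1, h2⟩
      exact ⟨h1, fun q hq => (hs q hq).trans (h2 q hq)⟩
  have heq : ∀ p ∈ IS m ζ, ∀ p' ∈ IS m ζ, Same Q ζ p p' → ρ p = ρ p' := by
    intro p hp p' hp' hs
    rw [hin p hp, hin p' hp']
    congr 1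
    exact hSeq p p' hs
  refine ⟨ρ, hout, fun p hp => (Finset.mem_filter.1 (hmem p hp)).1, fun p => ?_,
    fun p hp => (Finset.mem_filter.1 (hmem p hp)).2, fun p hp p' hp' h1 h2 hs => ?_⟩
  · by_cases hp : p ∈ IS m ζ
    · exact (heq p hp _ (Finset.mem_filter.1 (hmem p hp)).1 (Finset.mem_filter.1 (hmem p hp)).2).symm
    · rw [hout p hp, hout p hp]
  · rw [← h1, ← h2]
    exact heq p hp p' hp' hs

end Pool.Agent.OSG
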