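import Pool.Agent.OSG.InvSub

/-!
# OSG/Fib: the number of the possible normal `3`-subgroups
-/

namespace Pool.Agent.OSG

open Equiv

variable {n : ℕ}

/-- powers of `ζ` -/
def pw (ζ : Perm (Fin n)) (a : ZMod 3) (x : Fin n) : Fin n :=
  if a = 0 then x else if a = 1 then ζ x else ζ (ζ x)

theorem pw_zero (ζ : Perm (Fin n)) (x : Fin n) : pw ζ 0 x = x := by simp [pw]

theorem pw_one (ζ : Perm (Fin n)) (x : Fin n) : pw ζ 1 x = ζ x := by simp [pw]

theorem pw_two (ζ : Perm (Fin n)) (x : Fin n) : pw ζ 2 x = ζ (ζ x) := by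
  have h1 : (2 : ZMod 3) ≠ 0 := by decide
  have h2 : (2 : ZMod 3) ≠ 1 := by decide
  simp [pw, h1, h2]

theorem zmod3 (a : ZMod 3) : a = 0 ∨ a = 1 ∨ a = 2 := by
  revert a
  decide

theorem pw_add {ζ : Perm (Fin n)} (hz : ∀ x, ζ (ζ (ζ x)) = x) (a b : ZMod 3) (x : Fin n) :
    pw ζ (a + b) x = pw ζ a (pw ζ b x) := by
  have e1 : (1 + 1 : ZMod 3) = 2 := by decide
  have e2 : (1 + 2 : ZMod 3) = 0 := by decide
  have e3 : (2 + 1 : ZMod 3) = 0 := by decide
  have e4 : (2 + 2 : ZMod 3) = 1 := by decide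
  rcases zmod3 a with rfl | rfl | rfl <;> rcases zmod3 b with rfl | rfl | rfl <;>
    simp only [zero_add, add_zero, e1, e2, e3, e4, pw_zero, pw_one, pw_two, hz]

theorem pw_comm {ζ g : Perm (Fin n)} (hg : ∀ x, g (ζ x) = ζ (g x)) (a : ZMod 3) (x : Fin n) :
    g (pw ζ a x) = pw ζ a (g x) := by
  rcases zmod3 a with rfl | rfl | rfl <;> simp only [pw_zero, pw_one, pw_two, hg]

theorem pw_inj {ζ : Perm (Fin n)} (hz : ∀ x, ζ (ζ (ζ x)) = x) {p : Fin n} (hp : ζ p ≠ p) {a b : ZMod 3}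
    (h : pw ζ a p = pw ζ b p) : a = b := by
  have d1 : ζ (ζ p) ≠ ζ p := fun e => hp (ζ.injective e)
  have d2 : ζ (ζ p) ≠ p := by
    intro e
    have := hz p
    rw [e] at this
    exact hp this
  rcases zmod3 a with rfl | rfl | rfl <;> rcases zmod3 b with rfl | rfl | rfl <;>
    simp only [pw_zero, pw_one, pw_two] at h ⊢
  · exact absurd h.symm hp
  · exact absurd h.symm d2
  · exact absurd h hp
  · exact absurd h.symm d1
  · exact absurd h d2
  · exact absurd h d1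

/-- the coordinate of `g` at `p` -/
def cv (ζ g : Perm (Fin n)) (p : Fin n) : ZMod 3 := if g p = p then 0 else if g p = ζ p then 1 else 2

theorem cv_spec {ζ g : Perm (Fin n)} {p : Fin n} (h : g p = p ∨ g p = ζ p ∨ g p = ζ (ζ p)) :
    g p = pw ζ (cv ζ g p) p := by
  unfold cv
  by_cases h1 : g p = p
  · rw [if_pos h1, pw_zero, h1]
  · rw [if_neg h1]
    by_cases h2 : g p = ζ p
    · rw [if_pos h2, pw_one, h2]
    · rw [if_neg h2, pw_two]
      tauto

theorem cv_eq {ζ g : Perm (Fin n)} (hz : ∀ x, ζ (ζ (ζ x)) = x) {p : Fin n} (hp : ζ p ≠ p)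
    (h : g p = p ∨ g p = ζ p ∨ g p = ζ (ζ p)) {a : ZMod 3} (ha : g p = pw ζ a p) : cv ζ g p = a :=
  pw_inj hz hp ((cv_spec h).symm.trans ha)

/-- every `3`-cycle has a representative -/
theorem cover {H Q N : Subgroup (Perm (Fin n))} {m ζ : Perm (Fin n)} (h : Enc H Q N m ζ) (x : Fin n)
    (hx : ζ x ≠ x) : ∃ p ∈ II m ζ, ∃ b, x = pw ζ b p := by
  have hz := h.zzz
  have key : ∀ y, ζ y ≠ y → m y = y → ∃ p ∈ II m ζ, ∃ b, y = pw ζ b p := by
    intro y hy hmy
    by_cases h1 : m (ζ y) = ζ y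
    · have h2 : m (ζ (ζ y)) = ζ (ζ y) := by
        obtain ⟨q, hq, hq2⟩ := h.two.2 (ζ (ζ y))
        rcases h.act y hmy q hq with ⟨_, h4⟩ | ⟨h3, h4⟩
        · rw [← hq2, h4]
        · exfalso
          rcases h.two.1 q hq (ζ y) with h5 | h5
          · rw [h3] at h5
            exact hy (ζ.injective h5)
          · rw [h3, h1] at h5
            exact hy (ζ.injective h5)
      have d1 : ζ (ζ y) ≠ ζ y := fun e => hy (ζ.injective e)
      have d2 : ζ (ζ y) ≠ y := by
        intro e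
        have := hz y
        rw [e] at this
        exact hy this
      rcases lt_trichotomy y (ζ y) with c1 | c1 | c1
      · rcases lt_trichotomy y (ζ (ζ y)) with c2 | c2 | c2
        · exact ⟨y, by simp only [II, Finset.mem_filter, Finset.mem_univ, true_and]; exact ⟨hmy, hy, fun _ => ⟨c1, c2⟩⟩,
            0, by rw [pw_zero]⟩
        · exact absurd c2.symm d2
        · refine ⟨ζ (ζ y), ?_, 1, by rw [pw_one, hz]⟩
          simp only [II, Finset.mem_filter, Finset.mem_univ, true_and]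
          refine ⟨h2, by rw [hz]; exact Ne.symm d2, fun _ => ?_⟩
          rw [hz]
          exact ⟨c2, c2.trans c1⟩
      · exact absurd c1.symm hy
      · rcases lt_trichotomy (ζ y) (ζ (ζ y)) with c2 | c2 | c2
        · refine ⟨ζ y, ?_, 2, by rw [pw_two, hz]⟩
          simp only [II, Finset.mem_filter, Finset.mem_univ, true_and]
          refine ⟨h1, d1, fun _ => ?_⟩
          rw [hz]
          exact ⟨c2, c1⟩
        · exact absurd c2.symm d1
        · refine ⟨ζ (ζ y), ?_, 1, by rw [pw_one, hz]⟩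
          simp only [II, Finset.mem_filter, Finset.mem_univ, true_and]
          refine ⟨h2, by rw [hz]; exact Ne.symm d2, fun _ => ?_⟩
          rw [hz]
          exact ⟨c2.trans c1, c2⟩
    · exact ⟨y, by simp only [II, Finset.mem_filter, Finset.mem_univ, true_and]; exact ⟨hmy, hy, fun e => absurd e h1⟩,
        0, by rw [pw_zero]⟩
  have hx1 : ζ (ζ x) ≠ ζ x := fun e => hx (ζ.injective e)
  have hx2 : ζ (ζ (ζ x)) ≠ ζ (ζ x) := fun e => hx1 (ζ.injective e)
  rcases h.fix x hx with h1 | h1 | h1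
  · exact key x hx h1
  · obtain ⟨p, hp, b, hb⟩ := key (ζ x) hx1 h1
    refine ⟨p, hp, 2 + b, ?_⟩
    rw [pw_add hz, ← hb, pw_two, hz]
  · obtain ⟨p, hp, b, hb⟩ := key (ζ (ζ x)) hx2 h1
    refine ⟨p, hp, 1 + b, ?_⟩
    rw [pw_add hz, ← hb, pw_one, hz]

theorem II_spec {m ζ : Perm (Fin n)} {p : Fin n} (hp : p ∈ II m ζ) : m p = p ∧ ζ p ≠ p := by
  simp only [II, Finset.mem_filter, Finset.mem_univ, true_and] at hp
  exact ⟨hp.1, hp.2.1⟩

/-- the coordinate group of `N` -/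
private def Fib_A {m ζ : Perm (Fin n)} (hz : ∀ x, ζ (ζ (ζ x)) = x) (N : Subgroup (Perm (Fin n)))
    (hc : ∀ w ∈ N, ∀ x, w (ζ x) = ζ (w x)) (hv : ∀ w ∈ N, ∀ x, w x = x ∨ w x = ζ x ∨ w x = ζ (ζ x)) :
    AddSubgroup (↥(II m ζ) → ZMod 3) where
  carrier := {w | ∃ g ∈ N, ∀ p : (II m ζ : Finset (Fin n)), w p = cv ζ g p}
  zero_mem' := ⟨1, N.one_mem, fun p => by simp [cv]⟩
  add_mem' := by
    rintro w w' ⟨g, hg, h1⟩ ⟨g', hg', h1'⟩
    refine ⟨g * g', N.mul_mem hg hg', fun p => ?_⟩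
    rw [Pi.add_apply, h1, h1']
    refine (cv_eq hz (II_spec p.2).2 (hv _ (N.mul_mem hg hg') p) ?_).symm
    rw [add_comm, pw_add hz, ← cv_spec (hv g hg p), ← pw_comm (hc g hg), ← cv_spec (hv g' hg' p)]
    rfl
  neg_mem' := by
    rintro w ⟨g, hg, h1⟩
    refine ⟨g⁻¹, N.inv_mem hg, fun p => ?_⟩
    rw [Pi.neg_apply, h1]
    refine (cv_eq hz (II_spec p.2).2 (hv _ (N.inv_mem hg) p) ?_).symm
    apply g.injective
    rw [show g (g⁻¹ (p : Fin n)) = p from g.apply_symm_apply _, pw_comm (hc g hg)]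
    conv_rhs => rw [cv_spec (hv g hg p)]
    rw [← pw_add hz, neg_add_cancel, pw_zero]

theorem fib (Q : Subgroup (Perm (Fin n))) (m ζ : Perm (Fin n)) (ρ : Fin n → Fin n) (hρ : RhoOk Q m ζ ρ) :
    {N : Subgroup (Perm (Fin n)) | ∃ H, Enc H Q N m ζ}.ncard ≤
      4 * (uu m ζ ρ + (IA m ζ).card + 1) * 3 ^ ((uu m ζ ρ + (IA m ζ).card) ^ 2 / 4) * 2 ^ rr m ζ ρ *
        3 ^ (uu m ζ ρ + (IA m ζ).card) := by
  classical
  rcases Set.eq_empty_or_nonempty {N : Subgroup (Perm (Fin n)) | ∃ H, Enc H Q N m ζ} with hemp | ⟨N0, H0, h0⟩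
  · rw [hemp, Set.ncard_empty]
    exact Nat.zero_le _
  have hz := h0.zzz
  set R : Finset (II m ζ : Finset (Fin n)) :=
    Finset.univ.filter (fun p => (p : Fin n) ∈ IS m ζ ∧ ρ p = p) with hR
  have hRc : R.card = rr m ζ ρ := by
    rw [rr, ← Finset.card_map (Function.Embedding.subtype _) (s := R)]
    congr 1
    ext p
    simp only [Finset.mem_map, hR, Finset.mem_filter, Finset.mem_univ, true_and, Function.Embedding.subtype_apply]
    constructor
    · rintro ⟨a, ha, rfl⟩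
      exact ha
    · rintro ⟨h1, h2⟩
      exact ⟨⟨p, (Finset.mem_filter.1 h1).1⟩, ⟨h1, h2⟩, rfl⟩
  have hRcc : Rᶜ.card = uu m ζ ρ + (IA m ζ).card := by
    rw [uu, ← Finset.card_map (Function.Embedding.subtype _) (s := Rᶜ), ← Finset.card_union_of_disjoint]
    · congr 1
      ext p
      simp only [Finset.mem_map, hR, Finset.mem_compl, Finset.mem_filter, Finset.mem_univ, true_and,
        Function.Embedding.subtype_apply, Finset.mem_union]
      constructor
      · rintro ⟨⟨a, ha⟩, ha2, rfl⟩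
        by_cases hS : a ∈ IS m ζ
        · left
          exact ⟨hS, fun h => ha2 ⟨hS, h⟩⟩
        · right
          refine Finset.mem_filter.2 ⟨ha, ?_⟩
          by_contra hc
          exact hS (Finset.mem_filter.2 ⟨ha, hc⟩)
      · rintro (⟨h1, h2⟩ | h1)
        · exact ⟨⟨p, (Finset.mem_filter.1 h1).1⟩, fun h => h2 h.2, rfl⟩
        · have h2 := Finset.mem_filter.1 h1
          exact ⟨⟨p, h2.1⟩, fun h => (Finset.mem_filter.1 h.1).2 h2.2, rfl⟩
    · rw [Finset.disjoint_left]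
      intro p hp hp2
      exact (Finset.mem_filter.1 (Finset.mem_filter.1 hp).1).2 (Finset.mem_filter.1 hp2).2
  -- the signs
  set ε : Perm (Fin n) → ↥(II m ζ) → ZMod 3 := fun q p => if q (ζ p) = ζ p then 1 else -1 with hε
  set 𝓔 : Set (↥(II m ζ) → ZMod 3) := {e | ∃ q ∈ Q, e = ε q} with h𝓔
  have hsign : ∀ e ∈ 𝓔, ∀ i, e i = 1 ∨ e i = -1 := by
    rintro e ⟨q, hq, rfl⟩ i
    simp only [hε]
    split_ifs
    · exact Or.inl rfl
    · exact Or.inr rfl
  have hsep : ∀ i ∈ R, ∀ j ∈ R, i ≠ j → ∃ e ∈ 𝓔, e i ≠ e j := by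
    intro i hi j hj hij
    obtain ⟨-, hi1, hi2⟩ := Finset.mem_filter.1 hi
    obtain ⟨-, hj1, hj2⟩ := Finset.mem_filter.1 hj
    have h1 : ¬ Same Q ζ (i : Fin n) j := fun hs => hij (Subtype.ext (hρ.inj i hi1 j hj1 hi2 hj2 hs))
    unfold Same at h1
    push Not at h1
    obtain ⟨q, hq, h2⟩ := h1
    refine ⟨ε q, ⟨q, hq, rfl⟩, ?_⟩
    have h3 : (1 : ZMod 3) ≠ -1 := by decide
    simp only [hε]
    rcases h2 with ⟨h4, h5⟩ | ⟨h4, h5⟩
    · rw [if_pos h4, if_neg h5]
      exact h3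
    · rw [if_neg h4, if_pos h5]
      exact h3.symm
  have hbound := card_inv_le R 𝓔 hsign hsep
  rw [hRc, hRcc] at hbound
  refine le_trans ?_ hbound
  rw [← Nat.card_coe_set_eq, ← Nat.card_coe_set_eq]
  have hE : ∀ N : {N : Subgroup (Perm (Fin n)) | ∃ H, Enc H Q N m ζ}, ∃ H, Enc H Q N m ζ := fun N => N.2
  choose HH hHH using hE
  refine Nat.card_le_card_of_injective (fun N => ⟨AddSubgroup.toZModSubmodule 3
    (Fib_A (m := m) hz N.1 (hHH N).comm (hHH N).val), ?_⟩) ?_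
  · rintro e ⟨q, hq, rfl⟩ w hw
    obtain ⟨g, hg, hgw⟩ := hw
    refine ⟨q * g * q⁻¹, (hHH N).conj q hq g hg, fun p => ?_⟩
    have hp := II_spec p.2
    have hqp : q p = p := by
      rcases (hHH N).two.1 q hq p with h1 | h1
      · exact h1
      · rw [h1, hp.1]
    have hqp' : q⁻¹ p = p := by rw [Perm.inv_eq_iff_eq, hqp]
    rw [Pi.mul_apply, hgw]
    refine (cv_eq hz hp.2 ((hHH N).val _ ((hHH N).conj q hq g hg) p) ?_).symm
    show q (g (q⁻¹ p)) = _
    rw [hqp', cv_spec ((hHH N).val g hg p)]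
    simp only [hε]
    generalize cv ζ g p = a
    have e1 : (-1 : ZMod 3) * 1 = 2 := by decide
    have e2 : (-1 : ZMod 3) * 2 = 1 := by decide
    have d1 : ζ (ζ (p : Fin n)) ≠ ζ p := fun e => hp.2 (ζ.injective e)
    rcases (hHH N).act p hp.1 q hq with ⟨h1, h2⟩ | ⟨h1, h2⟩
    · rw [if_pos h1, one_mul]
      rcases zmod3 a with rfl | rfl | rfl
      · rw [pw_zero, hqp]
      · rw [pw_one, h1]
      · rw [pw_two, h2]
    · rw [if_neg (by rw [h1]; exact d1)]
      rcases zmod3 a with rfl | rfl | rfl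
      · rw [pw_zero, mul_zero, pw_zero, hqp]
      · rw [pw_one, h1, e1, pw_two]
      · rw [pw_two, h2, e2, pw_one]
  · rintro N N' heq
    have h1 := (AddSubgroup.toZModSubmodule 3).injective (congrArg Subtype.val heq)
    have hsub : ∀ N N' : {N : Subgroup (Perm (Fin n)) | ∃ H, Enc H Q N m ζ},
        Fib_A (m := m) hz N.1 (hHH N).comm (hHH N).val ≤ Fib_A (m := m) hz N'.1 (hHH N').comm (hHH N').val →
        N.1 ≤ N'.1 := by
      intro N N' hle g hg
      obtain ⟨g', hg', h2⟩ := hle (⟨g, hg, fun p => rfl⟩ :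
        (fun p : (II m ζ : Finset (Fin n)) => cv ζ g p) ∈ Fib_A (m := m) hz N.1 (hHH N).comm (hHH N).val)
      have h3 : g = g' := by
        ext x
        congr 1
        by_cases hx : ζ x = x
        · have e1 : g x = x := by
            rcases (hHH N).val g hg x with h | h | h
            · exact h
            · rw [h, hx]
            · rw [h, hx, hx]
          have e2 : g' x = x := by
            rcases (hHH N').val g' hg' x with h | h | h
            · exact h
            · rw [h, hx]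
            · rw [h, hx, hx]
          rw [e1, e2]
        · obtain ⟨p, hp, b, hb⟩ := cover (hHH N) x hx
          rw [hb, pw_comm ((hHH N).comm g hg), pw_comm ((hHH N').comm g' hg'), cv_spec ((hHH N).val g hg p),
            cv_spec ((hHH N').val g' hg' p)]
          congr 2
          exact h2 ⟨p, hp⟩
      rw [h3]
      exact hg'
    exact Subtype.ext (le_antisymm (hsub N N' h1.le) (hsub N' N h1.ge))

end Pool.Agent.OSG
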