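import Pool.Agent.OSG.Ebd

/-!
# OSG/Low: many `2`-groups with a given matching
-/

namespace Pool.Agent.OSG

open Equiv

variable {n : ℕ}

theorem zmod2 (a : ZMod 2) : a = 0 ∨ a = 1 := by
  revert a
  decide

/-- the flip of the pairs with `e = 1` -/
def fl (m : Perm (Fin n)) (e : Fin n → ZMod 2) (x : Fin n) : Fin n := if e (min x (m x)) = 1 then m x else x

theorem fl_add {m : Perm (Fin n)} (hm : ∀ x, m (m x) = x) (e e' : Fin n → ZMod 2) (x : Fin n) :
    fl m (e + e') x = fl m e (fl m e' x) := by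
  have h0 : (0 : ZMod 2) ≠ 1 := by decide
  have h1 : (1 + 1 : ZMod 2) = 0 := by decide
  unfold fl
  rw [Pi.add_apply]
  rcases zmod2 (e (min x (m x))) with h | h <;> rcases zmod2 (e' (min x (m x))) with h' | h' <;>
    simp only [h, h', add_zero, zero_add, h1, if_true, if_false, h0, hm, min_comm (m x) x]

theorem fl_zero (m : Perm (Fin n)) (x : Fin n) : fl m 0 x = x := by
  have h0 : (0 : ZMod 2) ≠ 1 := by decide
  unfold fl
  simp [h0]

/-- the group of flips for the functions `t ↦ c · t` -/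
def flp {m : Perm (Fin n)} (hm : ∀ x, m (m x) = x) (e : Fin n → ZMod 2) : Perm (Fin n) where
  toFun := fl m e
  invFun := fl m e
  left_inv := fun x => by
    rw [← fl_add hm]
    have : e + e = 0 := by
      funext i
      have h1 : ∀ a : ZMod 2, a + a = 0 := by decide
      exact h1 _
    rw [this, fl_zero]
  right_inv := fun x => by
    rw [← fl_add hm]
    have : e + e = 0 := by
      funext i
      have h1 : ∀ a : ZMod 2, a + a = 0 := by decide
      exact h1 _
    rw [this, fl_zero]

theorem flp_apply {m : Perm (Fin n)} (hm : ∀ x, m (m x) = x) (e : Fin n → ZMod 2) (x : Fin n) :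
    flp hm e x = fl m e x := rfl

/-- the hom from vectors to permutations -/
def Low_hom {m : Perm (Fin n)} (hm : ∀ x, m (m x) = x) {k : ℕ} (c : Fin n → Fin k → ZMod 2) :
    Multiplicative (Fin k → ZMod 2) →* Perm (Fin n) where
  toFun t := flp hm (fun x => ∑ i, c x i * (Multiplicative.toAdd t) i)
  map_one' := by
    refine Equiv.ext fun x => ?_
    rw [flp_apply, Perm.one_apply]
    have : (fun x => ∑ i, c x i * (Multiplicative.toAdd (1 : Multiplicative (Fin k → ZMod 2))) i) = 0 := by
      funext x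
      simp
    rw [this, fl_zero]
  map_mul' t t' := by
    refine Equiv.ext fun x => ?_
    rw [Perm.mul_apply, flp_apply, flp_apply, flp_apply, ← fl_add hm]
    congr 1
    funext x
    simp [mul_add, Finset.sum_add_distrib]

theorem Low_hom_single {m : Perm (Fin n)} (hm : ∀ x, m (m x) = x) {k : ℕ} (c : Fin n → Fin k → ZMod 2) (i : Fin k)
    (x : Fin n) : Low_hom hm c (Multiplicative.ofAdd (Pi.single i 1)) x = fl m (fun x => c x i) x := by
  show fl m (fun x => ∑ j, c x j * (Pi.single i (1 : ZMod 2) : Fin k → ZMod 2) j) x = _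
  congr 1
  funext x
  rw [Finset.sum_eq_single i]
  · simp
  · intro j _ hj
    rw [Pi.single_eq_of_ne hj, mul_zero]
  · intro h
    exact absurd (Finset.mem_univ i) h

theorem min_WW {m : Perm (Fin n)} (hm : ∀ x, m (m x) = x) {x : Fin n} (hx : m x ≠ x) : min x (m x) ∈ WW m := by
  rw [mem_WW]
  rcases lt_trichotomy x (m x) with h | h | h
  · rw [min_eq_left h.le]; exact h
  · exact absurd h.symm hx
  · rw [min_eq_right h.le, hm]; exact h

theorem low {m : Perm (Fin n)} (hmm : m * m = 1) (k : ℕ) :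
    (2 ^ k - 1) ^ (WW m).card ≤ 2 ^ (k * k) * {Q : Subgroup (Perm (Fin n)) | Two Q m}.ncard := by
  classical
  have hm := invol hmm
  have hcV : Fintype.card {v : Fin k → ZMod 2 // v ≠ 0} = 2 ^ k - 1 := by
    rw [Fintype.card_subtype_compl, Fintype.card_fun, ZMod.card, Fintype.card_fin]
    simp
  have h1 : (2 ^ k - 1) ^ (WW m).card =
      (Finset.univ : Finset (↥(WW m) → {v : Fin k → ZMod 2 // v ≠ 0})).card := by
    rw [Finset.card_univ, Fintype.card_fun, hcV, Fintype.card_coe]
  set ex : (↥(WW m) → {v : Fin k → ZMod 2 // v ≠ 0}) → Fin n → Fin k → ZMod 2 := fun c x =>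
    if h : x ∈ WW m then (c ⟨x, h⟩).1 else 0 with hex
  set F : (↥(WW m) → {v : Fin k → ZMod 2 // v ≠ 0}) → Subgroup (Perm (Fin n)) := fun c =>
    (Low_hom hm (ex c)).range with hF
  set T : Finset (Subgroup (Perm (Fin n))) :=
    (Set.toFinite {Q : Subgroup (Perm (Fin n)) | Two Q m}).toFinset.filter (fun Q => Nat.card Q ≤ 2 ^ k) with hT
  have h2 : ∀ c, F c ∈ T := by
    intro c
    rw [hT, Finset.mem_filter, Set.Finite.mem_toFinset]
    refine ⟨⟨?_, ?_⟩, ?_⟩
    · rintro q ⟨t, rfl⟩ x
      have hval : Low_hom hm (ex c) t x = fl m (fun x => ∑ i, ex c x i * (Multiplicative.toAdd t) i) x := rfl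
      rw [hval]
      unfold fl
      split_ifs
      · exact Or.inr rfl
      · exact Or.inl rfl
    · intro x
      by_cases hx : m x = x
      · exact ⟨1, Subgroup.one_mem _, by rw [hx]; rfl⟩
      · have h3 := min_WW hm hx
        have h4 : (c ⟨_, h3⟩).1 ≠ 0 := (c ⟨_, h3⟩).2
        obtain ⟨i, hi⟩ := Function.ne_iff.1 h4
        refine ⟨_, ⟨Multiplicative.ofAdd (Pi.single i 1), rfl⟩, ?_⟩
        rw [Low_hom_single]
        unfold fl
        rw [if_pos]
        simp only [hex]
        rw [dif_pos h3]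
        rcases zmod2 ((c ⟨_, h3⟩).1 i) with h5 | h5
        · exact absurd h5 hi
        · exact h5
    · simp only [hF]
      have h5 : Nat.card (Low_hom hm (ex c)).range ≤ Nat.card (Multiplicative (Fin k → ZMod 2)) :=
        Nat.card_le_card_of_surjective _ (Low_hom hm (ex c)).rangeRestrict_surjective
      refine h5.trans (le_of_eq ?_)
      show Nat.card (Fin k → ZMod 2) = 2 ^ k
      rw [Nat.card_eq_fintype_card, Fintype.card_fun, ZMod.card, Fintype.card_fin]
  rw [h1]
  have h3 : T.card ≤ {Q : Subgroup (Perm (Fin n)) | Two Q m}.ncard := by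
    rw [Set.ncard_eq_toFinset_card _ (Set.toFinite _)]
    exact Finset.card_filter_le _ _
  refine le_trans (Finset.card_le_mul_card_image_of_maps_to (f := F) (t := T) (fun c _ => h2 c) (2 ^ (k * k)) ?_)
    (Nat.mul_le_mul_left _ h3)
  intro Q hQ
  rw [hT, Finset.mem_filter] at hQ
  have h4 : 2 ^ (k * k) ≥ Nat.card (Fin k → Q) := by
    rw [Nat.card_fun, Nat.card_eq_fintype_card (α := Fin k), Fintype.card_fin, pow_mul]
    exact Nat.pow_le_pow_left hQ.2 k
  refine le_trans ?_ h4
  rw [← Fintype.card_coe, ← Nat.card_eq_fintype_card]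
  have h5 : ∀ c : ↥(Finset.univ.filter (fun c => F c = Q)), ∀ i,
      Low_hom hm (ex c.1) (Multiplicative.ofAdd (Pi.single i 1)) ∈ Q := by
    intro c i
    have h6 : Low_hom hm (ex c.1) (Multiplicative.ofAdd (Pi.single i 1)) ∈ F c.1 := ⟨_, rfl⟩
    have h7 := (Finset.mem_filter.1 c.2).2
    rw [h7] at h6
    exact h6
  refine Nat.card_le_card_of_injective (fun c i => (⟨_, h5 c i⟩ : Q)) ?_
  rintro c c' he
  refine Subtype.ext (funext fun x => Subtype.ext (funext fun i => ?_))
  have h6 : Low_hom hm (ex c.1) (Multiplicative.ofAdd (Pi.single i 1)) =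
      Low_hom hm (ex c'.1) (Multiplicative.ofAdd (Pi.single i 1)) := congrArg Subtype.val (congrFun he i)
  have h7 : fl m (fun x => ex c.1 x i) x = fl m (fun x => ex c'.1 x i) x := by
    rw [← Low_hom_single hm, ← Low_hom_single hm, h6]
  have hx := mem_WW.1 x.2
  unfold fl at h7
  rw [min_eq_left hx.le] at h7
  simp only [hex] at h7
  rw [dif_pos x.2, dif_pos x.2] at h7
  have hne : m x ≠ (x : Fin n) := hx.ne'
  have h01 : (0 : ZMod 2) ≠ 1 := by decide
  rcases zmod2 ((c.1 x).1 i) with e1 | e1 <;> rcases zmod2 ((c'.1 x).1 i) with e2 | e2 <;> rw [e1, e2]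
  · rw [e1, e2, if_neg h01, if_pos rfl] at h7
    exact absurd h7.symm hne
  · rw [e1, e2, if_pos rfl, if_neg h01] at h7
    exact absurd h7 hne

end Pool.Agent.OSG
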