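import Pool.Agent.OSG.Cyc

/-!
# OSG/Small: few `2`-groups of bounded order
-/

namespace Pool.Agent.OSG

open Equiv

variable {n : ℕ}

theorem IS_one (m : Perm (Fin n)) : IS m 1 = ∅ := by
  unfold IS II
  ext p
  simp

theorem two_sq {Q : Subgroup (Perm (Fin n))} {m : Perm (Fin n)} (hm : m * m = 1) (h : Two Q m)
    {q : Perm (Fin n)} (hq : q ∈ Q) : q * q = 1 := by
  refine Equiv.ext fun x => ?_
  rw [Perm.mul_apply, Perm.one_apply]
  have h1 := h.1 q hq
  rcases h1 x with h2 | h2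
  · rw [h2, h2]
  · rw [h2]
    rcases h1 (m x) with h3 | h3
    · have := (flip_iff hm h1 x).1 h3
      rw [h2] at this
      rw [h3, this]
    · rw [h3, invol hm]

theorem two_card {Q : Subgroup (Perm (Fin n))} {m : Perm (Fin n)} (hm : m * m = 1) (h : Two Q m) :
    ∃ b, Nat.card Q = 2 ^ b := by
  have : Fact (Nat.Prime 2) := ⟨Nat.prime_two⟩
  rw [← IsPGroup.iff_card]
  intro q
  refine ⟨1, ?_⟩
  rw [pow_one, pow_two]
  exact Subtype.ext (two_sq hm h q.2)

theorem small (a f : ℕ) :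
    {Q : Subgroup (Perm (Fin n)) | (∃ m ∈ Inv n f, Two Q m) ∧ ¬ 2 ^ a ∣ Nat.card Q}.ncard ≤
      (Inv n f).card * (2 ^ (n / 2)) ^ (2 ^ a) := by
  classical
  set S : Perm (Fin n) → Finset (Subgroup (Perm (Fin n))) := fun m =>
    (Set.toFinite {Q : Subgroup (Perm (Fin n)) | Two Q m ∧ ¬ 2 ^ a ∣ Nat.card Q}).toFinset with hS
  have h1 : {Q : Subgroup (Perm (Fin n)) | (∃ m ∈ Inv n f, Two Q m) ∧ ¬ 2 ^ a ∣ Nat.card Q} ⊆
      (((Inv n f).biUnion S : Finset (Subgroup (Perm (Fin n)))) : Set (Subgroup (Perm (Fin n)))) := by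
    rintro Q ⟨⟨m, hm, h⟩, h2⟩
    simp only [Finset.mem_coe, Finset.mem_biUnion, hS, Set.Finite.mem_toFinset, Set.mem_ofPred_eq]
    exact ⟨m, hm, h, h2⟩
  refine le_trans (Set.ncard_le_ncard h1 (Finset.finite_toSet _)) ?_
  rw [Set.ncard_coe_finset]
  refine Finset.card_biUnion_le_card_mul _ _ _ fun m hm => ?_
  have hmm := (mem_Inv1.1 hm).1
  have hρ : ∀ p ∈ IS m (1 : Perm (Fin n)), id p ∈ IS m 1 := fun p hp => hp
  set E := EE m 1 id hmm hρ with hE
  have hEc : Nat.card E ≤ 2 ^ (n / 2) := by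
    refine (EE_card hmm hρ (fun _ => rfl) (fun p hp => ?_)).trans (Nat.pow_le_pow_right (by norm_num) ?_)
    · rw [IS_one] at hp
      simp at hp
    · have := card_WW hmm
      omega
  have h2 : (2 ^ (n / 2)) ^ (2 ^ a) ≥ Nat.card (Fin (2 ^ a) → E) := by
    rw [Nat.card_fun, Nat.card_eq_fintype_card (α := Fin (2 ^ a)), Fintype.card_fin]
    exact Nat.pow_le_pow_left hEc _
  refine le_trans ?_ h2
  rw [← Fintype.card_coe, ← Nat.card_eq_fintype_card]
  have h3 : ∀ Q : ↥(S m), ∃ g : Fin (2 ^ a) → E, ∀ x : Perm (Fin n), x ∈ Q.1 ↔ ∃ i, ((g i : E) : Perm (Fin n)) = x := by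
    intro Q
    have hQ := Q.2
    simp only [hS, Set.Finite.mem_toFinset, Set.mem_ofPred_eq] at hQ
    obtain ⟨hT, hd⟩ := hQ
    obtain ⟨b, hb⟩ := two_card hmm hT
    have hba : b < a := by
      by_contra hc
      apply hd
      rw [hb]
      exact pow_dvd_pow 2 (not_lt.1 hc)
    have hle : Nat.card Q.1 ≤ Nat.card (Fin (2 ^ a)) := by
      rw [hb, Nat.card_eq_fintype_card, Fintype.card_fin]
      exact Nat.pow_le_pow_right (by norm_num) hba.le
    have hsub : Q.1 ≤ E := by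
      intro q hq
      refine ⟨hT.1 q hq, fun p hp => ?_⟩
      rw [IS_one] at hp
      simp at hp
    obtain ⟨g, hg⟩ : ∃ g : Fin (2 ^ a) → Q.1, Function.Surjective g := by
      have e1 : Fintype.card Q.1 ≤ Fintype.card (Fin (2 ^ a)) := by
        rw [← Nat.card_eq_fintype_card, ← Nat.card_eq_fintype_card]
        exact hle
      obtain ⟨j⟩ := Function.Embedding.nonempty_of_card_le e1
      exact ⟨Function.invFun j, Function.invFun_surjective j.injective⟩
    refine ⟨fun i => ⟨g i, hsub (g i).2⟩, fun x => ⟨fun hx => ?_, ?_⟩⟩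
    · obtain ⟨i, hi⟩ := hg ⟨x, hx⟩
      exact ⟨i, by show (g i : Perm (Fin n)) = x; rw [hi]⟩
    · rintro ⟨i, rfl⟩
      exact (g i).2
  choose gg hgg using h3
  refine Nat.card_le_card_of_injective gg ?_
  intro Q Q' he
  refine Subtype.ext (Subgroup.ext fun x => ?_)
  rw [hgg Q, hgg Q', he]

end Pool.Agent.OSG
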