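import Pool.Agent.OSG.Defs

/-!
# OSG/Str: the structure of a group with short orbits
-/

namespace Pool.Agent.OSG

open Equiv MulAction

variable {n : ℕ}

private theorem Str_three {H : Subgroup (Perm (Fin n))} (hH : Short H) {x a b c d : Fin n} (ha : a ∈ orbit H x)
    (hb : b ∈ orbit H x) (hc : c ∈ orbit H x) (hd : d ∈ orbit H x) (hab : a ≠ b) (hac : a ≠ c) (hbc : b ≠ c) :
    d = a ∨ d = b ∨ d = c := by
  classical
  by_contra hcon
  push Not at hcon
  obtain ⟨h1, h2, h3⟩ := hcon
  have h4 : (({a, b, c, d} : Finset (Fin n)) : Set (Fin n)) ⊆ orbit H x := by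
    intro y hy
    simp only [Finset.coe_insert, Finset.coe_singleton, Set.mem_insert_iff, Set.mem_singleton_iff] at hy
    rcases hy with rfl | rfl | rfl | rfl <;> assumption
  have h5 := Set.ncard_le_ncard h4 (Set.toFinite _)
  rw [Set.ncard_coe_finset] at h5
  have h6 : ({a, b, c, d} : Finset (Fin n)).card = 4 := by
    rw [Finset.card_insert_of_notMem, Finset.card_insert_of_notMem, Finset.card_insert_of_notMem,
      Finset.card_singleton]
    · simpa using (Ne.symm h3)
    · simp only [Finset.mem_insert, Finset.mem_singleton, not_or]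
      exact ⟨hbc, Ne.symm h2⟩
    · simp only [Finset.mem_insert, Finset.mem_singleton, not_or]
      exact ⟨hab, hac, Ne.symm h1⟩
  have h7 := hH x
  omega

private theorem Str_mem {H : Subgroup (Perm (Fin n))} {h : Perm (Fin n)} (hh : h ∈ H) {x y : Fin n}
    (hy : y ∈ orbit H x) : h y ∈ orbit H x := by
  obtain ⟨g, rfl⟩ := hy
  exact ⟨⟨h, hh⟩ * g, rfl⟩

private theorem Str_self {H : Subgroup (Perm (Fin n))} (x : Fin n) : x ∈ orbit H x := mem_orbit_self x

private theorem Str_orb {H : Subgroup (Perm (Fin n))} {h : Perm (Fin n)} (hh : h ∈ H) (x : Fin n) :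
    orbit H (h x) = orbit H x := by
  have : h x = (⟨h, hh⟩ : H) • x := rfl
  rw [this, orbit_smul]

private theorem Str_pow6 {H : Subgroup (Perm (Fin n))} (hH : Short H) {h : Perm (Fin n)} (hh : h ∈ H) :
    h ^ 6 = 1 := by
  ext x
  rw [Perm.one_apply]
  have e1 : h x ∈ orbit H x := Str_mem hh (Str_self x)
  have e2 : h (h x) ∈ orbit H x := Str_mem hh e1
  have e3 : h (h (h x)) ∈ orbit H x := Str_mem hh e2
  have h6 : (h ^ 6) x = h (h (h (h (h (h x))))) := rfl
  rw [h6]
  congr 1
  by_cases c1 : h x = x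
  · simp only [c1]
  by_cases c2 : h (h x) = x
  · simp only [c2]
  by_cases c3 : h (h (h x)) = x
  · simp only [c3]
  exfalso
  have n1 : h x ≠ h (h x) := fun e => c1 (h.injective e).symm
  rcases Str_three hH (Str_self x) e1 e2 e3 (Ne.symm c1) (Ne.symm c2) n1 with h | h | h
  · exact c3 h
  · exact c2 (Equiv.injective _ h)
  · exact c1 (Equiv.injective _ (Equiv.injective _ h))

/-- an element of order three that fixes a point fixes the orbit -/
private theorem Str_fix {H : Subgroup (Perm (Fin n))} (hH : Short H) {w : Perm (Fin n)} (hw : w ∈ H)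
    (hw3 : ∀ y, w (w (w y)) = y) {x y : Fin n} (hx : w x = x) (hy : y ∈ orbit H x) : w y = y := by
  by_contra hne
  have hyx : y ≠ x := by rintro rfl; exact hne hx
  have h1 : w y ≠ x := fun e => hyx (w.injective (e.trans hx.symm))
  have m1 : w y ∈ orbit H x := Str_mem hw hy
  have m2 : w (w y) ∈ orbit H x := Str_mem hw m1
  have h2 : w (w y) ≠ x := fun e => h1 (w.injective (e.trans hx.symm))
  have h3 : w (w y) ≠ w y := fun e => hne (w.injective e)
  rcases Str_three hH (Str_self x) hy m1 m2 (Ne.symm hyx) (Ne.symm h1) (Ne.symm hne) with h | h | h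
  · exact h2 h
  · have := hw3 y
    rw [h] at this
    exact hne this
  · exact h3 h

private theorem Str_move {H : Subgroup (Perm (Fin n))} (hH : Short H) {w : Perm (Fin n)} (hw : w ∈ H)
    (hw3 : ∀ y, w (w (w y)) = y) {x y z : Fin n} (hx : w x ≠ x) (hz : z ∈ orbit H x) :
    z = x ∨ z = w x ∨ z = w (w x) := by
  have m1 : w x ∈ orbit H x := Str_mem hw (Str_self x)
  have m2 : w (w x) ∈ orbit H x := Str_mem hw m1
  have h2 : w (w x) ≠ w x := fun e => hx (w.injective e)
  have h3 : w (w x) ≠ x := by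
    intro e
    have := hw3 x
    rw [e] at this
    exact hx this
  exact Str_three hH (Str_self x) m1 m2 hz (Ne.symm hx) (Ne.symm h3) (Ne.symm h2)

private theorem Str_comm {H : Subgroup (Perm (Fin n))} (hH : Short H) {g h : Perm (Fin n)} (hg : g ∈ H) (hh : h ∈ H)
    (hg3 : ∀ y, g (g (g y)) = y) (hh3 : ∀ y, h (h (h y)) = y) (x : Fin n) : h (g x) = g (h x) := by
  have m1 : g x ∈ orbit H x := Str_mem hg (Str_self x)
  have m2 : h x ∈ orbit H x := Str_mem hh (Str_self x)
  by_cases hx : h x = x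
  · rw [hx]
    exact Str_fix hH hh hh3 hx m1
  by_cases gx : g x = x
  · rw [gx]
    exact (Str_fix hH hg hg3 gx m2).symm
  have gg : g (g x) ≠ g x := fun e => gx (g.injective e)
  have ggx : g (g x) ≠ x := by
    intro e
    have := hg3 x
    rw [e] at this
    exact gx this
  have hh' : h (h x) ≠ h x := fun e => hx (h.injective e)
  have hhx : h (h x) ≠ x := by
    intro e
    have := hh3 x
    rw [e] at this
    exact hx this
  have m3 : g (g x) ∈ orbit H x := Str_mem hg m1
  rcases Str_move hH hh hh3 (y := x) hx m1 with h1 | h1 | h1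
  · exact absurd h1 gx
  · rw [h1]
    rcases Str_move hH hh hh3 (y := x) hx m3 with h2 | h2 | h2
    · exact absurd h2 ggx
    · exact absurd (h2.trans h1.symm) gg
    · rw [← h2, h1]
  · rw [h1, hh3]
    rcases Str_move hH hh hh3 (y := x) hx m3 with h2 | h2 | h2
    · exact absurd h2 ggx
    · rw [← h2, hg3]
    · exact absurd (h2.trans h1.symm) gg

private theorem Str_cube {w : Perm (Fin n)} : w ^ 3 = 1 ↔ ∀ y, w (w (w y)) = y := by
  constructor
  · intro h y
    have : (w ^ 3) y = y := by rw [h]; rfl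
    exact this
  · intro h
    ext y
    exact congrArg _ (h y)

/-- the normal `3`-subgroup -/
private def Str_N {H : Subgroup (Perm (Fin n))} (hH : Short H) : Subgroup (Perm (Fin n)) where
  carrier := {w | w ∈ H ∧ w ^ 3 = 1}
  one_mem' := ⟨H.one_mem, one_pow 3⟩
  mul_mem' := by
    rintro a b ⟨ha, ha3⟩ ⟨hb, hb3⟩
    refine ⟨H.mul_mem ha hb, ?_⟩
    have hc : a * b = b * a := by
      ext x
      exact congrArg _ (Str_comm hH hb ha (Str_cube.1 hb3) (Str_cube.1 ha3) x)
    have : (a * b) ^ 3 = a ^ 3 * b ^ 3 := (Commute.mul_pow hc 3)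
    rw [this, ha3, hb3, one_mul]
  inv_mem' := by
    rintro a ⟨ha, ha3⟩
    exact ⟨H.inv_mem ha, by rw [inv_pow, ha3, inv_one]⟩

theorem exists_enc (H : Subgroup (Perm (Fin n))) (hH : Short H) :
    ∃ Q N m ζ, Enc H Q N m ζ ∧ (∃ a, Nat.card Q = 2 ^ a) ∧ ∃ b, Nat.card N = 3 ^ b := by
  classical
  set N := Str_N hH with hN
  have hNH : N ≤ H := fun w hw => hw.1
  have hN3 : ∀ w ∈ N, ∀ y, w (w (w y)) = y := fun w hw => Str_cube.1 hw.2
  -- the Sylow subgroup
  obtain ⟨P⟩ : Nonempty (Sylow 2 H) := inferInstance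
  set Q : Subgroup (Perm (Fin n)) := (P : Subgroup H).map H.subtype with hQ
  have hQH : Q ≤ H := by
    rintro _ ⟨q, _, rfl⟩
    exact q.2
  have hQc : Nat.card Q = Nat.card P := Nat.card_congr
    ((P : Subgroup H).equivMapOfInjective H.subtype (Subgroup.subtype_injective H)).symm.toEquiv
  have hPp : IsPGroup 2 P := P.isPGroup'
  have hQ2 : ∀ q ∈ Q, q * q = 1 := by
    rintro _ ⟨q, hq, rfl⟩
    obtain ⟨k, hk⟩ := hPp ⟨q, hq⟩
    have h1 : (q : Perm (Fin n)) ^ (2 ^ k) = 1 := by
      have := congrArg (fun y : P => ((y : H) : Perm (Fin n))) hk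
      simpa using this
    have h2 := Str_pow6 hH q.2
    have h3 : orderOf (q : Perm (Fin n)) ∣ 2 ^ k := orderOf_dvd_of_pow_eq_one h1
    have h4 : orderOf (q : Perm (Fin n)) ∣ 6 := orderOf_dvd_of_pow_eq_one h2
    have h5 : orderOf (q : Perm (Fin n)) ∣ 2 := by
      obtain ⟨j, hj, hj2⟩ := (Nat.dvd_prime_pow Nat.prime_two).1 h3
      rw [hj2] at h4 ⊢
      have hj1 : j ≤ 1 := by
        by_contra hc
        have : 2 ^ 2 ∣ 6 := (Nat.pow_dvd_pow 2 (by omega)).trans h4
        omega
      exact (Nat.pow_dvd_pow 2 hj1).trans (by norm_num)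
    have h6 := orderOf_dvd_iff_pow_eq_one.1 h5
    rw [← sq]
    exact h6
  have hQcomm : ∀ q ∈ Q, ∀ q' ∈ Q, q * q' = q' * q := by
    intro q hq q' hq'
    have h1 := hQ2 _ (Q.mul_mem hq hq')
    have h2 := hQ2 q hq
    have h3 := hQ2 q' hq'
    calc q * q' = q * (q * q' * (q * q')) * q' := by rw [h1, mul_one]
      _ = (q * q) * (q' * q) * (q' * q') := by group
      _ = q' * q := by rw [h2, h3, one_mul, mul_one]
  have hqq : ∀ q ∈ Q, ∀ x, q (q x) = x := by
    intro q hq x
    have : (q * q) x = x := by rw [hQ2 q hq]; rfl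
    exact this
  have hqc : ∀ q ∈ Q, ∀ q' ∈ Q, ∀ x, q (q' x) = q' (q x) := by
    intro q hq q' hq' x
    have : (q * q') x = (q' * q) x := by rw [hQcomm q hq q' hq']
    exact this
  -- the cards
  have hNgrp : IsPGroup 3 N := by
    rintro ⟨w, hw⟩
    exact ⟨1, Subtype.ext (by rw [pow_one]; exact hw.2)⟩
  obtain ⟨b, hb⟩ := IsPGroup.iff_card.1 hNgrp
  have hnorm : (N.subgroupOf H).Normal := by
    constructor
    rintro ⟨w, hw⟩ hwN ⟨g, hg⟩
    rw [Subgroup.mem_subgroupOf] at hwN ⊢
    refine ⟨H.mul_mem (H.mul_mem hg hw) (H.inv_mem hg), ?_⟩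
    show (g * w * g⁻¹) ^ 3 = 1
    rw [conj_pow, hwN.2, mul_one, mul_inv_cancel]
  have hquot : IsPGroup 2 (H ⧸ N.subgroupOf H) := by
    intro y
    induction y using QuotientGroup.induction_on with
    | H h =>
      refine ⟨1, ?_⟩
      rw [← QuotientGroup.mk_pow, QuotientGroup.eq_one_iff, Subgroup.mem_subgroupOf]
      refine ⟨(h ^ 2 ^ 1).2, ?_⟩
      have := Str_pow6 hH h.2
      rw [SubgroupClass.coe_pow, ← pow_mul]
      exact this
  obtain ⟨a, ha⟩ := IsPGroup.iff_card.1 hquot
  have hcH : Nat.card H = 2 ^ a * 3 ^ b := by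
    rw [Subgroup.card_eq_card_quotient_mul_card_subgroup (N.subgroupOf H), ha]
    congr 1
    rw [← hb]
    exact Nat.card_congr (Subgroup.subgroupOfEquivOfLe hNH).toEquiv
  have hQa : Nat.card Q = 2 ^ a := by
    rw [hQc, P.card_eq_multiplicity, hcH]
    congr 1
    rw [Nat.factorization_mul (by positivity) (by positivity), Nat.Prime.factorization_pow Nat.prime_two,
      Nat.Prime.factorization_pow Nat.prime_three]
    simp
  have hcard : Nat.card H = Nat.card Q * Nat.card N := by rw [hcH, hQa, hb]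
  have hsup : H = Q ⊔ N := by
    symm
    refine Subgroup.eq_of_le_of_card_ge (sup_le hQH hNH) ?_
    have h1 : Nat.card Q ∣ Nat.card (Q ⊔ N : Subgroup (Perm (Fin n))) := Subgroup.card_dvd_of_le le_sup_left
    have h2 : Nat.card N ∣ Nat.card (Q ⊔ N : Subgroup (Perm (Fin n))) := Subgroup.card_dvd_of_le le_sup_right
    have h3 : Nat.Coprime (Nat.card Q) (Nat.card N) := by
      rw [hQa, hb]
      exact Nat.Coprime.pow a b (by norm_num)
    rw [hcard]
    exact Nat.le_of_dvd Nat.card_pos (h3.mul_dvd_of_dvd_of_dvd h1 h2)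
  -- the matching
  have huniq : ∀ q ∈ Q, ∀ q' ∈ Q, ∀ x, q x ≠ x → q' x ≠ x → q x = q' x := by
    intro q hq q' hq' x h1 h2
    by_contra hne
    have m1 : q x ∈ orbit H x := Str_mem (hQH hq) (Str_self x)
    have m2 : q' x ∈ orbit H x := Str_mem (hQH hq') (Str_self x)
    have m3 : q (q' x) ∈ orbit H x := Str_mem (hQH hq) m2
    rcases Str_three hH (Str_self x) m1 m2 m3 (Ne.symm h1) (Ne.symm h2) hne with h | h | h
    · apply hne
      have := congrArg q h
      rw [hqq q hq] at this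
      exact this.symm
    · exact h2 (q.injective h)
    · rw [hqc q hq q' hq'] at h
      exact h1 (q'.injective h)
  set mf : Fin n → Fin n := fun x => if h : ∃ q, q ∈ Q ∧ q x ≠ x then h.choose x else x with hmf
  have hmex : ∀ x, ∃ q ∈ Q, q x = mf x := by
    intro x
    by_cases h : ∃ q, q ∈ Q ∧ q x ≠ x
    · refine ⟨h.choose, h.choose_spec.1, ?_⟩
      simp only [hmf, dif_pos h]
    · refine ⟨1, Q.one_mem, ?_⟩
      simp only [hmf, dif_neg h]
      rfl
  have hmval : ∀ q ∈ Q, ∀ x, q x = x ∨ q x = mf x := by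
    intro q hq x
    by_cases hx : q x = x
    · exact Or.inl hx
    · right
      have h : ∃ q, q ∈ Q ∧ q x ≠ x := ⟨q, hq, hx⟩
      simp only [hmf, dif_pos h]
      exact huniq q hq _ h.choose_spec.1 x hx h.choose_spec.2
  have hminv : Function.Involutive mf := by
    intro x
    obtain ⟨q, hq, hqx⟩ := hmex x
    by_cases hx : mf x = x
    · rw [hx, hx]
    · have h1 : q (mf x) = x := by rw [← hqx, hqq q hq]
      rcases hmval q hq (mf x) with h2 | h2
      · rw [h1] at h2
        exact absurd h2.symm hx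
      · rw [← h2, h1]
  set m : Perm (Fin n) := hminv.toPerm mf with hm
  have hmm : ∀ x, m x = mf x := fun x => rfl
  -- the cycles
  set c : Set (Fin n) → Perm (Fin n) := fun O => if h : ∃ w, w ∈ N ∧ ∃ y ∈ O, w y ≠ y then h.choose else 1 with hc
  have hcN : ∀ O, c O ∈ N := by
    intro O
    by_cases h : ∃ w, w ∈ N ∧ ∃ y ∈ O, w y ≠ y
    · simp only [hc, dif_pos h]
      exact h.choose_spec.1
    · simp only [hc, dif_neg h]
      exact N.one_mem
  have hcH' : ∀ O, c O ∈ H := fun O => hNH (hcN O)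
  have hc3 : ∀ O y, c O (c O (c O y)) = y := fun O => hN3 _ (hcN O)
  have hcmove : ∀ w ∈ N, ∀ x, w x ≠ x → c (orbit H x) x ≠ x := by
    intro w hw x hx hcx
    have h : ∃ w, w ∈ N ∧ ∃ y ∈ orbit H x, w y ≠ y := ⟨w, hw, x, Str_self x, hx⟩
    have h2 : c (orbit H x) = h.choose := by simp only [hc, dif_pos h]
    obtain ⟨h3, y, hy, hy2⟩ := h.choose_spec
    rw [h2] at hcx
    exact hy2 (Str_fix hH (hNH h3) (hN3 _ h3) hcx hy)
  set zf : Fin n → Fin n := fun x => c (orbit H x) x with hzf
  have hzo : ∀ x, orbit H (zf x) = orbit H x := fun x => Str_orb (hcH' _) x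
  have hz2 : ∀ x, zf (zf x) = c (orbit H x) (c (orbit H x) x) := by
    intro x
    show c (orbit H (zf x)) (zf x) = _
    rw [hzo]
  have hz3 : ∀ x, zf (zf (zf x)) = x := by
    intro x
    rw [hz2 (zf x), hzo]
    exact hc3 _ x
  set ζ : Perm (Fin n) := ⟨zf, fun x => zf (zf x), hz3, hz3⟩ with hζ
  have hζa : ∀ x, ζ x = zf x := fun x => rfl
  have hζm : ∀ x, ζ x ∈ orbit H x := fun x => Str_mem (hcH' _) (Str_self x)
  have hζm2 : ∀ x, ζ (ζ x) ∈ orbit H x := by
    intro x
    have h1 := hζm (ζ x)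
    rw [show orbit H (ζ x) = orbit H x from hzo x] at h1
    exact h1
  have hζorb : ∀ x, ζ x ≠ x → ∀ z ∈ orbit H x, z = x ∨ z = ζ x ∨ z = ζ (ζ x) := by
    intro x hx z hz
    have h1 := Str_move hH (hcH' (orbit H x)) (hc3 (orbit H x)) (y := x) hx hz
    rw [hζa, hζa, hz2]
    exact h1
  have hζdist : ∀ x, ζ x ≠ x → ζ (ζ x) ≠ x ∧ ζ (ζ x) ≠ ζ x := by
    intro x hx
    refine ⟨fun e => ?_, fun e => hx (ζ.injective e)⟩
    have h3 : ζ (ζ (ζ x)) = x := hz3 x
    rw [e] at h3
    exact hx h3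
  have hmorb : ∀ x y, y ∈ orbit H x → m y ∈ orbit H x := by
    intro x y hy
    obtain ⟨q, hq, hqy⟩ := hmex y
    rw [hmm, ← hqy]
    exact Str_mem (hQH hq) hy
  have hmi : ∀ x, m (m x) = x := hminv
  refine ⟨Q, N, m, ζ, ⟨hsup, ?_, ⟨hmval, hmex⟩, hz3, ?_, ?_, ?_, ?_, ?_, hcard⟩, ⟨a, hQa⟩, ⟨b, hb⟩⟩
  · ext x
    exact congrArg _ (hminv x)
  · intro w hw x
    have h1 := Str_comm hH (hcH' (orbit H x)) (hNH hw) (hc3 _) (hN3 w hw) x
    rw [hζa, hζa]
    show w (c (orbit H x) x) = c (orbit H (w x)) (w x)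
    rw [Str_orb (hNH hw) x]
    exact h1
  · intro w hw x
    by_cases hx : w x = x
    · exact Or.inl hx
    · exact hζorb x (hcmove w hw x hx) (w x) (Str_mem (hNH hw) (Str_self x))
  · intro q hq w hw
    refine ⟨H.mul_mem (H.mul_mem (hQH hq) (hNH hw)) (H.inv_mem (hQH hq)), ?_⟩
    rw [conj_pow, hw.2, mul_one, mul_inv_cancel]
  · intro x hx
    by_contra hcon
    push Not at hcon
    obtain ⟨n1, n2, n3⟩ := hcon
    obtain ⟨d1, d2⟩ := hζdist x hx
    have o1 := hζorb x hx _ (hmorb x x (Str_self x))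
    have o2 := hζorb x hx _ (hmorb x _ (hζm x))
    have o3 := hζorb x hx _ (hmorb x _ (hζm2 x))
    rcases o1 with o1 | o1 | o1
    · exact n1 o1
    · -- m x = ζ x
      rcases o3 with o3 | o3 | o3
      · have := congrArg m o3
        rw [hmi, o1] at this
        exact d2 this
      · have := congrArg m o3
        have e : m (ζ x) = x := by rw [← o1, hmi]
        rw [hmi, e] at this
        exact d1 this
      · exact n3 o3
    · rcases o2 with o2 | o2 | o2
      · have := congrArg m o2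
        rw [hmi, o1] at this
        exact d2 this.symm
      · exact n2 o2
      · have := congrArg m o2
        have e : m (ζ (ζ x)) = x := by rw [← o1, hmi]
        rw [hmi, e] at this
        exact hx this
  · intro p hp q hq
    have hqp : q p = p := by
      rcases hmval q hq p with h | h
      · exact h
      · rw [h, ← hmm, hp]
    by_cases hζp : ζ p = p
    · left
      rw [hζp, hζp]
      exact ⟨hqp, hqp⟩
    · obtain ⟨d1, d2⟩ := hζdist p hζp
      have o1 := hζorb p hζp _ (Str_mem (hQH hq) (hζm p))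
      have o2 := hζorb p hζp _ (Str_mem (hQH hq) (hζm2 p))
      rcases o1 with o1 | o1 | o1
      · exact absurd (q.injective (o1.trans hqp.symm)) hζp
      · left
        refine ⟨o1, ?_⟩
        rcases o2 with o2 | o2 | o2
        · exact absurd (q.injective (o2.trans hqp.symm)) d1
        · exact absurd (q.injective (o2.trans o1.symm)) d2
        · exact o2
      · right
        refine ⟨o1, ?_⟩
        rw [← o1, hqq q hq]

end Pool.Agent.OSG
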