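import Pool.Agent.OSG.Num
import Pool.Agent.OSG.Low
import Pool.Agent.OSG.Small
import Pool.Agent.OSG.Str

/-!
# OSG/Fin1: comparison of the numbers of groups
-/

namespace Pool.Agent.OSG

open Equiv

variable {n : ℕ}

/-- the groups with orbits `{x, m x}` where `m` has at most one fixed point -/
def G0 (n : ℕ) : Set (Subgroup (Perm (Fin n))) := {Q | ∃ m ∈ Inv n (n % 2), Two Q m}

/-- those whose order is not a multiple of `2 ^ a` -/
def Gs (n a : ℕ) : Set (Subgroup (Perm (Fin n))) := {Q | (∃ m ∈ Inv n (n % 2), Two Q m) ∧ ¬ 2 ^ a ∣ Nat.card Q}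

/-- the groups with at least two points outside of the matching -/
def Bad (n : ℕ) : Set (Subgroup (Perm (Fin n))) := {H | ∃ Q N m ζ, Enc H Q N m ζ ∧ 2 ≤ fixc m}

theorem G0_ge (n : ℕ) : (Inv n (n % 2)).card * (2 ^ (n / 2 / 2) - 1) ^ (n / 2) ≤
    2 ^ (n / 2 / 2 * (n / 2 / 2)) * (G0 n).ncard := by
  classical
  set T : Perm (Fin n) → Finset (Subgroup (Perm (Fin n))) := fun m =>
    (Set.toFinite {Q : Subgroup (Perm (Fin n)) | Two Q m}).toFinset with hT
  have h1 : G0 n = (((Inv n (n % 2)).biUnion T : Finset (Subgroup (Perm (Fin n)))) :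
      Set (Subgroup (Perm (Fin n)))) := by
    ext Q
    simp only [G0, Finset.mem_coe, Finset.mem_biUnion, hT, Set.Finite.mem_toFinset, Set.mem_ofPred_eq]
  rw [h1, Set.ncard_coe_finset, Finset.card_biUnion]
  · rw [Finset.mul_sum, ← smul_eq_mul, ← Finset.sum_const]
    refine Finset.sum_le_sum fun m hm => ?_
    obtain ⟨hmm, hf⟩ := mem_Inv1.1 hm
    have h2 := low hmm (n / 2 / 2)
    have h3 := card_WW hmm
    have h4 : (WW m).card = n / 2 := by omega
    rw [h4, Set.ncard_eq_toFinset_card _ (Set.toFinite _)] at h2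
    exact h2
  · intro m _ m' _ hne
    rw [Function.onFun, Finset.disjoint_left]
    intro Q h2 h3
    simp only [hT, Set.Finite.mem_toFinset, Set.mem_ofPred_eq] at h2 h3
    exact hne (two_unique h2 h3)

theorem Bad_le (hn : 30000 ≤ n) : n * (Bad n).ncard ≤ (G0 n).ncard := by
  set k := n / 2 / 2 with hk
  set s := n / 2 with hs
  set I := (Inv n (n % 2)).card with hI
  have hG := G0_ge n
  rw [← hk, ← hs, ← hI] at hG
  have hpos : 0 < n ^ 2 * 2 ^ (k * k) := by positivity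
  set T := (2 ^ k - 1) ^ s / (n ^ 2 * 2 ^ (k * k)) with hT
  have hb : (Bad n).ncard ≤ n * (I * T) := by
    refine bad_all (n := n) T (by omega) fun f W u a r hf h1 hu h2 => ?_
    rw [hT, Nat.le_div_iff_mul_le hpos]
    exact num1 hn hf h1 hu h2
  have h1 : T * (n ^ 2 * 2 ^ (k * k)) ≤ (2 ^ k - 1) ^ s := Nat.div_mul_le_self _ _
  have h2 : 2 ^ (k * k) * (n * (Bad n).ncard) ≤ 2 ^ (k * k) * (G0 n).ncard := by
    calc 2 ^ (k * k) * (n * (Bad n).ncard) ≤ 2 ^ (k * k) * (n * (n * (I * T))) :=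
          Nat.mul_le_mul_left _ (Nat.mul_le_mul_left _ hb)
      _ = I * (T * (n ^ 2 * 2 ^ (k * k))) := by ring
      _ ≤ I * (2 ^ k - 1) ^ s := Nat.mul_le_mul_left _ h1
      _ ≤ 2 ^ (k * k) * (G0 n).ncard := hG
  exact Nat.le_of_mul_le_mul_left h2 (by positivity)

theorem Gs_le {a : ℕ} (hn : 30000 + 64 * 2 ^ a ≤ n) : n ^ 4 * (Gs n a).ncard ≤ (G0 n).ncard := by
  set k := n / 2 / 2 with hk
  set s := n / 2 with hs
  set I := (Inv n (n % 2)).card with hI
  have hG := G0_ge n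
  rw [← hk, ← hs, ← hI] at hG
  have hb : (Gs n a).ncard ≤ I * (2 ^ s) ^ (2 ^ a) := small a (n % 2)
  have h1 := num2 a hn
  rw [← hk, ← hs] at h1
  have h2 : 2 ^ (k * k) * (n ^ 4 * (Gs n a).ncard) ≤ 2 ^ (k * k) * (G0 n).ncard := by
    calc 2 ^ (k * k) * (n ^ 4 * (Gs n a).ncard) ≤ 2 ^ (k * k) * (n ^ 4 * (I * (2 ^ s) ^ (2 ^ a))) :=
          Nat.mul_le_mul_left _ (Nat.mul_le_mul_left _ hb)
      _ = I * (n ^ 4 * ((2 ^ s) ^ (2 ^ a) * 2 ^ (k * k))) := by ring
      _ ≤ I * (2 ^ k - 1) ^ s := Nat.mul_le_mul_left _ h1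
      _ ≤ 2 ^ (k * k) * (G0 n).ncard := hG
  exact Nat.le_of_mul_le_mul_left h2 (by positivity)

theorem G0_short {Q : Subgroup (Perm (Fin n))} (hQ : Q ∈ G0 n) : Short Q := by
  classical
  obtain ⟨m, -, h⟩ := hQ
  intro x
  have h1 : MulAction.orbit Q x ⊆ (({x, m x} : Finset (Fin n)) : Set (Fin n)) := by
    rintro _ ⟨g, rfl⟩
    have := h.1 g g.2 x
    simp only [Finset.coe_insert, Finset.coe_singleton, Set.mem_insert_iff, Set.mem_singleton_iff]
    exact this
  refine (Set.ncard_le_ncard h1 (Finset.finite_toSet _)).trans ?_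
  rw [Set.ncard_coe_finset]
  exact Finset.card_le_two.trans (by norm_num)

/-- no point outside of the matching -/
theorem enc_zero {H Q N : Subgroup (Perm (Fin n))} {m ζ : Perm (Fin n)} (h : Enc H Q N m ζ) (hf : fixc m = 0) :
    H = Q := by
  have h1 : ∀ x, m x ≠ x := by
    intro x hx
    unfold fixc at hf
    rw [Finset.card_eq_zero] at hf
    have : x ∈ Finset.univ.filter (fun x => m x = x) := by simp [hx]
    rw [hf] at this
    simp at this
  have h2 : ∀ x, ζ x = x := by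
    intro x
    by_contra hx
    rcases h.fix x hx with h3 | h3 | h3
    · exact h1 _ h3
    · exact h1 _ h3
    · exact h1 _ h3
  have h3 : N = ⊥ := by
    rw [eq_bot_iff]
    intro w hw
    rw [Subgroup.mem_bot]
    refine Equiv.ext fun x => ?_
    rcases h.val w hw x with h4 | h4 | h4
    · exact h4
    · rw [h4, h2]; rfl
    · rw [h4, h2, h2]; rfl
  rw [h.sup, h3, sup_bot_eq]

/-- one point outside of the matching -/
theorem enc_one {H Q N : Subgroup (Perm (Fin n))} {m ζ : Perm (Fin n)} (h : Enc H Q N m ζ) (hf : fixc m = 1) :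
    Nat.card N ≤ 3 := by
  classical
  unfold fixc at hf
  obtain ⟨p, hp⟩ := Finset.card_eq_one.1 hf
  have hp1 : ∀ x, m x = x → x = p := by
    intro x hx
    have : x ∈ Finset.univ.filter (fun x => m x = x) := by simp [hx]
    rw [hp, Finset.mem_singleton] at this
    exact this
  have hz := h.zzz
  have h1 : Nat.card N ≤ Nat.card ↥({p, ζ p, ζ (ζ p)} : Finset (Fin n)) := by
    refine Nat.card_le_card_of_injective (fun w => ⟨w.1 p, ?_⟩) ?_
    · have := h.val w.1 w.2 p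
      simpa using this
    · rintro ⟨w, hw⟩ ⟨w', hw'⟩ he
      have h2 : w p = w' p := congrArg Subtype.val he
      refine Subtype.ext (Equiv.ext fun x => ?_)
      by_cases hx : ζ x = x
      · have e1 : w x = x := by
          rcases h.val w hw x with h4 | h4 | h4
          · exact h4
          · rw [h4, hx]
          · rw [h4, hx, hx]
        have e2 : w' x = x := by
          rcases h.val w' hw' x with h4 | h4 | h4
          · exact h4
          · rw [h4, hx]
          · rw [h4, hx, hx]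
        show w x = w' x
        rw [e1, e2]
      · show w x = w' x
        rcases h.fix x hx with h3 | h3 | h3
        · rw [hp1 x h3, h2]
        · have h4 := hp1 _ h3
          have h5 : x = ζ (ζ p) := by rw [← h4, hz]
          rw [h5, h.comm w hw, h.comm w hw, h.comm w' hw', h.comm w' hw', h2]
        · have h4 := hp1 _ h3
          have h5 : x = ζ p := by rw [← h4, hz]
          rw [h5, h.comm w hw, h.comm w' hw', h2]
  refine h1.trans ?_
  rw [Nat.card_eq_fintype_card, Fintype.card_coe]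
  exact Finset.card_le_three

/-- the groups for odd `n` with a small Sylow subgroup -/
theorem odd_small {a : ℕ} (hodd : n % 2 = 1) :
    {H : Subgroup (Perm (Fin n)) | ∃ Q N m ζ, Enc H Q N m ζ ∧ fixc m = 1 ∧ ¬ 2 ^ a ∣ Nat.card Q}.ncard ≤
      (Gs n a).ncard * (n ^ 2 * 8) := by
  classical
  set GG : Finset (Subgroup (Perm (Fin n))) := (Set.toFinite (Gs n a)).toFinset with hGG
  have hm0 : ∀ Q : Subgroup (Perm (Fin n)), ∃ m, Q ∈ Gs n a → m ∈ Inv n 1 ∧ Two Q m := by
    intro Q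
    by_cases hQ : Q ∈ Gs n a
    · obtain ⟨⟨m, hm, h⟩, -⟩ := hQ
      rw [hodd] at hm
      exact ⟨m, fun _ => ⟨hm, h⟩⟩
    · exact ⟨1, fun h => absurd h hQ⟩
  choose mf hmf using hm0
  set ZS : Perm (Fin n) → Finset (Perm (Fin n)) := fun m =>
    (Set.toFinite {ζ : Perm (Fin n) | ∃ H Q N, Enc H Q N m ζ}).toFinset with hZS
  set NS : Subgroup (Perm (Fin n)) → Perm (Fin n) → Finset (Subgroup (Perm (Fin n))) := fun Q ζ =>
    (Set.toFinite {N : Subgroup (Perm (Fin n)) | ∃ H, Enc H Q N (mf Q) ζ}).toFinset with hNS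
  have h1 : {H : Subgroup (Perm (Fin n)) | ∃ Q N m ζ, Enc H Q N m ζ ∧ fixc m = 1 ∧ ¬ 2 ^ a ∣ Nat.card Q} ⊆
      ((GG.biUnion fun Q => (ZS (mf Q)).biUnion fun ζ => (NS Q ζ).image (fun N => Q ⊔ N) :
        Finset (Subgroup (Perm (Fin n)))) : Set (Subgroup (Perm (Fin n)))) := by
    rintro H ⟨Q, N, m, ζ, h, hf, hd⟩
    have hQ : Q ∈ Gs n a := ⟨⟨m, by rw [hodd]; exact mem_Inv1.2 ⟨h.mm, hf⟩, h.two⟩, hd⟩
    have hm : mf Q = m := two_unique (hmf Q hQ).2 h.two
    simp only [Finset.mem_coe, Finset.mem_biUnion, hGG, hZS, hNS, Set.Finite.mem_toFinset, Set.mem_ofPred_eq,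
      Finset.mem_image]
    exact ⟨Q, hQ, ζ, ⟨H, Q, N, by rw [hm]; exact h⟩, N, ⟨H, by rw [hm]; exact h⟩, h.sup.symm⟩
  refine le_trans (Set.ncard_le_ncard h1 (Finset.finite_toSet _)) ?_
  rw [Set.ncard_coe_finset, Set.ncard_eq_toFinset_card _ (Set.toFinite _)]
  refine Finset.card_biUnion_le_card_mul _ _ _ fun Q hQ => ?_
  rw [hGG, Set.Finite.mem_toFinset] at hQ
  obtain ⟨hm1, hm2⟩ := hmf Q hQ
  obtain ⟨hmm, hf⟩ := mem_Inv1.1 hm1
  refine le_trans (Finset.card_biUnion_le_card_mul _ _ 8 fun ζ hζ => ?_) (Nat.mul_le_mul_right _ ?_)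
  · refine le_trans Finset.card_image_le ?_
    rcases Finset.eq_empty_or_nonempty (NS Q ζ) with he | ⟨N, hN⟩
    · rw [he]; simp
    simp only [hNS, Set.Finite.mem_toFinset, Set.mem_ofPred_eq] at hN
    obtain ⟨H, hEnc⟩ := hN
    obtain ⟨ρ, hρ⟩ := exists_rho Q (mf Q) ζ
    have h2 := fib Q (mf Q) ζ ρ hρ
    rw [Set.ncard_eq_toFinset_card _ (Set.toFinite _)] at h2
    have h3 := fix_ge hEnc
    rw [hf] at h3
    have h4 : uu (mf Q) ζ ρ + rr (mf Q) ζ ρ = (IS (mf Q) ζ).card := by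
      unfold uu rr
      rw [add_comm]
      exact Finset.card_filter_add_card_filter_not _
    have h5 : uu (mf Q) ζ ρ = 0 := by
      by_contra h0
      have h6 : 0 < ((IS (mf Q) ζ).filter (fun p => ρ p ≠ p)).card := Nat.pos_of_ne_zero h0
      obtain ⟨p, hp⟩ := Finset.card_pos.1 h6
      obtain ⟨hp1, hp2⟩ := Finset.mem_filter.1 hp
      have h7 : 1 < (IS (mf Q) ζ).card := Finset.one_lt_card.2 ⟨p, hp1, ρ p, hρ.mem p hp1, hp2.symm⟩
      omega
    have h6 : (IA (mf Q) ζ).card = 0 := by omega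
    have h7 : rr (mf Q) ζ ρ ≤ 1 := by omega
    rw [h5, h6] at h2
    refine h2.trans ?_
    calc 4 * (0 + 0 + 1) * 3 ^ ((0 + 0) ^ 2 / 4) * 2 ^ rr (mf Q) ζ ρ * 3 ^ (0 + 0)
        = 4 * 2 ^ rr (mf Q) ζ ρ := by norm_num
      _ ≤ 4 * 2 ^ 1 := Nat.mul_le_mul_left _ (Nat.pow_le_pow_right (by norm_num) h7)
      _ = 8 := by norm_num
  · have h2 := zeta_count (mf Q)
    rw [hf, Set.ncard_eq_toFinset_card _ (Set.toFinite _)] at h2
    exact h2

end Pool.Agent.OSG
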