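import Pool.Agent.OSG.Fin1

/-!
# OSG/Fin2: limits of the densities
-/

namespace Pool.Agent.OSG

open Equiv Filter Topology

variable {n : ℕ}

/-- the groups with short orbits whose order is a multiple of `m` -/
def Sd (n m : ℕ) : Set (Subgroup (Perm (Fin n))) := {H | Short H ∧ m ∣ Nat.card H}

/-- the groups with short orbits whose order is not a multiple of `m` -/
def Sn (n m : ℕ) : Set (Subgroup (Perm (Fin n))) := {H | Short H ∧ ¬ m ∣ Nat.card H}

/-- the groups with short orbits -/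
def Sh (n : ℕ) : Set (Subgroup (Perm (Fin n))) := {H | Short H}

theorem Sd_add (n m : ℕ) : (Sd n m).ncard + (Sn n m).ncard = (Sh n).ncard := by
  rw [← Set.ncard_union_eq _ (Set.toFinite _) (Set.toFinite _)]
  · congr 1
    ext H
    simp only [Sd, Sn, Sh, Set.mem_union, Set.mem_ofPred_eq]
    tauto
  · rw [Set.disjoint_left]
    rintro H ⟨-, h1⟩ ⟨-, h2⟩
    exact h2 h1

theorem Sh_pos (n : ℕ) : 0 < (Sh n).ncard := by
  rw [Set.ncard_pos (Set.toFinite _)]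
  refine ⟨⊥, fun x => ?_⟩
  have h1 : MulAction.orbit (⊥ : Subgroup (Perm (Fin n))) x ⊆ {x} := by
    rintro _ ⟨g, rfl⟩
    have : g = 1 := Subsingleton.elim _ _
    rw [this]
    simp
  exact (Set.ncard_le_ncard h1 (Set.finite_singleton x)).trans (by simp)

theorem G0_sub (n : ℕ) : (G0 n).ncard ≤ (Sh n).ncard :=
  Set.ncard_le_ncard (fun _ hQ => G0_short hQ) (Set.toFinite _)

/-- the possible structures of a group with short orbits -/
theorem trich {H : Subgroup (Perm (Fin n))} (hH : Short H) : H ∈ Bad n ∨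
    (H ∈ G0 n ∧ ∃ a, Nat.card H = 2 ^ a) ∨
    (n % 2 = 1 ∧ ∃ Q N m ζ, Enc H Q N m ζ ∧ fixc m = 1 ∧ (∃ a, Nat.card Q = 2 ^ a) ∧ Nat.card H = 3 * Nat.card Q) := by
  obtain ⟨Q, N, m, ζ, h, ⟨a, ha⟩, ⟨b, hb⟩⟩ := exists_enc H hH
  have hW := card_WW h.mm
  by_cases h2 : 2 ≤ fixc m
  · exact Or.inl ⟨Q, N, m, ζ, h, h2⟩
  · right
    have hG : fixc m = n % 2 := by omega
    have hQ : Q ∈ G0 n := ⟨m, mem_Inv1.2 ⟨h.mm, hG⟩, h.two⟩
    by_cases h0 : fixc m = 0
    · left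
      have h1 := enc_zero h h0
      rw [h1]
      exact ⟨hQ, a, ha⟩
    · have h1 : fixc m = 1 := by omega
      have h3 := enc_one h h1
      rw [hb] at h3
      have hb1 : b ≤ 1 := by
        by_contra hc
        have : 3 ^ 2 ≤ 3 ^ b := Nat.pow_le_pow_right (by norm_num) (by omega)
        omega
      rcases Nat.eq_zero_or_pos b with h4 | h4
      · left
        have h5 : N = ⊥ := by
          rw [← Subgroup.card_eq_one, hb, h4, pow_zero]
        have h6 : H = Q := by rw [h.sup, h5, sup_bot_eq]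
        rw [h6]
        exact ⟨hQ, a, ha⟩
      · right
        have h5 : b = 1 := by omega
        refine ⟨by omega, Q, N, m, ζ, h, h1, ⟨a, ha⟩, ?_⟩
        rw [h.card, hb, h5, pow_one, mul_comm]

theorem q4 (hn : 30000 ≤ n) {m : ℕ} (hm : ∀ b, ¬ m ∣ 3 * 2 ^ b) : n * (Sd n m).ncard ≤ (Sh n).ncard := by
  have h1 : Sd n m ⊆ Bad n := by
    rintro H ⟨hH, hd⟩
    rcases trich hH with h | ⟨-, a, ha⟩ | ⟨-, Q, N, m', ζ, h, hf, ⟨a, ha⟩, hc⟩
    · exact h
    · rw [ha] at hd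
      exact absurd (hd.trans (Dvd.intro_left 3 rfl)) (hm a)
    · rw [hc, ha] at hd
      exact absurd hd (hm a)
  calc n * (Sd n m).ncard ≤ n * (Bad n).ncard := Nat.mul_le_mul_left _ (Set.ncard_le_ncard h1 (Set.toFinite _))
    _ ≤ (G0 n).ncard := Bad_le hn
    _ ≤ (Sh n).ncard := G0_sub n

theorem q3 (hn : 30000 ≤ n) (he : n % 2 = 0) (a : ℕ) : n * (Sd n (3 * 2 ^ a)).ncard ≤ (Sh n).ncard := by
  have h1 : Sd n (3 * 2 ^ a) ⊆ Bad n := by
    rintro H ⟨hH, hd⟩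
    rcases trich hH with h | ⟨-, b, hb⟩ | ⟨ho, -⟩
    · exact h
    · rw [hb] at hd
      have h3 : 3 ∣ 2 ^ b := (Dvd.intro _ rfl).trans hd
      have h4 := Nat.Prime.dvd_of_dvd_pow Nat.prime_three h3
      norm_num at h4
    · omega
  calc n * (Sd n (3 * 2 ^ a)).ncard ≤ n * (Bad n).ncard :=
        Nat.mul_le_mul_left _ (Set.ncard_le_ncard h1 (Set.toFinite _))
    _ ≤ (G0 n).ncard := Bad_le hn
    _ ≤ (Sh n).ncard := G0_sub n

theorem q1 {a : ℕ} (hn : 30000 + 64 * 2 ^ a ≤ n) (he : n % 2 = 0) : n * (Sn n (2 ^ a)).ncard ≤ 2 * (Sh n).ncard := by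
  have h1 : Sn n (2 ^ a) ⊆ Bad n ∪ Gs n a := by
    rintro H ⟨hH, hd⟩
    rcases trich hH with h | ⟨⟨m, hm, h2⟩, -⟩ | ⟨ho, -⟩
    · exact Or.inl h
    · exact Or.inr ⟨⟨m, hm, h2⟩, hd⟩
    · omega
  have h2 : (Sn n (2 ^ a)).ncard ≤ (Bad n).ncard + (Gs n a).ncard :=
    (Set.ncard_le_ncard h1 (Set.toFinite _)).trans (Set.ncard_union_le _ _)
  have h3 := Bad_le (n := n) (by omega)
  have h4 := Gs_le (n := n) hn
  have h5 := G0_sub n
  have h6 : n * (Gs n a).ncard ≤ n ^ 4 * (Gs n a).ncard := by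
    refine Nat.mul_le_mul_right _ ?_
    calc n = n ^ 1 := (pow_one n).symm
      _ ≤ n ^ 4 := Nat.pow_le_pow_right (by omega) (by norm_num)
  calc n * (Sn n (2 ^ a)).ncard ≤ n * ((Bad n).ncard + (Gs n a).ncard) := Nat.mul_le_mul_left _ h2
    _ = n * (Bad n).ncard + n * (Gs n a).ncard := by ring
    _ ≤ 2 * (Sh n).ncard := by omega

theorem q2 {a : ℕ} (hn : 30000 + 64 * 2 ^ a ≤ n) (ho : n % 2 = 1) :
    n * (Sn n (3 * 2 ^ a)).ncard ≤ 37 * (Sh n).ncard := by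
  classical
  set T : Set (Subgroup (Perm (Fin n))) :=
    {H | ∃ Q N m ζ, Enc H Q N m ζ ∧ fixc m = 1 ∧ ¬ 2 ^ a ∣ Nat.card Q} with hT
  have h1 : Sn n (3 * 2 ^ a) ⊆ Bad n ∪ (G0 n ∪ T) := by
    rintro H ⟨hH, hd⟩
    rcases trich hH with h | ⟨h, -⟩ | ⟨-, Q, N, m, ζ, h, hf, -, hc⟩
    · exact Or.inl h
    · exact Or.inr (Or.inl h)
    · refine Or.inr (Or.inr ⟨Q, N, m, ζ, h, hf, fun h2 => hd ?_⟩)
      rw [hc]
      exact Nat.mul_dvd_mul_left 3 h2
  have h2 : (Sn n (3 * 2 ^ a)).ncard ≤ (Bad n).ncard + ((G0 n).ncard + T.ncard) :=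
    (Set.ncard_le_ncard h1 (Set.toFinite _)).trans ((Set.ncard_union_le _ _).trans
      (Nat.add_le_add_left (Set.ncard_union_le _ _) _))
  have h3 := Bad_le (n := n) (by omega)
  have h4 := Gs_le (n := n) hn
  have h5 := G0_sub n
  have h6 := odd_small (a := a) ho
  have h7 : T.ncard ≤ (G0 n).ncard := by
    refine h6.trans (le_trans ?_ h4)
    rw [mul_comm]
    refine Nat.mul_le_mul_right _ ?_
    have e8 : 8 ≤ n ^ 2 := le_trans (by omega : 8 ≤ n) (Nat.le_self_pow (by norm_num) n)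
    calc n ^ 2 * 8 ≤ n ^ 2 * n ^ 2 := Nat.mul_le_mul_left _ e8
      _ = n ^ 4 := by ring
  -- the lower bound
  have h8 := cyc (n := n) a
  have h9 : (Sd n (3 * 2 ^ a)).ncard ≤ (Sh n).ncard := by
    have := Sd_add n (3 * 2 ^ a)
    omega
  set C : Set (Subgroup (Perm (Fin n))) := {Q | (∃ m ∈ Inv n 1, Two Q m) ∧ 2 ^ a ∣ Nat.card Q} with hC
  have h10 : (G0 n).ncard ≤ C.ncard + (Gs n a).ncard := by
    refine le_trans (Set.ncard_le_ncard ?_ (Set.toFinite _)) (Set.ncard_union_le C (Gs n a))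
    rintro Q ⟨m, hm, h⟩
    by_cases hd : 2 ^ a ∣ Nat.card Q
    · exact Or.inl ⟨⟨m, by rw [← ho]; exact hm, h⟩, hd⟩
    · exact Or.inr ⟨⟨m, hm, h⟩, hd⟩
  have h11 : n / 2 * C.ncard ≤ 3 * (Sh n).ncard := h8.trans (Nat.mul_le_mul_left _ h9)
  have h12 : 2 * (Gs n a).ncard ≤ (G0 n).ncard := by
    refine le_trans (Nat.mul_le_mul_right _ ?_) h4
    calc 2 ≤ n := by omega
      _ = n ^ 1 := (pow_one n).symm
      _ ≤ n ^ 4 := Nat.pow_le_pow_right (by omega) (by norm_num)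
  have h13 : (G0 n).ncard ≤ 2 * C.ncard := by omega
  have h14 : n * (G0 n).ncard ≤ 18 * (Sh n).ncard := by
    have e1 : n ≤ 3 * (n / 2) := by omega
    calc n * (G0 n).ncard ≤ (3 * (n / 2)) * (2 * C.ncard) := Nat.mul_le_mul e1 h13
      _ = 6 * (n / 2 * C.ncard) := by ring
      _ ≤ 6 * (3 * (Sh n).ncard) := Nat.mul_le_mul_left _ h11
      _ = 18 * (Sh n).ncard := by ring
  have h15 : n * T.ncard ≤ n * (G0 n).ncard := Nat.mul_le_mul_left _ h7
  calc n * (Sn n (3 * 2 ^ a)).ncard ≤ n * ((Bad n).ncard + ((G0 n).ncard + T.ncard)) := Nat.mul_le_mul_left _ h2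
    _ = n * (Bad n).ncard + (n * (G0 n).ncard + n * T.ncard) := by ring
    _ ≤ 37 * (Sh n).ncard := by omega

theorem dens_eq (n m : ℕ) : dens n m = ((Sd n m).ncard : ℝ) / (Sh n).ncard := rfl

theorem one_sub_dens (n m : ℕ) : 1 - dens n m = ((Sn n m).ncard : ℝ) / (Sh n).ncard := by
  have h1 : (0 : ℝ) < (Sh n).ncard := by exact_mod_cast Sh_pos n
  have h2 : ((Sd n m).ncard : ℝ) + (Sn n m).ncard = (Sh n).ncard := by exact_mod_cast Sd_add n m
  rw [dens_eq, ← h2]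
  rw [← h2] at h1
  field_simp
  ring

theorem frac_le {x y c n : ℕ} (hn : 0 < n) (hy : 0 < y) (h : n * x ≤ c * y) : (x : ℝ) / y ≤ c / n := by
  rw [div_le_div_iff₀ (by exact_mod_cast hy) (by exact_mod_cast hn)]
  have : (n : ℝ) * x ≤ c * y := by exact_mod_cast h
  linarith

theorem dens_nonneg (n m : ℕ) : 0 ≤ dens n m := by
  rw [dens_eq]
  positivity

theorem dens_le_one (n m : ℕ) : dens n m ≤ 1 := by
  have h := one_sub_dens n m
  have : (0 : ℝ) ≤ ((Sn n m).ncard : ℝ) / (Sh n).ncard := by positivity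
  linarith

/-- powers of two -/
theorem dens_two {a : ℕ} (hn : 30000 + 64 * 2 ^ a ≤ n) : 1 - 37 / n ≤ dens n (2 ^ a) := by
  have h1 : 1 - dens n (2 ^ a) ≤ (37 : ℕ) / n := by
    rw [one_sub_dens]
    refine frac_le (by omega) (Sh_pos n) ?_
    rcases Nat.mod_two_eq_zero_or_one n with h | h
    · exact (q1 hn h).trans (by omega)
    · refine le_trans (Nat.mul_le_mul_left _ (Set.ncard_le_ncard ?_ (Set.toFinite _))) (q2 hn h)
      rintro H ⟨hH, hd⟩
      exact ⟨hH, fun h3 => hd ((Dvd.intro_left 3 rfl).trans h3)⟩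
  push_cast at h1
  linarith

/-- three times a power of two, `n` odd -/
theorem dens_odd {a : ℕ} (hn : 30000 + 64 * 2 ^ a ≤ n) (ho : n % 2 = 1) : 1 - 37 / n ≤ dens n (3 * 2 ^ a) := by
  have h1 : 1 - dens n (3 * 2 ^ a) ≤ (37 : ℕ) / n := by
    rw [one_sub_dens]
    exact frac_le (by omega) (Sh_pos n) (q2 hn ho)
  push_cast at h1
  linarith

/-- three times a power of two, `n` even -/
theorem dens_even (a : ℕ) (hn : 30000 ≤ n) (he : n % 2 = 0) : dens n (3 * 2 ^ a) ≤ 1 / n := by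
  have h1 : dens n (3 * 2 ^ a) ≤ (1 : ℕ) / n := by
    rw [dens_eq]
    exact frac_le (by omega) (Sh_pos n) (by rw [one_mul]; exact q3 hn he a)
  push_cast at h1
  exact h1

/-- the other `m` -/
theorem dens_other (hn : 30000 ≤ n) {m : ℕ} (hm : ∀ b, ¬ m ∣ 3 * 2 ^ b) : dens n m ≤ 1 / n := by
  have h1 : dens n m ≤ (1 : ℕ) / n := by
    rw [dens_eq]
    exact frac_le (by omega) (Sh_pos n) (by rw [one_mul]; exact q4 hn hm)
  push_cast at h1
  exact h1

/-- a divisor of `3 * 2 ^ b` -/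
theorem div_three_two {m b : ℕ} (h : m ∣ 3 * 2 ^ b) : ∃ a, m = 2 ^ a ∨ m = 3 * 2 ^ a := by
  obtain ⟨x, y, hx, hy, rfl⟩ := exists_dvd_and_dvd_of_dvd_mul h
  obtain ⟨a, -, rfl⟩ := (Nat.dvd_prime_pow Nat.prime_two).1 hy
  rcases (Nat.dvd_prime Nat.prime_three).1 hx with rfl | rfl
  · exact ⟨a, Or.inl (one_mul _)⟩
  · exact ⟨a, Or.inr rfl⟩

theorem main : (∀ a : ℕ, Tendsto (fun n => dens n (2 ^ a)) atTop (𝓝 1)) ∧
    (∀ a : ℕ, Tendsto (fun n => dens (2 * n) (3 * 2 ^ a)) atTop (𝓝 0) ∧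
      Tendsto (fun n => dens (2 * n + 1) (3 * 2 ^ a)) atTop (𝓝 1)) ∧
    ∀ m : ℕ, (∀ a, m ≠ 2 ^ a ∧ m ≠ 3 * 2 ^ a) → Tendsto (fun n => dens n m) atTop (𝓝 0) := by
  have hlim : ∀ c : ℝ, Tendsto (fun n : ℕ => c / n) atTop (𝓝 0) := tendsto_const_div_atTop_nhds_zero_nat
  have hlim1 : ∀ c : ℝ, Tendsto (fun n : ℕ => 1 - c / n) atTop (𝓝 1) := by
    intro c
    have := (hlim c).const_sub 1
    rwa [sub_zero] at this
  have h2n : Tendsto (fun n : ℕ => 2 * n) atTop atTop :=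
    tendsto_atTop_mono (fun n => (by omega : n ≤ 2 * n)) tendsto_id
  have h2n1 : Tendsto (fun n : ℕ => 2 * n + 1) atTop atTop :=
    tendsto_atTop_mono (fun n => (by omega : n ≤ 2 * n + 1)) tendsto_id
  refine ⟨fun a => ?_, fun a => ⟨?_, ?_⟩, fun m hm => ?_⟩
  · refine tendsto_of_tendsto_of_tendsto_of_le_of_le' (hlim1 37) tendsto_const_nhds ?_ ?_
    · filter_upwards [eventually_ge_atTop (30000 + 64 * 2 ^ a)] with n hn
      exact dens_two hn
    · exact Eventually.of_forall fun n => dens_le_one n _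
  · refine tendsto_of_tendsto_of_tendsto_of_le_of_le' tendsto_const_nhds ((hlim 1).comp h2n) ?_ ?_
    · exact Eventually.of_forall fun n => dens_nonneg _ _
    · filter_upwards [eventually_ge_atTop 30000] with n hn
      exact dens_even a (by omega) (by omega)
  · refine tendsto_of_tendsto_of_tendsto_of_le_of_le' ((hlim1 37).comp h2n1) tendsto_const_nhds ?_ ?_
    · filter_upwards [eventually_ge_atTop (30000 + 64 * 2 ^ a)] with n hn
      exact dens_odd (n := 2 * n + 1) (by omega) (by omega)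
    · exact Eventually.of_forall fun n => dens_le_one _ _
  · refine tendsto_of_tendsto_of_tendsto_of_le_of_le' tendsto_const_nhds (hlim 1) ?_ ?_
    · exact Eventually.of_forall fun n => dens_nonneg _ _
    · filter_upwards [eventually_ge_atTop 30000] with n hn
      refine dens_other hn fun b hb => ?_
      obtain ⟨a, h | h⟩ := div_three_two hb
      · exact (hm a).1 h
      · exact (hm a).2 h

end Pool.Agent.OSG
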