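import Pool.Agent.OSG.Sub

/-!
# OSG/InvSub: the number of subspaces which are invariant under sign changes
-/

namespace Pool.Agent.OSG


section

variable {ι : Type} [Fintype ι] [DecidableEq ι]

private theorem InvSub_restr (𝓔 : Set (ι → ZMod 3)) (h1 : ∀ ε ∈ 𝓔, ∀ i, ε i = 1 ∨ ε i = -1)
    (W : Submodule (ZMod 3) (ι → ZMod 3)) (hW : ∀ ε ∈ 𝓔, ∀ w ∈ W, ε * w ∈ W) (i : ι) (w : ι → ZMod 3) (hw : w ∈ W)
    (S : Finset (ι → ZMod 3)) (hS : ∀ ε ∈ S, ε ∈ 𝓔) :
    (fun k => if ∀ ε ∈ S, ε k = ε i then w k else 0) ∈ W := by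
  classical
  induction S using Finset.induction_on with
  | empty => simpa using hw
  | insert e S he ih =>
    have ih' := ih (fun ε hε => hS ε (Finset.mem_insert_of_mem hε))
    set w' : ι → ZMod 3 := fun k => if ∀ ε ∈ S, ε k = ε i then w k else 0 with hw'
    have heE := hS e (Finset.mem_insert_self e S)
    have h2 : -(w' + e i • (e * w')) ∈ W := W.neg_mem (W.add_mem ih' (W.smul_mem _ (hW e heE _ ih')))
    have h3 : (fun k => if ∀ ε ∈ insert e S, ε k = ε i then w k else 0) = -(w' + e i • (e * w')) := by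
      funext k
      simp only [Pi.neg_apply, Pi.add_apply, Pi.smul_apply, Pi.mul_apply, smul_eq_mul, hw']
      by_cases hk : ∀ ε ∈ S, ε k = ε i
      · by_cases hek : e k = e i
        · rw [if_pos, if_pos hk, hek]
          · rcases h1 e heE i with h | h
            · rw [h]
              generalize w k = a
              revert a
              decide
            · rw [h]
              generalize w k = a
              revert a
              decide
          · intro ε hε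
            rcases Finset.mem_insert.1 hε with rfl | hε
            · exact hek
            · exact hk ε hε
        · rw [if_neg, if_pos hk]
          · rcases h1 e heE i with h | h <;> rcases h1 e heE k with h' | h'
            · exact absurd (h'.trans h.symm) hek
            · rw [h, h']
              generalize w k = a
              revert a
              decide
            · rw [h, h']
              generalize w k = a
              revert a
              decide
            · exact absurd (h'.trans h.symm) hek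
          · intro hall
            exact hek (hall e (Finset.mem_insert_self e S))
      · rw [if_neg, if_neg hk]
        · ring
        · intro hall
          exact hk fun ε hε => hall ε (Finset.mem_insert_of_mem hε)
    rw [h3]
    exact h2

open Classical in
private theorem InvSub_restr' (𝓔 : Set (ι → ZMod 3)) (h1 : ∀ ε ∈ 𝓔, ∀ i, ε i = 1 ∨ ε i = -1)
    (W : Submodule (ZMod 3) (ι → ZMod 3)) (hW : ∀ ε ∈ 𝓔, ∀ w ∈ W, ε * w ∈ W) (i : ι) (w : ι → ZMod 3) (hw : w ∈ W) :
    (fun k => if ∀ ε ∈ 𝓔, ε k = ε i then w k else 0) ∈ W := by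
  have h2 := InvSub_restr 𝓔 h1 W hW i w hw (Set.toFinite 𝓔).toFinset (fun ε hε => (Set.toFinite 𝓔).mem_toFinset.1 hε)
  have h3 : (fun k => if ∀ ε ∈ 𝓔, ε k = ε i then w k else 0) =
      (fun k => if ∀ ε ∈ (Set.toFinite 𝓔).toFinset, ε k = ε i then w k else 0) := by
    funext k
    simp only [Set.Finite.mem_toFinset]
  rw [h3]
  convert h2

/-- restriction to the coordinates outside `R` -/
private def InvSub_res (R : Finset ι) : (ι → ZMod 3) →ₗ[ZMod 3] ((Rᶜ : Finset ι) → ZMod 3) :=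
  LinearMap.funLeft (ZMod 3) (ZMod 3) (fun j : (Rᶜ : Finset ι) => (j : ι))

open Classical in
private theorem InvSub_key (R : Finset ι) (𝓔 : Set (ι → ZMod 3)) (h1 : ∀ ε ∈ 𝓔, ∀ i, ε i = 1 ∨ ε i = -1)
    (hsep : ∀ i ∈ R, ∀ j ∈ R, i ≠ j → ∃ ε ∈ 𝓔, ε i ≠ ε j)
    (W : Submodule (ZMod 3) (ι → ZMod 3)) (hW : ∀ ε ∈ 𝓔, ∀ w ∈ W, ε * w ∈ W) :
    ∃ g : (Rᶜ : Finset ι) → ZMod 3, ∀ w, w ∈ W ↔ (InvSub_res R w ∈ W.map (InvSub_res R) ∧
      ∀ i ∈ R, Pi.single i (1 : ZMod 3) ∉ W →
        w i = ∑ j : (Rᶜ : Finset ι), if ∀ ε ∈ 𝓔, ε (j : ι) = ε i then g j * w j else 0) := by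
  -- (1)
  have hker : ∀ i ∈ R, ∀ w ∈ W, InvSub_res R w = 0 → w i ≠ 0 → Pi.single i (1 : ZMod 3) ∈ W := by
    intro i hi w hw hres hwi
    have h2 := InvSub_restr' 𝓔 h1 W hW i w hw
    have h3 : (fun k => if ∀ ε ∈ 𝓔, ε k = ε i then w k else 0) = (Pi.single i (w i) : ι → ZMod 3) := by
      funext k
      by_cases hk : k = i
      · subst hk
        rw [if_pos (fun _ _ => rfl), Pi.single_eq_same]
      · rw [Pi.single_eq_of_ne hk]
        by_cases hkR : k ∈ R
        · obtain ⟨ε, hε, hne⟩ := hsep k hkR i hi hk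
          rw [if_neg]
          intro hall
          exact hne (hall ε hε)
        · have h4 : w k = 0 := by
            have := congrFun hres ⟨k, Finset.mem_compl.2 hkR⟩
            exact this
          rw [h4]
          simp
    rw [h3] at h2
    have h4 := W.smul_mem (w i)⁻¹ h2
    have h5 : (w i)⁻¹ • (Pi.single i (w i) : ι → ZMod 3) = Pi.single i 1 := by
      rw [← Pi.single_smul, smul_eq_mul, inv_mul_cancel₀ hwi]
    rwa [h5] at h4
  -- (2)
  have hf : ∀ i ∈ R, Pi.single i (1 : ZMod 3) ∉ W → ∃ f : ((Rᶜ : Finset ι) → ZMod 3) →ₗ[ZMod 3] ZMod 3,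
      ∀ w ∈ W, f (InvSub_res R w) = w i := by
    intro i hi hsi
    set φ : W →ₗ[ZMod 3] ((Rᶜ : Finset ι) → ZMod 3) := (InvSub_res R).domRestrict W with hφ
    set ψ : Module.Dual (ZMod 3) W := (LinearMap.proj i : (ι → ZMod 3) →ₗ[ZMod 3] ZMod 3).domRestrict W with hψ
    have hmem : ψ ∈ (LinearMap.ker φ).dualAnnihilator := by
      rw [Submodule.mem_dualAnnihilator]
      rintro ⟨w, hw⟩ hwk
      by_contra hne
      exact hsi (hker i hi w hw hwk hne)
    rw [← LinearMap.range_dualMap_eq_dualAnnihilator_ker] at hmem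
    obtain ⟨f, hf⟩ := hmem
    refine ⟨f, fun w hw => ?_⟩
    have := LinearMap.congr_fun hf ⟨w, hw⟩
    exact this
  choose! f hf using hf
  set g : (Rᶜ : Finset ι) → ZMod 3 := fun j =>
    if h : ∃ i, i ∈ R ∧ (∀ ε ∈ 𝓔, ε (j : ι) = ε i) ∧ Pi.single i (1 : ZMod 3) ∉ W then
      f h.choose (Pi.single j 1) else 0 with hg
  have hgval : ∀ i ∈ R, Pi.single i (1 : ZMod 3) ∉ W → ∀ j : (Rᶜ : Finset ι), (∀ ε ∈ 𝓔, ε (j : ι) = ε i) →
      g j = f i (Pi.single j 1) := by
    intro i hi hsi j hj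
    have hex : ∃ i, i ∈ R ∧ (∀ ε ∈ 𝓔, ε (j : ι) = ε i) ∧ Pi.single i (1 : ZMod 3) ∉ W := ⟨i, hi, hj, hsi⟩
    simp only [hg, dif_pos hex]
    have h2 := hex.choose_spec
    have h3 : hex.choose = i := by
      by_contra hne
      obtain ⟨ε, hε, hne'⟩ := hsep _ h2.1 i hi hne
      exact hne' ((h2.2.1 ε hε).symm.trans (hj ε hε))
    rw [h3]
  have heq : ∀ i ∈ R, Pi.single i (1 : ZMod 3) ∉ W → ∀ w ∈ W,
      w i = ∑ j : (Rᶜ : Finset ι), if ∀ ε ∈ 𝓔, ε (j : ι) = ε i then g j * w j else 0 := by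
    intro i hi hsi w hw
    have h2 := InvSub_restr' 𝓔 h1 W hW i w hw
    have h3 := hf i hi hsi _ h2
    rw [if_pos (fun _ _ => rfl)] at h3
    rw [← h3]
    have h4 : InvSub_res R (fun k => if ∀ ε ∈ 𝓔, ε k = ε i then w k else 0) =
        ∑ j : (Rᶜ : Finset ι), (if ∀ ε ∈ 𝓔, ε (j : ι) = ε i then w j else 0) •
          (Pi.single j (1 : ZMod 3) : (Rᶜ : Finset ι) → ZMod 3) := by
      funext k
      rw [Finset.sum_apply, Finset.sum_eq_single k]
      · simp only [InvSub_res, LinearMap.funLeft_apply, Pi.smul_apply, Pi.single_eq_same, smul_eq_mul, mul_one]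
      · intro j _ hjk
        rw [Pi.smul_apply, Pi.single_eq_of_ne (Ne.symm hjk), smul_zero]
      · intro h
        exact absurd (Finset.mem_univ k) h
    rw [h4, map_sum]
    refine Finset.sum_congr rfl fun j _ => ?_
    rw [map_smul, smul_eq_mul]
    by_cases hj : ∀ ε ∈ 𝓔, ε (j : ι) = ε i
    · rw [if_pos hj, if_pos hj, hgval i hi hsi j hj, mul_comm]
    · rw [if_neg hj, if_neg hj, zero_mul]
  refine ⟨g, fun w => ⟨fun hw => ⟨Submodule.mem_map_of_mem hw, fun i hi hsi => heq i hi hsi w hw⟩, ?_⟩⟩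
  rintro ⟨⟨w', hw', hres⟩, hval⟩
  have hJ : ∀ j : (Rᶜ : Finset ι), w' j = w j := fun j => congrFun hres j
  have hdiff : w - w' = ∑ i ∈ R.filter (fun i => Pi.single i (1 : ZMod 3) ∈ W), (w i - w' i) •
      (Pi.single i (1 : ZMod 3) : ι → ZMod 3) := by
    funext k
    rw [Pi.sub_apply, Finset.sum_apply]
    by_cases hk : k ∈ R
    · by_cases hkW : Pi.single k (1 : ZMod 3) ∈ W
      · rw [Finset.sum_eq_single k]
        · rw [Pi.smul_apply, Pi.single_eq_same, smul_eq_mul, mul_one]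
        · intro j _ hjk
          rw [Pi.smul_apply, Pi.single_eq_of_ne (Ne.symm hjk), smul_zero]
        · intro h
          exact absurd (Finset.mem_filter.2 ⟨hk, hkW⟩) h
      · rw [Finset.sum_eq_zero, hval k hk hkW, heq k hk hkW w' hw', sub_eq_zero]
        · refine Finset.sum_congr rfl fun j _ => ?_
          rw [hJ j]
        · intro j hj
          have hjk : k ≠ j := by
            rintro rfl
            exact hkW (Finset.mem_filter.1 hj).2
          rw [Pi.smul_apply, Pi.single_eq_of_ne hjk, smul_zero]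
    · rw [Finset.sum_eq_zero, sub_eq_zero]
      · exact (hJ ⟨k, Finset.mem_compl.2 hk⟩).symm
      · intro j hj
        have hjk : k ≠ j := by
          rintro rfl
          exact hk (Finset.mem_filter.1 hj).1
        rw [Pi.smul_apply, Pi.single_eq_of_ne hjk, smul_zero]
  have h5 : w - w' ∈ W := by
    rw [hdiff]
    exact W.sum_mem fun i hi => W.smul_mem _ (Finset.mem_filter.1 hi).2
  have h6 := W.add_mem h5 hw'
  rwa [sub_add_cancel] at h6

theorem card_inv_le (R : Finset ι) (𝓔 : Set (ι → ZMod 3))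
    (h1 : ∀ ε ∈ 𝓔, ∀ i, ε i = 1 ∨ ε i = -1)
    (hsep : ∀ i ∈ R, ∀ j ∈ R, i ≠ j → ∃ ε ∈ 𝓔, ε i ≠ ε j) :
    {W : Submodule (ZMod 3) (ι → ZMod 3) | ∀ ε ∈ 𝓔, ∀ w ∈ W, ε * w ∈ W}.ncard ≤
      4 * (Rᶜ.card + 1) * 3 ^ (Rᶜ.card ^ 2 / 4) * 2 ^ R.card * 3 ^ Rᶜ.card := by
  classical
  set 𝒲 := {W : Submodule (ZMod 3) (ι → ZMod 3) | ∀ ε ∈ 𝓔, ∀ w ∈ W, ε * w ∈ W} with h𝒲
  have hg : ∀ W : 𝒲, ∃ g : (Rᶜ : Finset ι) → ZMod 3, ∀ w, w ∈ (W : Submodule (ZMod 3) (ι → ZMod 3)) ↔
      (InvSub_res R w ∈ (W : Submodule (ZMod 3) (ι → ZMod 3)).map (InvSub_res R) ∧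
      ∀ i ∈ R, Pi.single i (1 : ZMod 3) ∉ (W : Submodule (ZMod 3) (ι → ZMod 3)) →
        w i = ∑ j : (Rᶜ : Finset ι), if ∀ ε ∈ 𝓔, ε (j : ι) = ε i then g j * w j else 0) :=
    fun W => InvSub_key R 𝓔 h1 hsep W W.2
  choose g hg using hg
  have hinj : Function.Injective (fun W : 𝒲 =>
      (((W : Submodule (ZMod 3) (ι → ZMod 3)).map (InvSub_res R),
        (fun i : R => decide (Pi.single (i : ι) (1 : ZMod 3) ∈ (W : Submodule (ZMod 3) (ι → ZMod 3)))), g W) :
        Submodule (ZMod 3) ((Rᶜ : Finset ι) → ZMod 3) × (R → Bool) × ((Rᶜ : Finset ι) → ZMod 3))) := by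
    intro W W' h
    rw [Prod.mk.injEq, Prod.mk.injEq] at h
    obtain ⟨e1, e2, e3⟩ := h
    apply Subtype.ext
    ext w
    rw [hg W w, hg W' w, e1, e3]
    refine and_congr Iff.rfl (forall_congr' fun i => forall_congr' fun hi => ?_)
    have e4 := congrFun e2 ⟨i, hi⟩
    simp only [decide_eq_decide] at e4
    rw [e4]
  rw [← Nat.card_coe_set_eq]
  refine (Nat.card_le_card_of_injective _ hinj).trans ?_
  rw [Nat.card_prod, Nat.card_prod, Nat.card_fun, Nat.card_fun, Nat.card_zmod, Nat.card_eq_fintype_card (α := R),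
    Nat.card_eq_fintype_card (α := (Rᶜ : Finset ι)), Fintype.card_coe, Fintype.card_coe,
    Nat.card_eq_fintype_card (α := Bool), Fintype.card_bool, ← mul_assoc]
  refine Nat.mul_le_mul_right _ (Nat.mul_le_mul_right _ ?_)
  refine card_submodule_le 3 ((Rᶜ : Finset ι) → ZMod 3) Rᶜ.card ?_
  rw [Nat.card_fun, Nat.card_zmod, Nat.card_eq_fintype_card, Fintype.card_coe]

end

end Pool.Agent.OSG
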