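import Pool.Agent.OSG.Bad

/-!
# OSG/Num: numerical estimates
-/

namespace Pool.Agent.OSG

theorem pow_lower (k s : ℕ) (hs : 2 * s ≤ 2 ^ k) : 2 ^ (k * s) ≤ 2 * (2 ^ k - 1) ^ s := by
  have h1 : (1 : ℕ) ≤ 2 ^ k := Nat.one_le_two_pow
  have hp : (0 : ℝ) < 2 ^ k := by positivity
  have h2 : (2 : ℝ) ^ (k * s) ≤ 2 * (2 ^ k - 1) ^ s := by
    have hb := one_add_mul_le_pow (a := -(1 / (2 : ℝ) ^ k)) (by
      have : 1 / (2 : ℝ) ^ k ≤ 1 := by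
        rw [div_le_one hp]
        exact_mod_cast h1
      linarith) s
    have h3 : (s : ℝ) * (1 / 2 ^ k) ≤ 1 / 2 := by
      rw [mul_one_div, div_le_div_iff₀ hp (by norm_num)]
      have : (2 : ℝ) * s ≤ 2 ^ k := by exact_mod_cast hs
      linarith
    have h4 : (1 : ℝ) / 2 ≤ (1 + -(1 / 2 ^ k)) ^ s := by
      refine le_trans ?_ hb
      linarith
    have h5 : ((2 : ℝ) ^ k - 1) ^ s = 2 ^ (k * s) * (1 + -(1 / 2 ^ k)) ^ s := by
      rw [pow_mul, ← mul_pow]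
      congr 1
      field_simp
      ring
    rw [h5]
    have h6 : (0 : ℝ) < 2 ^ (k * s) := by positivity
    nlinarith
  have h3 : ((2 ^ (k * s) : ℕ) : ℝ) ≤ ((2 * (2 ^ k - 1) ^ s : ℕ) : ℝ) := by
    rw [Nat.cast_mul, Nat.cast_pow, Nat.cast_pow, Nat.cast_sub h1]
    push_cast
    exact h2
  exact_mod_cast h3

theorem exists_L {n : ℕ} (hn : 30000 ≤ n) : n ≤ 2 ^ (n / 2000) := by
  have h1 : ∀ q : ℕ, 15 ≤ q → 2000 * (q + 1) ≤ 2 ^ q := by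
    intro q hq
    induction q, hq using Nat.le_induction with
    | base => norm_num
    | succ q hq ih =>
      rw [pow_succ]
      omega
  have h2 := h1 (n / 2000) (by omega)
  omega

theorem two_k {n : ℕ} (hn : 30000 ≤ n) : 2 * (n / 2) ≤ 2 ^ (n / 2 / 2) := by
  have h1 := exists_L hn
  have h2 : 2 ^ (n / 2000) ≤ 2 ^ (n / 2 / 2) := Nat.pow_le_pow_right (by norm_num) (by omega)
  omega

theorem key_ineq {n f d u a r L A B k s : ℕ} (hn : 30000 ≤ n) (hf : 2 ≤ f) (h1 : 2 * (u + d) + f = n)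
    (h2 : u + r + 3 * a ≤ f) (hL : 2000 * L ≤ n) (hA : 4 * A ≤ d ^ 2) (hB : 4 * B ≤ (u + a) ^ 2)
    (hs : n ≤ 2 * s + 1) (hk : s ≤ 2 * k + 1) (hk2 : 2 * k ≤ s) :
    4 * f * L + 4 * L + 4 + A + 2 * B + r + 2 * (u + a) + k * k + 1 ≤ k * s := by
  zify at *
  set n' : ℤ := (n : ℤ)
  set w : ℤ := (f : ℤ) + 2 * (u : ℤ) with hw
  have hu : (0 : ℤ) ≤ u := Int.natCast_nonneg u
  have hd : (0 : ℤ) ≤ d := Int.natCast_nonneg d
  have ha : (0 : ℤ) ≤ a := Int.natCast_nonneg a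
  have hr : (0 : ℤ) ≤ r := Int.natCast_nonneg r
  have hL0 : (0 : ℤ) ≤ L := Int.natCast_nonneg L
  have e1 : 2 * (d : ℤ) = n' - w := by linarith
  have e2 : 3 * ((u : ℤ) + a) ≤ w := by linarith
  have hw2 : 2 ≤ w := by linarith
  have hwn : w ≤ n' := by linarith
  -- k (s - k)
  have e3 : (s : ℤ) ^ 2 - 1 ≤ 4 * (k * s - k * k) := by
    have t1 : (0 : ℤ) ≤ s - 2 * k := by linarith
    have t2 : (0 : ℤ) ≤ 1 - (s - 2 * k) := by linarith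
    have t3 := mul_nonneg t1 t2
    have t4 : 4 * ((k : ℤ) * s - k * k) = s ^ 2 - (s - 2 * k) ^ 2 := by ring
    rw [t4]
    linarith
  have e4 : (n' - 1) ^ 2 ≤ (2 * (s : ℤ)) ^ 2 := by
    refine pow_le_pow_left₀ (by linarith) (by linarith) 2
  have e5 : (3 * ((u : ℤ) + a)) ^ 2 ≤ w ^ 2 := pow_le_pow_left₀ (by linarith) e2 2
  have e6 : (2 * (d : ℤ)) ^ 2 = (n' - w) ^ 2 := by rw [e1]
  have e7 : (f : ℤ) ≤ w := by linarith
  have e8 : ((f : ℤ) + 1) * (2000 * L) ≤ (w + 1) * n' :=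
    mul_le_mul (by linarith) hL (by linarith) (by linarith)
  have e10 : (0 : ℤ) ≤ (w - 2) * (n' - w) := mul_nonneg (by linarith) (by linarith)
  have e11 : (0 : ℤ) ≤ (n' - 30000) * w := mul_nonneg (by linarith) (by linarith)
  linarith

theorem num1 {n f W u a r : ℕ} (hn : 30000 ≤ n) (hf : 2 ≤ f) (h1 : 2 * W + f = n) (hu : u ≤ W)
    (h2 : u + r + 3 * a ≤ f) :
    n ^ (4 * f) * (bq W u * bn (u + a) r) * (n ^ 2 * 2 ^ (n / 2 / 2 * (n / 2 / 2))) ≤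
      (2 ^ (n / 2 / 2) - 1) ^ (n / 2) := by
  obtain ⟨d, rfl⟩ := Nat.exists_eq_add_of_le hu
  set L := n / 2000 with hL
  set k := n / 2 / 2 with hk
  set s := n / 2 with hs
  have hnL : n ≤ 2 ^ L := exists_L hn
  have hlow := pow_lower k s (two_k hn)
  have hkey := key_ineq (A := d ^ 2 / 4) (B := (u + a) ^ 2 / 4) (k := k) (s := s) (L := L) (r := r) (a := a)
    hn hf h1 h2 (by omega) (Nat.mul_div_le _ _) (Nat.mul_div_le _ _) (by omega) (by omega) (by omega)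
  have h3 : ∀ x : ℕ, 3 ^ x ≤ 2 ^ (2 * x) := by
    intro x
    rw [pow_mul]
    exact Nat.pow_le_pow_left (by norm_num) x
  have b1 : bq (u + d) u ≤ 2 ^ (2 + L + d ^ 2 / 4) := by
    unfold bq
    rw [Nat.add_sub_cancel_left, pow_add, pow_add]
    refine Nat.mul_le_mul (Nat.mul_le_mul (by norm_num) ?_) le_rfl
    omega
  have b2 : bn (u + a) r ≤ 2 ^ (2 + L + 2 * ((u + a) ^ 2 / 4) + r + 2 * (u + a)) := by
    have hv : u + a + 1 ≤ 2 ^ L := by omega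
    generalize u + a = v at hv ⊢
    unfold bn
    rw [show 2 + L + 2 * (v ^ 2 / 4) + r + 2 * v = (((2 + L) + 2 * (v ^ 2 / 4)) + r) + 2 * v by ring,
      pow_add 2 (2 + L + 2 * (v ^ 2 / 4) + r), pow_add 2 (2 + L + 2 * (v ^ 2 / 4)), pow_add 2 (2 + L), pow_add 2 2]
    exact Nat.mul_le_mul (Nat.mul_le_mul (Nat.mul_le_mul (Nat.mul_le_mul (by norm_num) hv) (h3 _)) le_rfl) (h3 _)
  have b3 : n ^ (4 * f) ≤ 2 ^ (4 * f * L) := by
    calc n ^ (4 * f) ≤ (2 ^ L) ^ (4 * f) := Nat.pow_le_pow_left hnL _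
      _ = 2 ^ (4 * f * L) := by rw [← pow_mul, mul_comm L]
  have b4 : n ^ 2 ≤ 2 ^ (2 * L) := by
    calc n ^ 2 ≤ (2 ^ L) ^ 2 := Nat.pow_le_pow_left hnL _
      _ = 2 ^ (2 * L) := by rw [← pow_mul, mul_comm L]
  have b5 : n ^ (4 * f) * (bq (u + d) u * bn (u + a) r) * (n ^ 2 * 2 ^ (k * k)) ≤
      2 ^ (4 * f * L) * (2 ^ (2 + L + d ^ 2 / 4) * 2 ^ (2 + L + 2 * ((u + a) ^ 2 / 4) + r + 2 * (u + a))) *
        (2 ^ (2 * L) * 2 ^ (k * k)) :=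
    Nat.mul_le_mul (Nat.mul_le_mul b3 (Nat.mul_le_mul b1 b2)) (Nat.mul_le_mul b4 le_rfl)
  refine b5.trans ?_
  rw [← pow_add, ← pow_add, ← pow_add, ← pow_add]
  have h4 : 2 * 2 ^ (4 * f * L + (2 + L + d ^ 2 / 4 + (2 + L + 2 * ((u + a) ^ 2 / 4) + r + 2 * (u + a))) +
      (2 * L + k * k)) ≤ 2 * (2 ^ k - 1) ^ s := by
    refine le_trans ?_ hlow
    rw [← pow_succ']
    refine Nat.pow_le_pow_right (by norm_num) ?_
    refine le_trans (le_of_eq ?_) hkey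
    ring
  exact Nat.le_of_mul_le_mul_left h4 (by norm_num)

theorem num2 (a : ℕ) {n : ℕ} (hn : 30000 + 64 * 2 ^ a ≤ n) :
    n ^ 4 * ((2 ^ (n / 2)) ^ (2 ^ a) * 2 ^ (n / 2 / 2 * (n / 2 / 2))) ≤ (2 ^ (n / 2 / 2) - 1) ^ (n / 2) := by
  have hn' : 30000 ≤ n := by omega
  set L := n / 2000 with hL
  set k := n / 2 / 2 with hk
  set s := n / 2 with hs
  have hnL : n ≤ 2 ^ L := exists_L hn'
  have hlow := pow_lower k s (two_k hn')
  have b4 : n ^ 4 ≤ 2 ^ (4 * L) := by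
    calc n ^ 4 ≤ (2 ^ L) ^ 4 := Nat.pow_le_pow_left hnL _
      _ = 2 ^ (4 * L) := by rw [← pow_mul, mul_comm L]
  have h1 : n ^ 4 * ((2 ^ s) ^ (2 ^ a) * 2 ^ (k * k)) ≤ 2 ^ (4 * L) * (2 ^ (s * 2 ^ a) * 2 ^ (k * k)) := by
    rw [← pow_mul]
    exact Nat.mul_le_mul_right _ b4
  refine h1.trans ?_
  rw [← pow_add, ← pow_add]
  have h4 : 2 * 2 ^ (4 * L + (s * 2 ^ a + k * k)) ≤ 2 * (2 ^ k - 1) ^ s := by
    refine le_trans ?_ hlow
    rw [← pow_succ']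
    refine Nat.pow_le_pow_right (by norm_num) ?_
    have e1 : 32 * 2 ^ a ≤ s := by omega
    have e2 : 2 * k ≤ s := by omega
    have e3 : s ≤ 2 * k + 1 := by omega
    have e4 : 500 * (4 * L) ≤ 2 * n := by omega
    have e5 : n ≤ 2 * s + 1 := by omega
    have e6 : 15000 ≤ s := by omega
    generalize 2 ^ a = x at *
    zify at *
    have e7 : (s : ℤ) ^ 2 - 1 ≤ 4 * (k * s - k * k) := by nlinarith
    nlinarith
  exact Nat.le_of_mul_le_mul_left h4 (by norm_num)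

end Pool.Agent.OSG
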