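import Pool.Agent.OSG.Defs

/-!
# OSG/Sub: the number of subspaces and of subgroups of an elementary abelian group
-/

namespace Pool.Agent.OSG

private theorem Sub_prod (k : ℕ) :
    (1 / 4 : ℝ) + (1 / 2) ^ (k + 2) ≤ ∏ j ∈ Finset.range (k + 1), (1 - (1 / 2 : ℝ) ^ (j + 1)) := by
  induction k with
  | zero => norm_num
  | succ k ih =>
    rw [Finset.prod_range_succ]
    have h1 : (0 : ℝ) < (1 / 2) ^ k := by positivity
    have h2 : ((1 : ℝ) / 2) ^ k ≤ 1 := pow_le_one₀ (by norm_num) (by norm_num)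
    have h3 : (1 / 4 : ℝ) + (1 / 2) ^ (k + 1 + 2) ≤
        ((1 / 4 : ℝ) + (1 / 2) ^ (k + 2)) * (1 - (1 / 2) ^ (k + 1 + 1)) := by
      have e1 : ((1 : ℝ) / 2) ^ (k + 1 + 2) = (1 / 2) ^ k / 8 := by rw [pow_add, pow_succ]; ring
      have e2 : ((1 : ℝ) / 2) ^ (k + 2) = (1 / 2) ^ k / 4 := by rw [pow_add]; ring
      have e3 : ((1 : ℝ) / 2) ^ (k + 1 + 1) = (1 / 2) ^ k / 4 := by rw [pow_add, pow_succ]; ring
      rw [e1, e2]
      nlinarith
    refine h3.trans (mul_le_mul_of_nonneg_right ih ?_)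
    have e3 : ((1 : ℝ) / 2) ^ (k + 1 + 1) = (1 / 2) ^ k / 4 := by rw [pow_add, pow_succ]; ring
    rw [e3]
    linarith

private theorem Sub_prod' (k : ℕ) : (1 / 4 : ℝ) ≤ ∏ j ∈ Finset.range k, (1 - (1 / 2 : ℝ) ^ (j + 1)) := by
  cases k with
  | zero => norm_num
  | succ k =>
    have h1 : (0 : ℝ) < (1 / 2) ^ (k + 2) := by positivity
    linarith [Sub_prod k]

private theorem Sub_D (p k : ℕ) (hp : 2 ≤ p) : p ^ (k * k) ≤ 4 * ∏ i : Fin k, (p ^ k - p ^ (i : ℕ)) := by
  have hp0 : (0 : ℝ) < p := by exact_mod_cast (by omega : 0 < p)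
  have hp2 : (2 : ℝ) ≤ p := by exact_mod_cast hp
  have h1 : ((∏ i : Fin k, (p ^ k - p ^ (i : ℕ)) : ℕ) : ℝ) =
      (p : ℝ) ^ (k * k) * ∏ j ∈ Finset.range k, (1 - (1 / (p : ℝ)) ^ (j + 1)) := by
    push_cast
    have h2 : ∀ i : Fin k, ((p ^ k - p ^ (i : ℕ) : ℕ) : ℝ) = (p : ℝ) ^ k * (1 - (1 / (p : ℝ)) ^ (k - i)) := by
      intro i
      have h3 : p ^ (i : ℕ) ≤ p ^ k := Nat.pow_le_pow_right (by omega) i.2.le
      rw [Nat.cast_sub h3]
      push_cast
      have h4 : (p : ℝ) ^ k = (p : ℝ) ^ (i : ℕ) * (p : ℝ) ^ (k - i) := by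
        rw [← pow_add]
        congr 1
        omega
      rw [mul_sub, mul_one, one_div, inv_pow]
      nth_rw 3 [h4]
      rw [mul_assoc, mul_inv_cancel₀ (by positivity), mul_one]
    rw [Finset.prod_congr rfl (fun i _ => h2 i), Finset.prod_mul_distrib, Finset.prod_const, Finset.card_univ,
      Fintype.card_fin, ← pow_mul]
    congr 1
    rw [← Fin.prod_univ_eq_prod_range (fun j => 1 - (1 / (p : ℝ)) ^ (j + 1)) k]
    rw [← Equiv.prod_comp Fin.revPerm]
    refine Finset.prod_congr rfl fun i _ => ?_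
    congr 2
    rw [Fin.revPerm_apply, Fin.val_rev]
    omega
  have h2 : (1 / 4 : ℝ) ≤ ∏ j ∈ Finset.range k, (1 - (1 / (p : ℝ)) ^ (j + 1)) := by
    refine (Sub_prod' k).trans (Finset.prod_le_prod ?_ ?_)
    · intro j _
      have : ((1 : ℝ) / 2) ^ (j + 1) ≤ 1 := pow_le_one₀ (by norm_num) (by norm_num)
      linarith
    · intro j _
      have : (1 / (p : ℝ)) ^ (j + 1) ≤ (1 / 2) ^ (j + 1) :=
        pow_le_pow_left₀ (by positivity) (one_div_le_one_div_of_le (by norm_num) hp2) _
      linarith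
  have h3 : ((p ^ (k * k) : ℕ) : ℝ) ≤ ((4 * ∏ i : Fin k, (p ^ k - p ^ (i : ℕ)) : ℕ) : ℝ) := by
    rw [Nat.cast_mul, h1]
    push_cast
    have h4 : (0 : ℝ) < (p : ℝ) ^ (k * k) := by positivity
    nlinarith
  exact_mod_cast h3

private theorem Sub_k (k d : ℕ) (hk : k ≤ d) : k * (d - k) ≤ d ^ 2 / 4 := by
  rw [Nat.le_div_iff_mul_le (by norm_num)]
  obtain ⟨e, rfl⟩ := Nat.exists_eq_add_of_le hk
  rw [Nat.add_sub_cancel_left]
  nlinarith [sq_nonneg ((k : ℤ) - e), mul_self_nonneg ((k : ℤ) - (e : ℤ)), Nat.zero_le k, (by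
    have := mul_self_nonneg ((k : ℤ) - (e : ℤ))
    have h : (4 * (k * e) : ℤ) ≤ (k + e) ^ 2 := by nlinarith
    exact_mod_cast h : 4 * (k * e) ≤ (k + e) ^ 2)]

theorem card_submodule_le (p : ℕ) [hpf : Fact p.Prime] (V : Type) [AddCommGroup V] [Module (ZMod p) V] [Finite V]
    (m : ℕ) (h : Nat.card V ≤ p ^ m) :
    Nat.card (Submodule (ZMod p) V) ≤ 4 * (m + 1) * p ^ (m ^ 2 / 4) := by
  classical
  have hp2 : 2 ≤ p := hpf.out.two_le
  set d := Module.finrank (ZMod p) V with hd
  have hcard : Nat.card V = p ^ d := by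
    have := Module.natCard_eq_pow_finrank (K := ZMod p) (V := V)
    rw [Nat.card_zmod] at this
    exact this
  have hdm : d ≤ m := by
    rw [hcard] at h
    exact (Nat.pow_le_pow_iff_right hp2).1 h
  have : Fintype (Submodule (ZMod p) V) := Fintype.ofFinite _
  have hS : ∀ k ≤ d, ((Finset.univ : Finset (Submodule (ZMod p) V)).filter
      (fun W : Submodule (ZMod p) V => Module.finrank (ZMod p) W = k)).card ≤ 4 * p ^ (d ^ 2 / 4) := by
    intro k hk
    set S := (Finset.univ : Finset (Submodule (ZMod p) V)).filter (fun W : Submodule (ZMod p) V => Module.finrank (ZMod p) W = k) with hS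
    have hinj : Nat.card (Σ W : S, {s : Fin k → (W : Submodule (ZMod p) V) // LinearIndependent (ZMod p) s}) ≤
        Nat.card (Fin k → V) := by
      refine Nat.card_le_card_of_injective (fun x => fun i => ((x.2.1 i : ((x.1 : S) : Submodule (ZMod p) V)) : V)) ?_
      rintro ⟨⟨W, hW⟩, s, hs⟩ ⟨⟨W', hW'⟩, s', hs'⟩ heq
      have hW2 : Module.finrank (ZMod p) W = k := (Finset.mem_filter.1 hW).2
      have hW2' : Module.finrank (ZMod p) W' = k := (Finset.mem_filter.1 hW').2
      have hspan : ∀ (W : Submodule (ZMod p) V) (hW2 : Module.finrank (ZMod p) W = k)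
          (s : Fin k → W) (hs : LinearIndependent (ZMod p) s),
          Submodule.span (ZMod p) (Set.range (fun i => (s i : V))) = W := by
        intro W hW2 s hs
        have h1 : Submodule.span (ZMod p) (Set.range s) = ⊤ :=
          hs.span_eq_top_of_card_eq_finrank' (by rw [hW2, Fintype.card_fin])
        have h2 : Set.range (fun i => (s i : V)) = W.subtype '' Set.range s := by
          rw [← Set.range_comp]
          rfl
        rw [h2, Submodule.span_image, h1, Submodule.map_top, Submodule.range_subtype]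
      have hfun : (fun i => (s i : V)) = (fun i => (s' i : V)) := heq
      have hWW : W = W' := by
        rw [← hspan W hW2 s hs, ← hspan W' hW2' s' hs', hfun]
      subst hWW
      have hss : s = s' := by
        funext i
        exact Subtype.ext (congrFun hfun i)
      subst hss
      rfl
    rw [Nat.card_sigma] at hinj
    have hc : ∀ W : S, Nat.card {s : Fin k → (W : Submodule (ZMod p) V) // LinearIndependent (ZMod p) s} =
        ∏ i : Fin k, (p ^ k - p ^ (i : ℕ)) := by
      rintro ⟨W, hW⟩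
      have hW2 : Module.finrank (ZMod p) W = k := (Finset.mem_filter.1 hW).2
      have := card_linearIndependent (K := ZMod p) (V := W) (k := k) hW2.ge
      rw [ZMod.card, hW2] at this
      exact this
    rw [Finset.sum_congr rfl (fun W _ => hc W), Finset.sum_const, Finset.card_univ, Fintype.card_coe, smul_eq_mul,
      Nat.card_fun, hcard, Nat.card_eq_fintype_card, Fintype.card_fin, ← pow_mul] at hinj
    have h4 := Sub_D p k hp2
    have h5 : S.card * p ^ (k * k) ≤ (4 * p ^ (k * (d - k))) * p ^ (k * k) := by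
      calc S.card * p ^ (k * k) ≤ S.card * (4 * ∏ i : Fin k, (p ^ k - p ^ (i : ℕ))) := Nat.mul_le_mul_left _ h4
        _ = 4 * (S.card * ∏ i : Fin k, (p ^ k - p ^ (i : ℕ))) := by ring
        _ ≤ 4 * p ^ (d * k) := Nat.mul_le_mul_left _ hinj
        _ = (4 * p ^ (k * (d - k))) * p ^ (k * k) := by
            rw [mul_assoc, ← pow_add, ← Nat.mul_add, Nat.sub_add_cancel hk, mul_comm d k]
    have h6 := Nat.le_of_mul_le_mul_right h5 (by positivity)
    exact h6.trans (Nat.mul_le_mul_left _ (Nat.pow_le_pow_right (by omega) (Sub_k k d hk)))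
  have hsum : Nat.card (Submodule (ZMod p) V) = ∑ k ∈ Finset.range (d + 1),
      ((Finset.univ : Finset (Submodule (ZMod p) V)).filter (fun W : Submodule (ZMod p) V => Module.finrank (ZMod p) W = k)).card := by
    rw [Nat.card_eq_fintype_card, ← Finset.card_univ]
    refine Finset.card_eq_sum_card_fiberwise (f := fun W : Submodule (ZMod p) V => Module.finrank (ZMod p) W) ?_
    intro W _
    exact Finset.mem_coe.2 (Finset.mem_range.2 (Nat.lt_succ_of_le (Submodule.finrank_le W)))
  rw [hsum]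
  calc ∑ k ∈ Finset.range (d + 1), _ ≤ ∑ k ∈ Finset.range (d + 1), 4 * p ^ (d ^ 2 / 4) :=
        Finset.sum_le_sum fun k hk => hS k (Nat.lt_succ_iff.1 (Finset.mem_range.1 hk))
    _ = 4 * (d + 1) * p ^ (d ^ 2 / 4) := by
        rw [Finset.sum_const, Finset.card_range, smul_eq_mul]
        ring
    _ ≤ 4 * (m + 1) * p ^ (m ^ 2 / 4) :=
        Nat.mul_le_mul (by omega) (Nat.pow_le_pow_right (by omega) (Nat.div_le_div_right (Nat.pow_le_pow_left hdm 2)))

private theorem Sub_comm (A : Type) [CommGroup A] [Finite A] (p : ℕ) [Fact p.Prime] (hp : ∀ x : A, x ^ p = 1)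
    (m : ℕ) (h : Nat.card A ≤ p ^ m) : Nat.card (Subgroup A) ≤ 4 * (m + 1) * p ^ (m ^ 2 / 4) := by
  let _ : Module (ZMod p) (Additive A) := AddCommGroup.zmodModule (n := p) (fun x => by
    have : (Additive.toMul x) ^ p = 1 := hp _
    exact this)
  have hfin : Finite (Additive A) := inferInstanceAs (Finite A)
  have h1 := card_submodule_le p (Additive A) m h
  have h2 : Nat.card (Subgroup A) = Nat.card (Submodule (ZMod p) (Additive A)) :=
    Nat.card_congr ((Subgroup.toAddSubgroup (G := A)).toEquiv.trans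
      (AddSubgroup.toZModSubmodule (M := Additive A) p).toEquiv)
  rw [h2]
  exact h1

theorem card_subgroup_le {G : Type} [Group G] (p : ℕ) [Fact p.Prime] (E : Subgroup G) [Finite E]
    (hp : ∀ x ∈ E, x ^ p = 1) (hc : ∀ x ∈ E, ∀ y ∈ E, x * y = y * x) (m : ℕ) (h : Nat.card E ≤ p ^ m) :
    {B : Subgroup G | B ≤ E}.ncard ≤ 4 * (m + 1) * p ^ (m ^ 2 / 4) := by
  have h1 : Nat.card (Subgroup E) ≤ 4 * (m + 1) * p ^ (m ^ 2 / 4) :=
    @Sub_comm E { (inferInstance : Group E) with
      mul_comm := fun x y => Subtype.ext (hc x x.2 y y.2) } _ p _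
      (fun x => Subtype.ext (by
        have := hp x x.2
        rw [← SubgroupClass.coe_pow] at this
        exact this)) m h
  refine le_trans ?_ h1
  rw [← Nat.card_coe_set_eq]
  refine Nat.card_le_card_of_injective (fun B => (B : Subgroup G).subgroupOf E) ?_
  rintro ⟨B, hB⟩ ⟨B', hB'⟩ heq
  have h4 : B = B' := by
    have e1 := Subgroup.map_subgroupOf_eq_of_le (H := B) (K := E) hB
    have e2 := Subgroup.map_subgroupOf_eq_of_le (H := B') (K := E) hB'
    rw [← e1, ← e2]
    exact congrArg _ heq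
  exact Subtype.ext h4

end Pool.Agent.OSG
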